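import Mathlib
import Pool.Agent.Lib.MP_099f24_an.SD.Defs
import Pool.Agent.Lib.MP_099f24_an.SD.Outer

/-!
# The second variation of the Mumford-Shah energy: definitions
-/

namespace Pool.Agent.MP099f24

open MeasureTheory Filter Topology Set Metric
open scoped ENNReal ContDiff

/-- `S_B p = (tr B) p - B p - B† p` -/
noncomputable def SB (B : ℂ →L[ℝ] ℂ) (p : ℂ) : ℂ :=
  ((B 1).re + (B Complex.I).im) • p - B p - ContinuousLinearMap.adjoint B p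

/-- `Q_B(p) = |B† p|² - det B |p|²` -/
noncomputable def QB (B : ℂ →L[ℝ] ℂ) (p : ℂ) : ℝ :=
  ‖ContinuousLinearMap.adjoint B p‖ ^ 2 - B.det * ‖p‖ ^ 2

/-- `∂k/∂z̄` -/
noncomputable def dbar (k : ℂ → ℂ) (x : ℂ) : ℂ :=
  (fderiv ℝ k x 1 + Complex.I * fderiv ℝ k x Complex.I) / 2

/-- the gradient of `α + η κ(u)` -/
noncomputable def tgrad (u : ℂ → ℝ) (g : ℂ → ℂ) (α η : ℂ → ℝ) (κ : ℝ → ℝ) (x : ℂ) : ℂ :=
  outer_grad α x + outer_xi u η g κ x

end Pool.Agent.MP099f24
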