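import Mathlib
import Pool.Agent.Lib.MP_099f24_an.EA.Defs
import Pool.Agent.Lib.MP_099f24_an.SD.Polar

/-!
# MP_099f24_an EA, module CAUCHY: the Cauchy transform of a smooth compactly supported function
-/

namespace Pool.Agent.MP099f24

open MeasureTheory Filter Topology Set Metric
open scoped ENNReal ContDiff Convolution

/-- the Cauchy kernel -/
noncomputable def eacauchy_K (w : ℂ) : ℂ := ((Real.pi : ℂ) * w)⁻¹

theorem eacauchy_K_meas : Measurable eacauchy_K := by
  unfold eacauchy_K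
  fun_prop

theorem eacauchy_pc (r θ : ℝ) : pc 0 r θ = (r : ℂ) * er θ := by
  rw [pc, zero_add]

theorem eacauchy_er_norm (θ : ℝ) : ‖er θ‖ = 1 := by
  rw [er, Complex.norm_exp_ofReal_mul_I]

theorem eacauchy_er_ne (θ : ℝ) : er θ ≠ 0 := by
  intro h
  have := eacauchy_er_norm θ
  rw [h, norm_zero] at this
  exact zero_ne_one this

theorem eacauchy_ball_ae (R : ℝ) :
    (ball (0 : ℂ) R : Set ℂ) =ᵐ[volume] {x | dist x 0 ∈ Ioo 0 R} := by
  have h1 : ({x | dist x 0 ∈ Ioo 0 R} : Set ℂ) = ball 0 R \ {0} := by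
    ext x
    simp only [mem_ofPred_eq, mem_Ioo, Set.mem_sdiff, mem_ball, mem_singleton_iff]
    constructor
    · rintro ⟨h1, h2⟩
      exact ⟨h2, fun h => by rw [h, dist_self] at h1; exact lt_irrefl _ h1⟩
    · rintro ⟨h1, h2⟩
      exact ⟨dist_pos.mpr h2, h1⟩
  rw [h1]
  exact (sdiff_null_ae_eq_self (by simp)).symm

theorem eacauchy_K_int (R : ℝ) : IntegrableOn eacauchy_K (ball (0 : ℂ) R) := by
  rw [integrableOn_congr_set_ae (eacauchy_ball_ae R),
    polar_integrable 0 measurableSet_Ioo Ioo_subset_Ioi_self]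
  apply Measure.integrableOn_of_bounded (M := Real.pi⁻¹)
  · rw [Measure.volume_eq_prod, Measure.prod_prod]
    exact (ENNReal.mul_lt_top (by simp) (by simp)).ne
  · apply Measurable.aestronglyMeasurable
    apply Measurable.smul measurable_fst
    exact eacauchy_K_meas.comp (polar_pc_cont 0).measurable
  · refine (ae_restrict_iff' (measurableSet_Ioo.prod measurableSet_Ioo)).mpr (ae_of_all _ ?_)
    rintro ⟨r, θ⟩ hp
    have hr : 0 < r := hp.1.1
    simp only
    rw [eacauchy_pc, eacauchy_K, norm_smul, norm_inv, norm_mul, norm_mul, eacauchy_er_norm,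
      Complex.norm_real, Complex.norm_real, Real.norm_eq_abs, Real.norm_eq_abs,
      abs_of_pos hr, abs_of_pos Real.pi_pos, mul_one, mul_inv]
    have : r * (Real.pi⁻¹ * r⁻¹) = Real.pi⁻¹ := by field_simp
    exact this.le

theorem eacauchy_K_loc : LocallyIntegrable eacauchy_K := by
  rw [locallyIntegrable_iff]
  intro k hk
  obtain ⟨R, hR⟩ := hk.isBounded.subset_ball 0
  exact (eacauchy_K_int R).mono_set hR

/-- the polar identity -/
theorem eacauchy_dbar_polar (F : ℂ → ℂ) (x : ℂ) (θ : ℝ) :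
    (er θ)⁻¹ * dbar F x =
      (fderiv ℝ F x (er θ) + Complex.I * fderiv ℝ F x (Complex.I * er θ)) / 2 := by
  have he : er θ = (Real.cos θ : ℂ) + (Real.sin θ : ℂ) * Complex.I := by
    rw [er, Complex.exp_mul_I, Complex.ofReal_cos, Complex.ofReal_sin]
  have hinv : (er θ)⁻¹ = (Real.cos θ : ℂ) - (Real.sin θ : ℂ) * Complex.I := by
    rw [inv_eq_iff_eq_inv, eq_comm, inv_eq_of_mul_eq_one_left]
    rw [he]
    have h1 : (Real.cos θ : ℂ) ^ 2 + (Real.sin θ : ℂ) ^ 2 = 1 := by
      norm_cast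
      exact Real.cos_sq_add_sin_sq θ
    linear_combination h1 - (Real.sin θ : ℂ) ^ 2 * Complex.I_sq
  have h1 : fderiv ℝ F x (er θ) =
      Real.cos θ • fderiv ℝ F x 1 + Real.sin θ • fderiv ℝ F x Complex.I := by
    rw [← ContinuousLinearMap.map_smul, ← ContinuousLinearMap.map_smul, ← map_add]
    congr 1
    rw [he]
    simp [Complex.real_smul]
  have h2 : fderiv ℝ F x (Complex.I * er θ) =
      Real.cos θ • fderiv ℝ F x Complex.I - Real.sin θ • fderiv ℝ F x 1 := by
    rw [← ContinuousLinearMap.map_smul, ← ContinuousLinearMap.map_smul, ← map_sub]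
    congr 1
    rw [he]
    simp only [Complex.real_smul]
    linear_combination (Real.sin θ : ℂ) * Complex.I_sq
  rw [h1, h2, hinv, dbar]
  simp only [Complex.real_smul]
  linear_combination (-(Real.sin θ : ℂ) * (fderiv ℝ F x Complex.I) / 2) * Complex.I_sq

theorem eacauchy_R {F : ℂ → ℂ} (hc : HasCompactSupport F) :
    ∃ R : ℝ, 0 < R ∧ (∀ x, R ≤ ‖x‖ → F x = 0) ∧ (∀ x, R ≤ ‖x‖ → fderiv ℝ F x = 0) := by
  obtain ⟨R, hR⟩ := hc.isCompact.isBounded.subset_ball (0 : ℂ)
  refine ⟨max R 1, by positivity, ?_, ?_⟩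
  · intro x hx
    by_contra h
    have h1 : x ∈ ball (0 : ℂ) R := hR (subset_tsupport F h)
    rw [mem_ball_zero_iff] at h1
    have := le_max_left R 1
    linarith
  · intro x hx
    by_contra h
    have h1 : x ∈ ball (0 : ℂ) R := hR (support_fderiv_subset ℝ h)
    rw [mem_ball_zero_iff] at h1
    have := le_max_left R 1
    linarith

theorem eacauchy_slice_int {g : ℝ × ℝ → ℂ} (hg : Continuous g) {T : ℝ}
    (h0 : ∀ p : ℝ × ℝ, T ≤ p.1 → g p = 0) :
    IntegrableOn g (Ioi (0 : ℝ) ×ˢ Ioo (-Real.pi) Real.pi) := by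
  have h1 : IntegrableOn g (Icc (0 : ℝ) T ×ˢ Icc (-Real.pi) Real.pi) :=
    hg.continuousOn.integrableOn_compact (isCompact_Icc.prod isCompact_Icc)
  refine h1.of_forall_sdiff_eq_zero (measurableSet_Ioi.prod measurableSet_Ioo) ?_
  rintro ⟨r, θ⟩ ⟨h2, h3⟩
  apply h0
  by_contra h4
  push Not at h4
  exact h3 ⟨⟨h2.1.le, h4.le⟩, ⟨h2.2.1.le, h2.2.2.le⟩⟩

theorem eacauchy_er_deriv (θ : ℝ) : HasDerivAt er (Complex.I * er θ) θ := by
  have h1 : HasDerivAt (fun t : ℝ => Complex.exp ((t : ℂ) * Complex.I))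
      (Complex.exp ((θ : ℂ) * Complex.I) * (1 * Complex.I)) θ :=
    ((Complex.ofRealCLM.hasDerivAt (x := θ)).mul_const Complex.I).cexp
  have h2 : er = fun t : ℝ => Complex.exp ((t : ℂ) * Complex.I) := rfl
  rw [h2]
  convert h1 using 1
  ring

/-- Cauchy–Pompeiu formula -/
theorem eacauchy_pompeiu {F : ℂ → ℂ} (hF : ContDiff ℝ ∞ F) (hc : HasCompactSupport F) (z : ℂ) :
    ∫ w, eacauchy_K w * dbar F (z - w) = F z := by
  obtain ⟨R, hR0, hR1, hR2⟩ := eacauchy_R hc
  have hd : Continuous (fderiv ℝ F) := hF.continuous_fderiv (by simp)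
  have hFd : ∀ x, HasFDerivAt F (fderiv ℝ F x) x := fun x =>
    (hF.differentiable (by simp) x).hasFDerivAt
  set T : ℝ := R + ‖z‖ with hT
  set A : ℝ × ℝ → ℂ := fun p => fderiv ℝ F (z - (p.1 : ℂ) * er p.2) (er p.2) with hA
  set B : ℝ × ℝ → ℂ := fun p => fderiv ℝ F (z - (p.1 : ℂ) * er p.2) (Complex.I * er p.2) with hB
  have hcp : Continuous (fun p : ℝ × ℝ => z - (p.1 : ℂ) * er p.2) :=
    continuous_const.sub ((Complex.continuous_ofReal.comp continuous_fst).mul
      (polar_er_cont.comp continuous_snd))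
  have hAc : Continuous A :=
    (hd.comp hcp).clm_apply (polar_er_cont.comp continuous_snd)
  have hBc : Continuous B :=
    (hd.comp hcp).clm_apply (continuous_const.mul (polar_er_cont.comp continuous_snd))
  have hfar : ∀ (r θ : ℝ), T ≤ r → R ≤ ‖z - (r : ℂ) * er θ‖ := by
    intro r θ hr
    have h0 : 0 ≤ r := by
      have := norm_nonneg z
      linarith
    have h1 : ‖(r : ℂ) * er θ‖ = r := by
      rw [norm_mul, eacauchy_er_norm, mul_one, Complex.norm_real, Real.norm_eq_abs, abs_of_nonneg h0]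
    have h2 : ‖(r : ℂ) * er θ‖ - ‖z‖ ≤ ‖z - (r : ℂ) * er θ‖ := by
      rw [norm_sub_rev]
      exact norm_sub_norm_le _ _
    rw [h1] at h2
    linarith
  have hA0 : ∀ p : ℝ × ℝ, T ≤ p.1 → A p = 0 := by
    intro p hp
    simp only [hA]
    rw [hR2 _ (hfar _ _ hp)]
    rfl
  have hB0 : ∀ p : ℝ × ℝ, T ≤ p.1 → B p = 0 := by
    intro p hp
    simp only [hB]
    rw [hR2 _ (hfar _ _ hp)]
    rfl
  have hAi := eacauchy_slice_int hAc hA0
  have hBi := eacauchy_slice_int hBc hB0
  -- polar coordinates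
  have hset : ({x | dist x 0 ∈ Ioi 0} : Set ℂ) =ᵐ[volume] univ := by
    have h1 : ({x | dist x 0 ∈ Ioi 0} : Set ℂ) = univ \ {0} := by
      ext x
      simp [mem_ofPred_eq]
    rw [h1]
    exact sdiff_null_ae_eq_self (by simp)
  have hpol : ∫ w, eacauchy_K w * dbar F (z - w) =
      ∫ p in Ioi (0 : ℝ) ×ˢ Ioo (-Real.pi) Real.pi,
        (((2 * Real.pi : ℝ) : ℂ))⁻¹ * (A p + Complex.I * B p) := by
    rw [← setIntegral_univ, ← setIntegral_congr_set hset,
      polar_integral 0 measurableSet_Ioi subset_rfl]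
    apply setIntegral_congr_fun (measurableSet_Ioi.prod measurableSet_Ioo)
    rintro ⟨r, θ⟩ hp
    have hr : (0 : ℝ) < r := hp.1
    have hr' : (r : ℂ) ≠ 0 := by exact_mod_cast hr.ne'
    have hpi : (Real.pi : ℂ) ≠ 0 := by exact_mod_cast Real.pi_ne_zero
    simp only [hA, hB]
    have h3 := eacauchy_dbar_polar F (z - (r : ℂ) * er θ) θ
    have h4 : fderiv ℝ F (z - (r : ℂ) * er θ) (er θ) +
        Complex.I * fderiv ℝ F (z - (r : ℂ) * er θ) (Complex.I * er θ) =
        2 * ((er θ)⁻¹ * dbar F (z - (r : ℂ) * er θ)) := by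
      rw [h3]; ring
    rw [h4, eacauchy_pc, eacauchy_K, Complex.real_smul]
    have h5 := eacauchy_er_ne θ
    push_cast
    field_simp
  have hIB : ∫ p in Ioi (0 : ℝ) ×ˢ Ioo (-Real.pi) Real.pi, Complex.I * B p = 0 := by
    rw [integral_const_mul]
    rw [Measure.volume_eq_prod, setIntegral_prod _ (by rw [← Measure.volume_eq_prod]; exact hBi)]
    have h1 : ∀ r ∈ Ioi (0 : ℝ), ∫ θ in Ioo (-Real.pi) Real.pi, B (r, θ) = 0 := by
      intro r hr
      have hr' : (r : ℂ) ≠ 0 := by exact_mod_cast (ne_of_gt hr)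
      rw [← integral_Ioc_eq_integral_Ioo,
        ← intervalIntegral.integral_of_le (by linarith [Real.pi_pos])]
      have h2 : ∀ θ ∈ uIcc (-Real.pi) Real.pi,
          HasDerivAt (fun θ : ℝ => (-(r : ℂ))⁻¹ * F (z - (r : ℂ) * er θ)) (B (r, θ)) θ := by
        intro θ _
        have h3 : HasDerivAt (fun θ : ℝ => z - (r : ℂ) * er θ) (-((r : ℂ) * (Complex.I * er θ))) θ :=
          ((eacauchy_er_deriv θ).const_mul (r : ℂ)).const_sub z
        have h4 := ((hFd (z - (r : ℂ) * er θ)).comp_hasDerivAt θ h3).const_mul (-(r : ℂ))⁻¹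
        refine h4.congr_deriv ?_
        have h5 : -((r : ℂ) * (Complex.I * er θ)) = (-r : ℝ) • (Complex.I * er θ) := by
          rw [Complex.real_smul]; push_cast; ring
        rw [h5, ContinuousLinearMap.map_smul, Complex.real_smul]
        simp only [hB]
        push_cast
        rw [← mul_assoc, inv_mul_cancel₀ (neg_ne_zero.mpr hr'), one_mul]
      rw [intervalIntegral.integral_eq_sub_of_hasDerivAt h2
        ((hBc.comp (Continuous.prodMk_right r)).intervalIntegrable _ _)]
      have h6 : er Real.pi = er (-Real.pi) := by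
        rw [er, er, Complex.exp_pi_mul_I]
        push_cast
        rw [neg_mul, Complex.exp_neg, Complex.exp_pi_mul_I]
        norm_num
      rw [h6, sub_self]
    rw [setIntegral_congr_fun measurableSet_Ioi h1]
    simp
  have hIA : ∫ p in Ioi (0 : ℝ) ×ˢ Ioo (-Real.pi) Real.pi, A p = (2 * Real.pi : ℝ) • F z := by
    have h7 : ∫ p in Ioi (0 : ℝ) ×ˢ Ioo (-Real.pi) Real.pi, A p =
        ∫ θ in Ioo (-Real.pi) Real.pi, ∫ r in Ioi (0 : ℝ), A (r, θ) := by
      rw [Measure.volume_eq_prod, ← Measure.prod_restrict]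
      apply integral_prod_symm
      rw [Measure.prod_restrict, ← Measure.volume_eq_prod]
      exact hAi
    rw [h7]
    have h1 : ∀ θ ∈ Ioo (-Real.pi) Real.pi, ∫ r in Ioi (0 : ℝ), A (r, θ) = F z := by
      intro θ _
      have hint : IntegrableOn (fun r => A (r, θ)) (Ioi (0 : ℝ)) := by
        have h2 : IntegrableOn (fun r => A (r, θ)) (Icc (0 : ℝ) T) :=
          (hAc.comp (Continuous.prodMk_left θ)).continuousOn.integrableOn_compact isCompact_Icc
        refine h2.of_forall_sdiff_eq_zero measurableSet_Ioi ?_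
        rintro r ⟨h3, h4⟩
        apply hA0
        by_contra h5
        push Not at h5
        exact h4 ⟨le_of_lt h3, h5.le⟩
      have h2 : ∀ r ∈ Ioi (0 : ℝ),
          HasDerivAt (fun r : ℝ => -F (z - (r : ℂ) * er θ)) (A (r, θ)) r := by
        intro r _
        have h3 : HasDerivAt (fun r : ℝ => z - (r : ℂ) * er θ) (-(1 * er θ)) r :=
          ((Complex.ofRealCLM.hasDerivAt (x := r)).mul_const (er θ)).const_sub z
        have h4 := ((hFd (z - (r : ℂ) * er θ)).comp_hasDerivAt r h3).neg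
        refine h4.congr_deriv ?_
        simp only [hA, one_mul, map_neg, neg_neg]
      have h3 : Tendsto (fun r : ℝ => -F (z - (r : ℂ) * er θ)) atTop (𝓝 0) := by
        apply tendsto_const_nhds.congr'
        filter_upwards [eventually_ge_atTop T] with r hr
        rw [hR1 _ (hfar _ _ hr), neg_zero]
      have h4 := integral_Ioi_of_hasDerivAt_of_tendsto (a := 0)
        (f := fun r : ℝ => -F (z - (r : ℂ) * er θ)) (f' := fun r => A (r, θ)) (m := 0) ?_ h2 hint h3
      · rw [h4]
        simp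
      · apply Continuous.continuousWithinAt
        exact (hF.continuous.comp (hcp.comp (Continuous.prodMk_left θ))).neg
    rw [setIntegral_congr_fun measurableSet_Ioo h1, setIntegral_const]
    congr 1
    rw [Measure.real, Real.volume_Ioo, ENNReal.toReal_ofReal (by linarith [Real.pi_pos])]
    ring
  rw [hpol, integral_const_mul, integral_add hAi (hBi.const_mul _), hIB, hIA, add_zero,
    Complex.real_smul, ← mul_assoc, inv_mul_cancel₀, one_mul]
  have := Real.pi_pos
  exact_mod_cast (by positivity : (2 * Real.pi : ℝ) ≠ 0)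

theorem ea_cauchy {F : ℂ → ℂ} (hF : ContDiff ℝ ∞ F) (hc : HasCompactSupport F) :
    ∃ k : ℂ → ℂ, ContDiff ℝ ∞ k ∧ (∀ x, dbar k x = F x) ∧
      ∃ C : ℝ, ∀ x, ‖k x‖ ≤ C / (1 + ‖x‖) ∧ ‖fderiv ℝ k x‖ ≤ C / (1 + ‖x‖) ^ 2 := by
  obtain ⟨R, hR0, hR1, hR2⟩ := eacauchy_R hc
  set L : ℂ →L[ℝ] ℂ →L[ℝ] ℂ := ContinuousLinearMap.mul ℝ ℂ with hL
  set k : ℂ → ℂ := eacauchy_K ⋆[L, volume] F with hk
  have hks : ContDiff ℝ ∞ k := hc.contDiff_convolution_right L eacauchy_K_loc hF
  have hkd : ∀ x, HasFDerivAt k ((eacauchy_K ⋆[L.precompR ℂ, volume] fderiv ℝ F) x) x := fun x =>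
    hc.hasFDerivAt_convolution_right L eacauchy_K_loc (hF.of_le (by simp)) x
  have hkx : ∀ x, k x = ∫ w, eacauchy_K w * F (x - w) := fun x => rfl
  have hce : ∀ x, ConvolutionExistsAt eacauchy_K (fderiv ℝ F) x (L.precompR ℂ) volume := fun x =>
    (hc.fderiv ℝ).convolutionExists_right (L.precompR ℂ) eacauchy_K_loc
      (hF.continuous_fderiv (by simp)) x
  have hkv : ∀ x v, fderiv ℝ k x v = ∫ w, eacauchy_K w * fderiv ℝ F (x - w) v := by
    intro x v
    rw [(hkd x).fderiv, convolution_def, ContinuousLinearMap.integral_apply (hce x)]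
    rfl
  have hiv : ∀ x v, Integrable (fun w => eacauchy_K w * fderiv ℝ F (x - w) v) := by
    intro x v
    exact (ContinuousLinearMap.apply ℝ ℂ v).integrable_comp (hce x)
  have hdb : ∀ x, dbar k x = F x := by
    intro x
    rw [dbar, hkv, hkv, ← eacauchy_pompeiu hF hc x, ← integral_const_mul, ← integral_add (hiv x 1)
      ((hiv x Complex.I).const_mul _), ← integral_div]
    congr 1
    ext w
    rw [dbar]
    ring
  refine ⟨k, hks, hdb, ?_⟩
  have hkc : Continuous k := hks.continuous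
  have hkdc : Continuous (fderiv ℝ k) := hks.continuous_fderiv (by simp)
  -- decay of `k`
  set M : ℝ := ∫ w, ‖F w‖ with hM
  have hM0 : 0 ≤ M := integral_nonneg fun w => norm_nonneg _
  have hFi : Integrable F := hF.continuous.integrable_of_hasCompactSupport hc
  have hkb : ∀ x, 2 * R ≤ ‖x‖ → ‖k x‖ ≤ M / ‖x‖ := by
    intro x hx
    have hx0 : 0 < ‖x‖ := by linarith
    have h1 : ∀ w, ‖eacauchy_K w * F (x - w)‖ ≤ (1 / ‖x‖) * ‖F (x - w)‖ := by
      intro w
      rw [norm_mul]
      by_cases hw : F (x - w) = 0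
      · rw [hw, norm_zero, mul_zero, mul_zero]
      · apply mul_le_mul_of_nonneg_right _ (norm_nonneg _)
        have h2 : ‖x - w‖ < R := by
          by_contra h
          exact hw (hR1 _ (not_lt.mp h))
        have h3 : ‖x‖ / 2 ≤ ‖w‖ := by
          have : ‖x‖ ≤ ‖x - w‖ + ‖w‖ := by
            calc ‖x‖ = ‖(x - w) + w‖ := by rw [sub_add_cancel]
              _ ≤ _ := norm_add_le _ _
          linarith
        rw [eacauchy_K, norm_inv, norm_mul, Complex.norm_real, Real.norm_eq_abs,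
          abs_of_pos Real.pi_pos, one_div]
        apply inv_anti₀ hx0
        have h4 := Real.pi_gt_three
        nlinarith
    calc ‖k x‖ ≤ ∫ w, (1 / ‖x‖) * ‖F (x - w)‖ := by
          rw [hkx]
          refine norm_integral_le_of_norm_le ?_ (ae_of_all _ h1)
          exact (hFi.comp_sub_left x).norm.const_mul _
      _ = M / ‖x‖ := by
          rw [integral_const_mul, integral_sub_left_eq_self (fun w => ‖F w‖) volume x]
          ring
  have hkd2 : ∀ x, 4 * R ≤ ‖x‖ → ‖fderiv ℝ k x‖ ≤ 4 * M / ‖x‖ ^ 2 := by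
    intro x hx
    have hx0 : 0 < ‖x‖ := by linarith
    have hbig : ∀ y ∈ closedBall x (‖x‖ / 2), ‖x‖ / 2 ≤ ‖y‖ := by
      intro y hy
      rw [mem_closedBall, dist_eq_norm] at hy
      have : ‖x‖ ≤ ‖x - y‖ + ‖y‖ := by
        calc ‖x‖ = ‖(x - y) + y‖ := by rw [sub_add_cancel]
          _ ≤ _ := norm_add_le _ _
      rw [norm_sub_rev] at this
      linarith
    have hholo : ∀ y, R ≤ ‖y‖ → HasDerivAt k (fderiv ℝ k y 1) y := by
      intro y hy
      have h1 : DifferentiableAt ℂ k y := by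
        rw [differentiableAt_complex_iff_differentiableAt_real]
        refine ⟨hks.differentiable (by simp) y, ?_⟩
        have h2 := hdb y
        rw [hR1 y hy, dbar, div_eq_zero_iff] at h2
        rcases h2 with h2 | h2
        · rw [smul_eq_mul]
          linear_combination (-Complex.I) * h2 + fderiv ℝ k y Complex.I * Complex.I_sq
        · norm_num at h2
      have h3 : fderiv ℝ k y = (fderiv ℂ k y).restrictScalars ℝ :=
        (h1.hasFDerivAt.restrictScalars ℝ).fderiv
      rw [h3]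
      have h4 : ((fderiv ℂ k y).restrictScalars ℝ) 1 = deriv k y := by
        rw [ContinuousLinearMap.coe_restrictScalars', fderiv_apply_one_eq_deriv]
      rw [h4]
      exact h1.hasDerivAt
    have hRy : ∀ y ∈ closedBall x (‖x‖ / 2), 2 * R ≤ ‖y‖ := by
      intro y hy
      have := hbig y hy
      linarith
    have hxx : x ∈ closedBall x (‖x‖ / 2) := mem_closedBall_self (by positivity)
    have h5 : ‖deriv k x‖ ≤ (2 * M / ‖x‖) / (‖x‖ / 2) := by
      apply Complex.norm_deriv_le_of_forall_mem_sphere_norm_le (by positivity)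
      · apply DifferentiableOn.diffContOnCl
        intro y hy
        rw [closure_ball _ (by positivity)] at hy
        exact (hholo y (by have := hRy y hy; linarith)).differentiableAt.differentiableWithinAt
      · intro y hy
        have hy' := sphere_subset_closedBall hy
        refine (hkb y (hRy y hy')).trans ?_
        have := hbig y hy'
        rw [div_le_div_iff₀ (by linarith) hx0]
        nlinarith
    have h6 : ‖fderiv ℝ k x‖ ≤ ‖deriv k x‖ := by
      have h7 := hholo x (by linarith)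
      have h8 : fderiv ℝ k x = (ContinuousLinearMap.toSpanSingleton ℂ (fderiv ℝ k x 1)).restrictScalars ℝ :=
        (h7.hasFDerivAt.restrictScalars ℝ).fderiv
      rw [h7.deriv]
      apply ContinuousLinearMap.opNorm_le_bound _ (norm_nonneg _)
      intro v
      conv_lhs => rw [h8]
      rw [ContinuousLinearMap.coe_restrictScalars', ContinuousLinearMap.toSpanSingleton_apply,
        norm_smul, mul_comm]
    calc ‖fderiv ℝ k x‖ ≤ (2 * M / ‖x‖) / (‖x‖ / 2) := h6.trans h5
      _ = 4 * M / ‖x‖ ^ 2 := by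
          field_simp
          ring
  -- bounded on compact sets
  obtain ⟨M1, hM1⟩ := (isCompact_closedBall (0 : ℂ) (4 * R + 1)).exists_bound_of_continuousOn
    hkc.continuousOn
  obtain ⟨M2, hM2⟩ := (isCompact_closedBall (0 : ℂ) (4 * R + 1)).exists_bound_of_continuousOn
    hkdc.continuousOn
  have hM10 : 0 ≤ M1 := (norm_nonneg _).trans (hM1 0 (mem_closedBall_self (by linarith)))
  have hM20 : 0 ≤ M2 := (norm_nonneg _).trans (hM2 0 (mem_closedBall_self (by linarith)))
  set C : ℝ := M1 * (4 * R + 2) + M2 * (4 * R + 2) ^ 2 + 16 * M with hC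
  refine ⟨C, fun x => ?_⟩
  have hx1 : 0 < 1 + ‖x‖ := by have := norm_nonneg x; linarith
  rcases le_total ‖x‖ (4 * R + 1) with hx | hx
  · have hxm : x ∈ closedBall (0 : ℂ) (4 * R + 1) := by rwa [mem_closedBall_zero_iff]
    have h1 := hM1 x hxm
    have h2 := hM2 x hxm
    have hxn := norm_nonneg x
    constructor
    · rw [le_div_iff₀ hx1]
      have h3 : ‖k x‖ * (1 + ‖x‖) ≤ M1 * (4 * R + 2) :=
        mul_le_mul h1 (by linarith) hx1.le hM10
      have h4 : 0 ≤ M2 * (4 * R + 2) ^ 2 := by positivity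
      linarith
    · rw [le_div_iff₀ (by positivity)]
      have h3 : ‖fderiv ℝ k x‖ * (1 + ‖x‖) ^ 2 ≤ M2 * (4 * R + 2) ^ 2 := by
        apply mul_le_mul h2 _ (by positivity) hM20
        exact pow_le_pow_left₀ hx1.le (by linarith) 2
      have h4 : 0 ≤ M1 * (4 * R + 2) := by positivity
      linarith
  · have hx0 : 1 ≤ ‖x‖ := by linarith
    have h1 := hkb x (by linarith)
    have h2 := hkd2 x (by linarith)
    have h4 : 0 ≤ M2 * (4 * R + 2) ^ 2 := by positivity
    have h5 : 0 ≤ M1 * (4 * R + 2) := by positivity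
    constructor
    · refine h1.trans ?_
      rw [div_le_div_iff₀ (by linarith) hx1]
      nlinarith
    · refine h2.trans ?_
      rw [div_le_div_iff₀ (by positivity) (by positivity)]
      have h6 : (1 + ‖x‖) ^ 2 ≤ 4 * ‖x‖ ^ 2 := by nlinarith
      have h7 : 0 ≤ ‖x‖ ^ 2 := by positivity
      have h8 : 4 * M * (1 + ‖x‖) ^ 2 ≤ 4 * M * (4 * ‖x‖ ^ 2) :=
        mul_le_mul_of_nonneg_left h6 (by linarith)
      have h9 : 16 * M * ‖x‖ ^ 2 ≤ C * ‖x‖ ^ 2 := by
        apply mul_le_mul_of_nonneg_right _ h7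
        linarith
      linarith

end Pool.Agent.MP099f24
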