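import Mathlib
import Pool.Agent.Lib.MP_099f24_an.EA.Defs

/-!
# A smooth cutoff adapted to a separation
-/

set_option autoImplicit false

namespace Pool.Agent.MP099f24

open MeasureTheory Filter Topology Set Metric
open scoped ENNReal ContDiff Manifold

theorem ea_cut {K G : Set ℂ} (hK : IsClosed K) (hG : IsOpen G) {R : ℝ}
    (hR : ∀ z : ℂ, R ≤ ‖z‖ → z ∈ G) (hKG : Disjoint K (frontier G)) :
    ∃ (χ : ℂ → ℝ) (G' U : Set ℂ), ContDiff ℝ ∞ χ ∧ HasCompactSupport χ ∧ IsOpen G' ∧ IsOpen U ∧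
      closure G ⊆ G' ∧ K ∩ Gᶜ ⊆ U ∧ (∀ x ∈ G', χ x = 0) ∧ (∀ x ∈ U, χ x = 1) := by
  have hK1 : IsClosed (K ∩ Gᶜ) := hK.inter hG.isClosed_compl
  have hd : Disjoint (closure G) (K ∩ Gᶜ) := by
    rw [Set.disjoint_left]
    intro x hx hxK
    refine Set.disjoint_left.1 hKG hxK.1 ?_
    rw [frontier, hG.interior_eq]
    exact ⟨hx, hxK.2⟩
  obtain ⟨f, h0, h1, -⟩ := exists_contMDiffMap_zero_one_nhds_of_isClosed (n := ⊤) 𝓘(ℝ, ℂ)
    isClosed_closure hK1 hd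
  obtain ⟨G', hG'o, hGG', hG'⟩ := mem_nhdsSet_iff_exists.1 h0
  obtain ⟨U, hUo, hKU, hU⟩ := mem_nhdsSet_iff_exists.1 h1
  refine ⟨f, G', U, ?_, ?_, hG'o, hUo, hGG', hKU, fun x hx => hG' hx, fun x hx => hU hx⟩
  · exact f.contMDiff.contDiff
  · refine HasCompactSupport.intro (isCompact_closedBall (0 : ℂ) R) fun x hx => ?_
    have hx' : R ≤ ‖x‖ := by
      rw [mem_closedBall, dist_zero_right, not_le] at hx
      exact hx.le
    exact hG' (hGG' (subset_closure (hR x hx')))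

end Pool.Agent.MP099f24
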