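import Mathlib

set_option autoImplicit false

open Set Metric

namespace Pool.Agent.MP099f24

/-- The exterior of a ball in the plane is preconnected. -/
theorem eatopo_ext (R : ℝ) : IsPreconnected {z : ℂ | R ≤ ‖z‖} := by
  have h1 : IsPreconnected (Ici (max R 0) ×ˢ (univ : Set ℝ)) :=
    isPreconnected_Ici.prod isPreconnected_univ
  have h2 : ContinuousOn (fun p : ℝ × ℝ => (p.1 : ℂ) * Complex.exp (p.2 * Complex.I))
      (Ici (max R 0) ×ˢ (univ : Set ℝ)) := by
    apply Continuous.continuousOn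
    fun_prop
  have h3 := h1.image _ h2
  convert h3 using 1
  ext z
  simp only [mem_setOf_eq, mem_image, mem_prod, mem_Ici, mem_univ, and_true, Prod.exists]
  constructor
  · intro hz
    exact ⟨‖z‖, Complex.arg z, max_le hz (norm_nonneg z), Complex.norm_mul_exp_arg_mul_I z⟩
  · rintro ⟨r, t, hr, rfl⟩
    have hr0 : 0 ≤ r := le_trans (le_max_right _ _) hr
    rw [norm_mul, Complex.norm_exp_ofReal_mul_I, mul_one, Complex.norm_real, Real.norm_eq_abs,
      abs_of_nonneg hr0]
    exact le_trans (le_max_left _ _) hr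

theorem ea_topo {K C : Set ℂ} (hK : IsClosed K) (hKu : ¬ Bornology.IsBounded K)
    (hC : IsCompact C) (hCne : C.Nonempty) (hCK : C ⊆ K) (hcl : IsClosed (K \ C)) :
    ∃ G : Set ℂ, IsOpen G ∧ IsPreconnected G ∧ (∃ R : ℝ, ∀ z : ℂ, R ≤ ‖z‖ → z ∈ G) ∧ C ⊆ Gᶜ ∧
      Disjoint K (frontier G) ∧ (K ∩ G).Nonempty := by
  obtain ⟨δ, hδ, hN⟩ := hC.exists_cthickening_subset_open hcl.isOpen_compl
    (fun x hx => by simp only [mem_compl_iff, mem_diff, not_and, not_not]; exact fun _ => hx)
  set N := cthickening δ C with hNdef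
  have hNc : IsCompact N := hC.cthickening
  obtain ⟨R₀, hR₀⟩ := hNc.isBounded.subset_ball (0 : ℂ)
  set R := max R₀ 0 with hR
  have hNR : ∀ z : ℂ, R ≤ ‖z‖ → z ∈ Nᶜ := by
    intro z hz hzN
    have h1 := hR₀ hzN
    rw [mem_ball_zero_iff] at h1
    have h2 : R₀ ≤ R := le_max_left _ _
    linarith
  have hNo : IsOpen Nᶜ := hNc.isClosed.isOpen_compl
  have hRR : R ≤ ‖((R : ℝ) : ℂ)‖ := by
    rw [Complex.norm_real]
    exact le_abs_self R
  set G := connectedComponentIn Nᶜ ((R : ℝ) : ℂ) with hG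
  have hGo : IsOpen G := hNo.connectedComponentIn
  have hGs : G ⊆ Nᶜ := connectedComponentIn_subset _ _
  have hGe : ∀ z : ℂ, R ≤ ‖z‖ → z ∈ G := by
    intro z hz
    exact (eatopo_ext R).subset_connectedComponentIn hRR (fun w hw => hNR w hw) hz
  have hfN : frontier G ⊆ N := by
    intro z hz
    by_contra hzN
    have hz1 : z ∈ connectedComponentIn Nᶜ z := mem_connectedComponentIn hzN
    have hz2 : IsOpen (connectedComponentIn Nᶜ z) := hNo.connectedComponentIn
    have hzc : z ∈ closure G := frontier_subset_closure hz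
    obtain ⟨w, hw1, hw2⟩ := mem_closure_iff.1 hzc _ hz2 hz1
    have e1 := connectedComponentIn_eq hw1
    have e2 := connectedComponentIn_eq hw2
    have e3 : connectedComponentIn Nᶜ z = G := by rw [e1, hG, e2]
    rw [e3] at hz1
    have : z ∉ interior G := hz.2
    rw [hGo.interior_eq] at this
    exact this hz1
  have hCN : C ⊆ interior N := by
    refine (self_subset_thickening hδ C).trans ?_
    exact (isOpen_thickening.subset_interior_iff).2 (thickening_subset_cthickening δ C)
  have hfC : ∀ z ∈ frontier G, z ∉ C := by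
    intro z hz hzC
    have h1 : z ∈ closure Nᶜ := closure_mono hGs (frontier_subset_closure hz)
    rw [closure_compl] at h1
    exact h1 (hCN hzC)
  refine ⟨G, hGo, isPreconnected_connectedComponentIn, ⟨R, hGe⟩, ?_, ?_, ?_⟩
  · intro z hz hzG
    exact hGs hzG (interior_subset (hCN hz))
  · rw [disjoint_left]
    intro z hzK hzf
    exact hN (hfN hzf) ⟨hzK, hfC z hzf⟩
  · by_contra hne
    rw [not_nonempty_iff_eq_empty] at hne
    apply hKu
    refine (Metric.isBounded_ball (x := (0 : ℂ)) (r := R)).subset ?_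
    intro z hz
    rw [mem_ball_zero_iff]
    by_contra hlt
    have : z ∈ K ∩ G := ⟨hz, hGe z (not_lt.1 hlt)⟩
    rw [hne] at this
    exact this

end Pool.Agent.MP099f24
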