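import Mathlib
import Pool.Agent.Lib.MP_099f24_an.EA.Defs
import Pool.Agent.Lib.MP_099f24_an.SD.JRep

/-!
# Holomorphic functions with vanishing derivative on the jump set
-/

namespace Pool.Agent.MP099f24

open MeasureTheory Filter Topology Set Metric
open scoped ENNReal ContDiff

/-- a vector orthogonal to `j ≠ 0` together with its rotation vanishes -/
theorem eazero_orth {w z : ℂ} (hz : z ≠ 0) (h1 : inner ℝ w z = 0)
    (h2 : inner ℝ (Complex.I * w) z = 0) : w = 0 := by
  rw [Complex.inner] at h1 h2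
  have h3 : z * (starRingEnd ℂ) w = 0 := by
    apply Complex.ext
    · rw [h1, Complex.zero_re]
    · have h4 : (z * (starRingEnd ℂ) (Complex.I * w)).re = (z * (starRingEnd ℂ) w).im := by
        simp only [map_mul, Complex.conj_I, Complex.mul_re, Complex.mul_im, Complex.neg_re,
          Complex.neg_im, Complex.I_re, Complex.I_im, Complex.conj_re, Complex.conj_im]
        ring
      rw [← h4, h2, Complex.zero_im]
  rcases mul_eq_zero.mp h3 with h4 | h4
  · exact absurd h4 hz
  · simpa using h4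

/-- the gradient of a smooth function in coordinates -/
theorem eazero_grad {f : ℂ → ℝ} (x : ℂ) :
    outer_grad f x = ⟨fderiv ℝ f x 1, fderiv ℝ f x Complex.I⟩ := by
  have h1 := outer_inner_grad f x 1
  have h2 := outer_inner_grad f x Complex.I
  rw [Complex.inner] at h1 h2
  apply Complex.ext
  · simpa using h1
  · simpa using h2

theorem ea_zero1 {Ω : Set ℂ} {u : ℂ → ℝ} {g j : ℂ → ℂ} (h : SBVData Ω u g j) {V : Set ℂ}
    {k : ℂ → ℂ} (hk : ContDiff ℝ ∞ k) (hkV : ∀ x ∈ V, dbar k x = 0)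
    (h1 : (μH[1] : Measure ℂ) {x ∈ jumpSet Ω u |
      inner ℝ (Complex.I * outer_grad (fun y => (k y).re) x) (j x) ≠ 0} = 0)
    (h2 : (μH[1] : Measure ℂ) {x ∈ jumpSet Ω u |
      inner ℝ (Complex.I * outer_grad (fun y => (k y).im) x) (j x) ≠ 0} = 0) :
    (μH[1] : Measure ℂ) {x ∈ jumpSet Ω u ∩ V | fderiv ℝ k x ≠ 0} = 0 := by
  refine measure_mono_null ?_ (measure_union_null h1 h2)
  rintro x ⟨⟨hxJ, hxV⟩, hx⟩
  by_contra hcon
  simp only [mem_union, not_or] at hcon
  have e1 : inner ℝ (Complex.I * outer_grad (fun y => (k y).re) x) (j x) = 0 := by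
    by_contra h3
    exact hcon.1 ⟨hxJ, h3⟩
  have e2 : inner ℝ (Complex.I * outer_grad (fun y => (k y).im) x) (j x) = 0 := by
    by_contra h3
    exact hcon.2 ⟨hxJ, h3⟩
  have hj0 : j x ≠ 0 := (jrep_mem_jump_iff h.jf hxJ.1).1 hxJ
  apply hx
  have hd : DifferentiableAt ℝ k x := (hk.differentiable (by simp)) x
  have hre : fderiv ℝ (fun y => (k y).re) x = Complex.reCLM.comp (fderiv ℝ k x) :=
    (Complex.reCLM.hasFDerivAt.comp x hd.hasFDerivAt).fderiv
  have him : fderiv ℝ (fun y => (k y).im) x = Complex.imCLM.comp (fderiv ℝ k x) :=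
    (Complex.imCLM.hasFDerivAt.comp x hd.hasFDerivAt).fderiv
  have hb : fderiv ℝ k x Complex.I = Complex.I * fderiv ℝ k x 1 := by
    have h3 := hkV x hxV
    unfold dbar at h3
    have h4 : fderiv ℝ k x 1 + Complex.I * fderiv ℝ k x Complex.I = 0 := by
      have h5 := congrArg (fun z => z * 2) h3
      simpa using h5
    have h5 : Complex.I * (fderiv ℝ k x 1 + Complex.I * fderiv ℝ k x Complex.I) = 0 := by
      rw [h4, mul_zero]
    rw [mul_add, ← mul_assoc, Complex.I_mul_I] at h5
    linear_combination -h5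
  have g1 : Complex.I * outer_grad (fun y => (k y).re) x
      = Complex.I * (starRingEnd ℂ) (fderiv ℝ k x 1) := by
    rw [eazero_grad, hre]
    simp only [ContinuousLinearMap.comp_apply, Complex.reCLM_apply, hb]
    apply Complex.ext <;> simp
  have g2 : Complex.I * outer_grad (fun y => (k y).im) x
      = -(starRingEnd ℂ) (fderiv ℝ k x 1) := by
    rw [eazero_grad, him]
    simp only [ContinuousLinearMap.comp_apply, Complex.imCLM_apply, hb]
    apply Complex.ext <;> simp
  rw [g1] at e1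
  rw [g2, inner_neg_left, neg_eq_zero] at e2
  have h3 := eazero_orth hj0 e2 e1
  have h4 : fderiv ℝ k x 1 = 0 := by simpa using h3
  rw [h4, mul_zero] at hb
  apply ContinuousLinearMap.ext
  intro v
  have h5 : v = v.re • (1 : ℂ) + v.im • Complex.I := by
    apply Complex.ext <;> simp
  rw [h5, map_add, map_smul, map_smul, h4, hb]
  simp

theorem eazero_acc {E : Set ℂ} (hpos : 0 < (μH[1] : Measure ℂ) E) :
    ∃ x ∈ E, ∃ᶠ z in 𝓝[≠] x, z ∈ E := by
  by_contra hcon
  have h1 : DiscreteTopology E := by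
    rw [discreteTopology_subtype_iff]
    intro x hx
    by_contra h2
    apply hcon
    refine ⟨x, hx, ?_⟩
    rw [Filter.frequently_iff_neBot]
    exact ⟨h2⟩
  have h2 : Countable E := countable_of_Lindelof_of_discrete
  have h3 : (μH[1] : Measure ℂ) E = 0 := by
    have h4 : NullSingletonClass (μH[1] : Measure ℂ) :=
      Measure.nullSingletonClass_hausdorff ℂ one_pos
    exact (Set.countable_coe_iff.mp h2).measure_zero _
  exact hpos.ne' h3

theorem ea_zero2 {V : Set ℂ} (hV : IsOpen V) (hVc : IsPreconnected V) {p : ℂ → ℂ}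
    (hp : DifferentiableOn ℂ p V) {E : Set ℂ} (hE : E ⊆ V) (hpos : 0 < (μH[1] : Measure ℂ) E)
    (hz : ∀ x ∈ E, deriv p x = 0) : ∃ c, ∀ x ∈ V, p x = c := by
  obtain ⟨x, hx, hfr⟩ := eazero_acc hpos
  have h1 : AnalyticOnNhd ℂ (deriv p) V := (hp.deriv hV).analyticOnNhd hV
  have h2 : EqOn (deriv p) 0 V :=
    h1.eqOn_zero_of_preconnected_of_frequently_eq_zero hVc (hE hx) (hfr.mono fun z hzE => hz z hzE)
  refine ⟨p x, fun y hy => ?_⟩
  exact hV.is_const_of_deriv_eq_zero hVc hp h2 hy (hE hx)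

end Pool.Agent.MP099f24
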