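import Pool.Agent.Lib.MP_099f24_an.EA.Defs
import Pool.Agent.Lib.MP_099f24_an.SD.Fvar

/-!
# Matrix algebra of the second variation (module ALG)
-/

namespace Pool.Agent.MP099f24

open MeasureTheory Filter Topology Set Metric
open scoped ENNReal ContDiff

lemma eaalg_adj_re (B : ℂ →L[ℝ] ℂ) (p : ℂ) :
    (ContinuousLinearMap.adjoint B p).re = p.re * (B 1).re + p.im * (B 1).im := by
  have h := ContinuousLinearMap.adjoint_inner_left B (1 : ℂ) p
  rw [fvar_inner, fvar_inner] at h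
  simpa using h

lemma eaalg_adj_im (B : ℂ →L[ℝ] ℂ) (p : ℂ) :
    (ContinuousLinearMap.adjoint B p).im =
      p.re * (B Complex.I).re + p.im * (B Complex.I).im := by
  have h := ContinuousLinearMap.adjoint_inner_left B Complex.I p
  rw [fvar_inner, fvar_inner] at h
  simpa using h

lemma eaalg_SB_re (B : ℂ →L[ℝ] ℂ) (p : ℂ) :
    (SB B p).re = ((B Complex.I).im - (B 1).re) * p.re -
      ((B 1).im + (B Complex.I).re) * p.im := by
  unfold SB
  rw [Complex.sub_re, Complex.sub_re, eaalg_adj_re, fvar_re B p]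
  simp only [Complex.real_smul, Complex.mul_re, Complex.ofReal_re, Complex.ofReal_im]
  ring

lemma eaalg_SB_im (B : ℂ →L[ℝ] ℂ) (p : ℂ) :
    (SB B p).im = ((B 1).re - (B Complex.I).im) * p.im -
      ((B 1).im + (B Complex.I).re) * p.re := by
  unfold SB
  rw [Complex.sub_im, Complex.sub_im, eaalg_adj_im, fvar_im B p]
  simp only [Complex.real_smul, Complex.mul_im, Complex.ofReal_re, Complex.ofReal_im]
  ring

theorem sb_conj (B : ℂ →L[ℝ] ℂ) (p : ℂ) :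
    SB B p = -((B 1 + Complex.I * B Complex.I) * (starRingEnd ℂ) p) := by
  apply Complex.ext
  · rw [eaalg_SB_re]
    simp only [Complex.neg_re, Complex.mul_re, Complex.add_re, Complex.add_im, Complex.mul_im,
      Complex.I_re, Complex.I_im, Complex.conj_re, Complex.conj_im]
    ring
  · rw [eaalg_SB_im]
    simp only [Complex.neg_im, Complex.mul_re, Complex.add_re, Complex.add_im, Complex.mul_im,
      Complex.I_re, Complex.I_im, Complex.conj_re, Complex.conj_im]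
    ring

lemma eaalg_smul_apply (B : ℂ →L[ℝ] ℂ) (v : ℂ) : (Complex.I • B) v = Complex.I * B v := rfl

theorem sb_smul_I (B : ℂ →L[ℝ] ℂ) (p : ℂ) : SB (Complex.I • B) p = Complex.I * SB B p := by
  rw [sb_conj, sb_conj, eaalg_smul_apply, eaalg_smul_apply]
  ring

theorem sb_neg (B : ℂ →L[ℝ] ℂ) (p : ℂ) : SB (-B) p = -SB B p := by
  rw [sb_conj, sb_conj, ContinuousLinearMap.neg_apply, ContinuousLinearMap.neg_apply]
  ring

lemma eaalg_QB (B : ℂ →L[ℝ] ℂ) (p : ℂ) :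
    QB B p = (p.re * (B 1).re + p.im * (B 1).im) ^ 2 +
      (p.re * (B Complex.I).re + p.im * (B Complex.I).im) ^ 2 -
      ((B 1).re * (B Complex.I).im - (B 1).im * (B Complex.I).re) * (p.re ^ 2 + p.im ^ 2) := by
  unfold QB
  rw [fvar_normSq, fvar_normSq, fvar_det, eaalg_adj_re, eaalg_adj_im]

theorem qb_neg (B : ℂ →L[ℝ] ℂ) (p : ℂ) : QB (-B) p = QB B p := by
  rw [eaalg_QB, eaalg_QB]
  simp only [ContinuousLinearMap.neg_apply, Complex.neg_re, Complex.neg_im]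
  ring

theorem qb_sum (B : ℂ →L[ℝ] ℂ) (p : ℂ) :
    QB B p + QB (Complex.I • B) p = ‖SB B p‖ ^ 2 := by
  rw [eaalg_QB, eaalg_QB, fvar_normSq, eaalg_SB_re, eaalg_SB_im, eaalg_smul_apply,
    eaalg_smul_apply]
  simp only [Complex.mul_re, Complex.mul_im, Complex.I_re, Complex.I_im]
  ring

lemma eaalg_adj_norm {B : ℂ →L[ℝ] ℂ} {M : ℝ} (hB : ‖B‖ ≤ M) (p : ℂ) :
    ‖ContinuousLinearMap.adjoint B p‖ ≤ M * ‖p‖ := by
  have h : ‖ContinuousLinearMap.adjoint B‖ = ‖B‖ :=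
    LinearIsometryEquiv.norm_map ContinuousLinearMap.adjoint B
  calc _ ≤ ‖ContinuousLinearMap.adjoint B‖ * ‖p‖ := ContinuousLinearMap.le_opNorm _ _
    _ ≤ M * ‖p‖ := by rw [h]; gcongr

theorem qb_bound {B : ℂ →L[ℝ] ℂ} {M : ℝ} (hB : ‖B‖ ≤ M) (p : ℂ) :
    |QB B p| ≤ 3 * M ^ 2 * ‖p‖ ^ 2 := by
  have hM : 0 ≤ M := (norm_nonneg _).trans hB
  have h1 : ‖ContinuousLinearMap.adjoint B p‖ ^ 2 ≤ M ^ 2 * ‖p‖ ^ 2 := by
    rw [← mul_pow]
    exact pow_le_pow_left₀ (norm_nonneg _) (eaalg_adj_norm hB p) 2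
  have h2 := fvar_det_abs hB
  have h3 : |B.det * ‖p‖ ^ 2| ≤ 2 * M ^ 2 * ‖p‖ ^ 2 := by
    rw [abs_mul, abs_of_nonneg (sq_nonneg ‖p‖)]
    gcongr
  unfold QB
  calc _ ≤ |‖ContinuousLinearMap.adjoint B p‖ ^ 2| + |B.det * ‖p‖ ^ 2| := abs_sub _ _
    _ ≤ M ^ 2 * ‖p‖ ^ 2 + 2 * M ^ 2 * ‖p‖ ^ 2 := by
        rw [abs_of_nonneg (sq_nonneg ‖ContinuousLinearMap.adjoint B p‖)]
        gcongr
    _ = _ := by ring

theorem qb_add {B : ℂ →L[ℝ] ℂ} {M : ℝ} (hB : ‖B‖ ≤ M) (p q : ℂ) (t : ℝ) :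
    |QB B (p + t • q) - QB B p| ≤ 3 * M ^ 2 * (2 * |t| * ‖p‖ * ‖q‖ + t ^ 2 * ‖q‖ ^ 2) := by
  have hM : 0 ≤ M := (norm_nonneg _).trans hB
  have key : QB B (p + t • q) - QB B p =
      2 * t * (inner ℝ (ContinuousLinearMap.adjoint B p) (ContinuousLinearMap.adjoint B q) -
        B.det * inner ℝ p q) + t ^ 2 * QB B q := by
    rw [eaalg_QB, eaalg_QB, eaalg_QB, fvar_inner, fvar_inner, fvar_det, eaalg_adj_re,
      eaalg_adj_im, eaalg_adj_re, eaalg_adj_im]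
    simp only [Complex.add_re, Complex.add_im, Complex.real_smul, Complex.mul_re, Complex.mul_im,
      Complex.ofReal_re, Complex.ofReal_im]
    ring
  have h1 : |inner ℝ (ContinuousLinearMap.adjoint B p) (ContinuousLinearMap.adjoint B q)| ≤
      M ^ 2 * (‖p‖ * ‖q‖) := by
    calc _ ≤ ‖ContinuousLinearMap.adjoint B p‖ * ‖ContinuousLinearMap.adjoint B q‖ :=
          abs_real_inner_le_norm _ _
      _ ≤ (M * ‖p‖) * (M * ‖q‖) := by
          apply mul_le_mul (eaalg_adj_norm hB p) (eaalg_adj_norm hB q) (norm_nonneg _)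
          positivity
      _ = _ := by ring
  have h2 : |B.det * inner ℝ p q| ≤ 2 * M ^ 2 * (‖p‖ * ‖q‖) := by
    rw [abs_mul]
    exact mul_le_mul (fvar_det_abs hB) (abs_real_inner_le_norm _ _) (abs_nonneg _)
      (by positivity)
  have h3 : |inner ℝ (ContinuousLinearMap.adjoint B p) (ContinuousLinearMap.adjoint B q) -
        B.det * inner ℝ p q| ≤ 3 * M ^ 2 * (‖p‖ * ‖q‖) := by
    calc _ ≤ _ + _ := abs_sub _ _
      _ ≤ M ^ 2 * (‖p‖ * ‖q‖) + 2 * M ^ 2 * (‖p‖ * ‖q‖) := add_le_add h1 h2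
      _ = _ := by ring
  have h4 := qb_bound hB q
  rw [key]
  calc _ ≤ |2 * t * (inner ℝ (ContinuousLinearMap.adjoint B p)
          (ContinuousLinearMap.adjoint B q) - B.det * inner ℝ p q)| + |t ^ 2 * QB B q| :=
        abs_add_le _ _
    _ ≤ 2 * |t| * (3 * M ^ 2 * (‖p‖ * ‖q‖)) + t ^ 2 * (3 * M ^ 2 * ‖q‖ ^ 2) := by
        rw [abs_mul, abs_mul, abs_two, abs_mul, abs_of_nonneg (sq_nonneg t)]
        gcongr
    _ = _ := by ring

theorem lb_add (B : ℂ →L[ℝ] ℂ) (p q : ℂ) (t : ℝ) :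
    ‖p + t • q‖ ^ 2 * ((B 1).re + (B Complex.I).im) - 2 * inner ℝ (B (p + t • q)) (p + t • q) =
      (‖p‖ ^ 2 * ((B 1).re + (B Complex.I).im) - 2 * inner ℝ (B p) p) +
      2 * t * inner ℝ (SB B p) q +
      t ^ 2 * (‖q‖ ^ 2 * ((B 1).re + (B Complex.I).im) - 2 * inner ℝ (B q) q) := by
  rw [fvar_inner, fvar_inner, fvar_inner, fvar_inner, fvar_normSq, fvar_normSq, fvar_normSq,
    eaalg_SB_re, eaalg_SB_im, fvar_re B (p + t • q), fvar_im B (p + t • q), fvar_re B p,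
    fvar_im B p, fvar_re B q, fvar_im B q]
  simp only [Complex.add_re, Complex.add_im, Complex.real_smul, Complex.mul_re, Complex.mul_im,
    Complex.ofReal_re, Complex.ofReal_im]
  ring

theorem ea_expand {B : ℂ →L[ℝ] ℂ} {M t : ℝ} (hB : ‖B‖ ≤ M) (ht : 0 ≤ t) (htM : t * M ≤ 1 / 4)
    (g : ℂ) :
    ‖(ContinuousLinearMap.id ℝ ℂ + t • B) (Complex.I * g)‖ ^ 2 /
      (ContinuousLinearMap.id ℝ ℂ + t • B).det ≤
      ‖g‖ ^ 2 + t * (‖g‖ ^ 2 * ((B 1).re + (B Complex.I).im) - 2 * inner ℝ (B g) g) +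
        t ^ 2 * QB B g + 64 * M ^ 3 * t ^ 3 * ‖g‖ ^ 2 := by
  have hM : 0 ≤ M := (norm_nonneg _).trans hB
  have hdet := fvar_det_ge hB ht htM
  rw [div_le_iff₀ (by linarith), fvar_norm_add]
  have hI : inner ℝ (B (Complex.I * g)) (Complex.I * g) =
      ((B 1).re + (B Complex.I).im) * ‖g‖ ^ 2 - inner ℝ (B g) g := by
    rw [fvar_inner, fvar_inner, fvar_normSq, fvar_re B (Complex.I * g), fvar_im B (Complex.I * g),
      fvar_re B g, fvar_im B g]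
    simp
    ring
  have hJ : ‖B (Complex.I * g)‖ ^ 2 = QB B g + B.det * ‖g‖ ^ 2 +
      ((B 1).re + (B Complex.I).im) *
        (((B 1).re + (B Complex.I).im) * ‖g‖ ^ 2 - 2 * inner ℝ (B g) g) := by
    rw [eaalg_QB, fvar_det, fvar_inner, fvar_normSq, fvar_normSq, fvar_re B (Complex.I * g),
      fvar_im B (Complex.I * g), fvar_re B g, fvar_im B g]
    simp
    ring
  have hIg : ‖Complex.I * g‖ = ‖g‖ := by rw [norm_mul, Complex.norm_I, one_mul]
  rw [hI, hIg, hJ]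
  have hQ := qb_bound hB g
  set T := (B 1).re + (B Complex.I).im with hT
  set q := inner ℝ (B g) g with hq
  set Gg := ‖g‖ ^ 2 with hG
  set Q := QB B g with hQd
  have hG0 : 0 ≤ Gg := sq_nonneg _
  obtain ⟨h1, -, -, h4⟩ := fvar_entries hB
  have hTM : |T| ≤ 2 * M := by
    calc |T| ≤ |(B 1).re| + |(B Complex.I).im| := abs_add_le _ _
      _ ≤ _ := by linarith
  have hqM : |q| ≤ M * Gg := by
    calc |q| ≤ ‖B g‖ * ‖g‖ := abs_real_inner_le_norm _ _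
      _ ≤ (‖B‖ * ‖g‖) * ‖g‖ := by gcongr; exact B.le_opNorm g
      _ ≤ (M * ‖g‖) * ‖g‖ := by gcongr
      _ = M * Gg := by rw [hG]; ring
  have hD : |B.det| ≤ 2 * M ^ 2 := fvar_det_abs hB
  have hdet2 := hdet
  rw [fvar_det_add] at hdet2 ⊢
  set D := B.det
  rw [← hT] at hdet2 ⊢
  have hR : |T * Gg - 2 * q| ≤ 4 * M * Gg := by
    calc |T * Gg - 2 * q| ≤ |T * Gg| + |2 * q| := abs_sub _ _
      _ = |T| * Gg + 2 * |q| := by rw [abs_mul, abs_mul, abs_of_nonneg hG0, abs_two]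
      _ ≤ 2 * M * Gg + 2 * (M * Gg) := by gcongr
      _ = _ := by ring
  have e3 : -(8 * M ^ 3 * Gg) ≤ D * (T * Gg - 2 * q) := by
    have : |D * (T * Gg - 2 * q)| ≤ (2 * M ^ 2) * (4 * M * Gg) := by
      rw [abs_mul]; exact mul_le_mul hD hR (abs_nonneg _) (by positivity)
    have := (abs_le.1 this).1
    nlinarith
  have e2 : -(6 * M ^ 3 * Gg) ≤ T * Q := by
    have : |T * Q| ≤ (2 * M) * (3 * M ^ 2 * Gg) := by
      rw [abs_mul]; exact mul_le_mul hTM hQ (abs_nonneg _) (by positivity)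
    have := (abs_le.1 this).1
    nlinarith
  have e1 : -(6 * M ^ 4 * Gg) ≤ D * Q := by
    have : |D * Q| ≤ (2 * M ^ 2) * (3 * M ^ 2 * Gg) := by
      rw [abs_mul]; exact mul_le_mul hD hQ (abs_nonneg _) (by positivity)
    have := (abs_le.1 this).1
    nlinarith
  have f1 : t ^ 3 * (-(14 * M ^ 3 * Gg)) ≤ t ^ 3 * (D * (T * Gg - 2 * q) + T * Q) :=
    mul_le_mul_of_nonneg_left (by linarith) (by positivity)
  have f2 : t ^ 4 * (-(6 * M ^ 4 * Gg)) ≤ t ^ 4 * (D * Q) :=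
    mul_le_mul_of_nonneg_left e1 (by positivity)
  have f3 : t ^ 4 * (6 * M ^ 4 * Gg) ≤ 2 * (t ^ 3 * (M ^ 3 * Gg)) := by
    have h0 : 0 ≤ M ^ 3 * t ^ 3 * Gg := by positivity
    nlinarith [mul_le_mul_of_nonneg_left htM h0]
  have f4 : 64 * M ^ 3 * t ^ 3 * Gg * (1 / 4) ≤
      64 * M ^ 3 * t ^ 3 * Gg * (1 + t * T + t ^ 2 * D) := by
    apply mul_le_mul_of_nonneg_left hdet2
    positivity
  have key : (Gg + t * (Gg * T - 2 * q) + t ^ 2 * Q + 64 * M ^ 3 * t ^ 3 * Gg) *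
        (1 + t * T + t ^ 2 * D) -
      (Gg + 2 * t * (T * Gg - q) + t ^ 2 * (Q + D * Gg + T * (T * Gg - 2 * q))) =
      t ^ 3 * (D * (T * Gg - 2 * q) + T * Q) + t ^ 4 * (D * Q) +
      64 * M ^ 3 * t ^ 3 * Gg * (1 + t * T + t ^ 2 * D) := by
    ring
  have h0 : 0 ≤ M ^ 3 * t ^ 3 * Gg := by positivity
  nlinarith

end Pool.Agent.MP099f24
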