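import Mathlib

/-!
A locally constant displacement does not increase one-dimensional Hausdorff measure.
-/

open Set Metric Topology MeasureTheory Measure
open scoped ContDiff ENNReal

namespace Pool.Agent.MP099f24

theorem ealen_const {X : ℂ → ℂ} (hX : ContDiff ℝ ∞ X) {U : Set ℂ} (hU : IsOpen U)
    (h0 : ∀ x ∈ U, fderiv ℝ X x = 0) {x : ℂ} (hx : x ∈ U) :
    ∃ r > 0, ∀ y ∈ ball x r, X y = X x := by
  obtain ⟨r, hr, hrU⟩ := Metric.isOpen_iff.mp hU x hx
  refine ⟨r, hr, fun y hy => ?_⟩
  have hd : DifferentiableOn ℝ X (ball x r) := (hX.differentiable (by simp)).differentiableOn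
  exact (convex_ball x r).is_const_of_fderivWithin_eq_zero (𝕜 := ℝ) hd (fun z hz => by
    rw [fderivWithin_of_isOpen isOpen_ball hz]
    exact h0 z (hrU hz)) hy (mem_ball_self hr)

theorem ea_len {X : ℂ → ℂ} (hX : ContDiff ℝ ∞ X) {U : Set ℂ} (hU : IsOpen U)
    (h0 : ∀ x ∈ U, fderiv ℝ X x = 0) (t : ℝ) {E : Set ℂ} (hE : E ⊆ U) :
    (μH[1] : Measure ℂ) ((fun x => x + t • X x) '' E) ≤ (μH[1] : Measure ℂ) E := by
  classical
  have hch : ∀ x : ℂ, ∃ r : ℝ, x ∈ U → (0 < r ∧ ∀ y ∈ ball x r, X y = X x) := by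
    intro x
    by_cases hx : x ∈ U
    · obtain ⟨r, hr, h⟩ := ealen_const hX hU h0 hx
      exact ⟨r, fun _ => ⟨hr, h⟩⟩
    · exact ⟨1, fun h => absurd h hx⟩
  choose r hr using hch
  obtain ⟨T, hTU, hTc, hcov⟩ := TopologicalSpace.countable_cover_nhdsWithin
    (f := fun x => ball x (r x)) (s := U)
    (fun x hx => mem_nhdsWithin_of_mem_nhds (ball_mem_nhds x (hr x hx).1))
  rcases T.eq_empty_or_nonempty with hTe | hTne
  · have hUe : U = ∅ := by
      rw [← subset_empty_iff]
      refine hcov.trans ?_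
      simp [hTe]
    have hEe : E = ∅ := by
      rw [← subset_empty_iff, ← hUe]
      exact hE
    simp [hEe]
  obtain ⟨f, hf⟩ := hTc.exists_eq_range hTne
  set B : ℕ → Set ℂ := fun n => ball (f n) (r (f n)) with hB
  have hfU : ∀ n, f n ∈ U := fun n => hTU (by rw [hf]; exact mem_range_self n)
  have hEB : E ⊆ ⋃ n, disjointed B n := by
    rw [iUnion_disjointed]
    intro x hx
    have h1 := hcov (hE hx)
    rw [hf] at h1
    simpa [hB] using h1
  have hDm : ∀ n, MeasurableSet (disjointed B n) :=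
    fun n => MeasurableSet.disjointed (fun i => measurableSet_ball) n
  have hstep : ∀ n, (μH[1] : Measure ℂ) ((fun x => x + t • X x) '' (E ∩ disjointed B n)) ≤
      ((μH[1] : Measure ℂ).restrict E) (disjointed B n) := by
    intro n
    rw [Measure.restrict_apply (hDm n), inter_comm (disjointed B n) E]
    have hL : LipschitzOnWith 1 (fun x => x + t • X x) (E ∩ disjointed B n) := by
      apply LipschitzOnWith.of_dist_le_mul
      intro x hx y hy
      have hx' : x ∈ B n := disjointed_subset B n hx.2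
      have hy' : y ∈ B n := disjointed_subset B n hy.2
      have h1 := (hr (f n) (hfU n)).2 x hx'
      have h2 := (hr (f n) (hfU n)).2 y hy'
      simp [h1, h2]
    have := hL.hausdorffMeasure_image_le (d := 1) zero_le_one
    simpa using this
  calc (μH[1] : Measure ℂ) ((fun x => x + t • X x) '' E)
      ≤ (μH[1] : Measure ℂ) (⋃ n, (fun x => x + t • X x) '' (E ∩ disjointed B n)) := by
        apply measure_mono
        rintro _ ⟨x, hx, rfl⟩
        obtain ⟨n, hn⟩ := mem_iUnion.mp (hEB hx)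
        exact mem_iUnion.mpr ⟨n, x, ⟨hx, hn⟩, rfl⟩
    _ ≤ ∑' n, (μH[1] : Measure ℂ) ((fun x => x + t • X x) '' (E ∩ disjointed B n)) :=
        measure_iUnion_le _
    _ ≤ ∑' n, ((μH[1] : Measure ℂ).restrict E) (disjointed B n) := ENNReal.tsum_le_tsum hstep
    _ = ((μH[1] : Measure ℂ).restrict E) (⋃ n, disjointed B n) :=
        (measure_iUnion (disjoint_disjointed B) hDm).symm
    _ ≤ ((μH[1] : Measure ℂ).restrict E) univ := measure_mono (subset_univ _)
    _ = (μH[1] : Measure ℂ) E := Measure.restrict_apply_univ E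

end Pool.Agent.MP099f24
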