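import Mathlib
import Pool.Agent.Lib.MP_099f24_an.SD.Defs
import Pool.Agent.Lib.MP_099f24_an.SD.Outer
import Pool.Agent.Lib.MP_099f24_an.EA.Defs

/-!
# The data of `u + t (α + η κ(u))`
-/

set_option autoImplicit false

namespace Pool.Agent.MP099f24

open MeasureTheory Filter Topology Set Metric
open scoped ENNReal ContDiff

/-- One truncated outer variation as `SBVData`. -/
theorem easbv2_step {Ω : Set ℂ} {u : ℂ → ℝ} {g j : ℂ → ℂ} (h : SBVData Ω u g j) {ψ : ℂ → ℝ}
    (hψ : ContDiff ℝ ∞ ψ) {κ : ℝ → ℝ} (hκ : ContDiff ℝ ∞ κ) {M P P' : ℝ}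
    (hM : ∀ s, |κ s| ≤ M ∧ |deriv κ s| ≤ M) (hP : ∀ x, |ψ x| ≤ P)
    (hP' : ∀ x, ‖fderiv ℝ ψ x‖ ≤ P') {t : ℝ} (ht : |t| * P * M ≤ 1 / 2) :
    (∃ j', SBVData Ω (fun y => u y + t * (ψ y * κ (u y)))
      (fun x => g x + t • outer_xi u ψ g κ x) j') ∧
    discSet Ω (fun y => u y + t * (ψ y * κ (u y))) = discSet Ω u := by
  have hd := outer_disc h.isOpen h.intu h.meas_u hψ.continuous hκ hM hP ht
  refine ⟨?_, hd⟩
  obtain ⟨hw, hgi, j', hj, hji, hform⟩ := outer_sbv h hψ hκ hM hP hP' ht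
  have hξm : Measurable (outer_xi u ψ g κ) := outer_meas_xi h.meas_u h.meas_g hψ hκ
  refine ⟨j', ?_⟩
  exact {
    isOpen := h.isOpen
    meas_u := h.meas_u.add (measurable_const.mul
      (hψ.continuous.measurable.mul (hκ.continuous.measurable.comp h.meas_u)))
    meas_g := h.meas_g.add (hξm.const_smul t)
    intu := hw
    intg := hgi
    jf := hj
    intj := hji
    form := hform
    fin_g := by
      intro K hK hKs
      have hg2 := h.fin_g K hK hKs
      have hKfin : volume K ≠ ⊤ := hK.measure_lt_top.ne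
      have hP0 : 0 ≤ P := (abs_nonneg _).trans (hP 0)
      have hM0 := outer_M hM
      have hP'0 : 0 ≤ P' := (norm_nonneg _).trans (hP' 0)
      refine Integrable.mono' (g := fun x => 2 * (1 + |t| * (P * M)) ^ 2 * ‖g x‖ ^ 2 +
        2 * (|t| * (M * P')) ^ 2) ?_
        ((h.meas_g.add (hξm.const_smul t)).norm.pow_const 2).aestronglyMeasurable
        (Eventually.of_forall fun x => ?_)
      · exact (Integrable.const_mul hg2 _).add (integrableOn_const hKfin)
      · rw [Real.norm_eq_abs, abs_of_nonneg (by positivity)]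
        have h1 : ‖g x + t • outer_xi u ψ g κ x‖ ≤
            (1 + |t| * (P * M)) * ‖g x‖ + |t| * (M * P') := by
          calc ‖g x + t • outer_xi u ψ g κ x‖ ≤ ‖g x‖ + ‖t • outer_xi u ψ g κ x‖ :=
                norm_add_le _ _
            _ ≤ ‖g x‖ + |t| * (P * M * ‖g x‖ + M * P') := by
                rw [norm_smul, Real.norm_eq_abs]
                gcongr
                exact outer_norm_xi hM hP hP' x
            _ = (1 + |t| * (P * M)) * ‖g x‖ + |t| * (M * P') := by ring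
        have h2 := norm_nonneg (g x + t • outer_xi u ψ g κ x)
        have h3 : ‖g x + t • outer_xi u ψ g κ x‖ ^ 2 ≤
            ((1 + |t| * (P * M)) * ‖g x‖ + |t| * (M * P')) ^ 2 :=
          pow_le_pow_left₀ h2 h1 2
        nlinarith [sq_nonneg ((1 + |t| * (P * M)) * ‖g x‖ - |t| * (M * P'))]
    fin_S := by
      intro K hK hKs
      rw [hd]
      exact h.fin_S K hK hKs }

theorem ea_sbv2 {Ω : Set ℂ} {u : ℂ → ℝ} {g j : ℂ → ℂ} (h : SBVData Ω u g j) {α η : ℂ → ℝ}
    (hα : ContDiff ℝ ∞ α) (hαc : HasCompactSupport α) (hη : ContDiff ℝ ∞ η)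
    (hηc : HasCompactSupport η) {κ : ℝ → ℝ} (hκ : ContDiff ℝ ∞ κ) {M : ℝ}
    (hM : ∀ s, |κ s| ≤ M ∧ |deriv κ s| ≤ M) :
    ∃ t₀ > 0, ∀ t : ℝ, |t| ≤ t₀ →
      (∃ j', SBVData Ω (fun y => u y + t * (α y + η y * κ (u y)))
        (fun x => g x + t • tgrad u g α η κ x) j') ∧
      discSet Ω (fun y => u y + t * (α y + η y * κ (u y))) = discSet Ω u := by
  have hM0 := outer_M hM
  obtain ⟨P₁, hP₁⟩ := hηc.exists_bound_of_continuous hη.continuous
  obtain ⟨P₂, hP₂⟩ := hαc.exists_bound_of_continuous hα.continuous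
  obtain ⟨P₁', hP₁'⟩ := (hηc.fderiv (𝕜 := ℝ)).exists_bound_of_continuous
    (hη.continuous_fderiv (by simp))
  obtain ⟨P₂', hP₂'⟩ := (hαc.fderiv (𝕜 := ℝ)).exists_bound_of_continuous
    (hα.continuous_fderiv (by simp))
  have hη1 : ∀ x, |η x| ≤ P₁ := fun x => by rw [← Real.norm_eq_abs]; exact hP₁ x
  have hα1 : ∀ x, |α x| ≤ P₂ := fun x => by rw [← Real.norm_eq_abs]; exact hP₂ x
  have hP10 : 0 ≤ P₁ := (abs_nonneg _).trans (hη1 0)
  have hP20 : 0 ≤ P₂ := (abs_nonneg _).trans (hα1 0)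
  have hden : 0 < 2 * (P₁ * M + P₂ + 1) := by positivity
  refine ⟨1 / (2 * (P₁ * M + P₂ + 1)), by positivity, fun t ht => ?_⟩
  rw [le_div_iff₀ hden] at ht
  have hPM : 0 ≤ P₁ * M := mul_nonneg hP10 hM0
  have ht1 : |t| * P₁ * M ≤ 1 / 2 := by
    have h2 : |t| * (P₁ * M) ≤ |t| * (P₁ * M + P₂ + 1) :=
      mul_le_mul_of_nonneg_left (by linarith) (abs_nonneg t)
    linarith
  have ht2 : |t| * P₂ * 1 ≤ 1 / 2 := by
    have h2 : |t| * P₂ ≤ |t| * (P₁ * M + P₂ + 1) :=
      mul_le_mul_of_nonneg_left (by linarith) (abs_nonneg t)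
    linarith
  obtain ⟨⟨j1, h1⟩, hd1⟩ := easbv2_step h hη hκ hM hη1 hP₁' ht1
  obtain ⟨⟨j2, h2⟩, hd2⟩ := easbv2_step h1 hα (κ := fun _ => 1) contDiff_const (M := 1)
    (fun s => by simp) hα1 hP₂' ht2
  have e1 : (fun y => (fun y => u y + t * (η y * κ (u y))) y + t * (α y *
      (fun _ => (1 : ℝ)) ((fun y => u y + t * (η y * κ (u y))) y))) =
      fun y => u y + t * (α y + η y * κ (u y)) := by
    funext y
    ring
  have e2 : (fun x => (fun x => g x + t • outer_xi u η g κ x) x + t •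
      outer_xi (fun y => u y + t * (η y * κ (u y))) α (fun x => g x + t • outer_xi u η g κ x)
        (fun _ => (1 : ℝ)) x) = fun x => g x + t • tgrad u g α η κ x := by
    funext x
    have e3 : outer_xi (fun y => u y + t * (η y * κ (u y))) α
        (fun x => g x + t • outer_xi u η g κ x) (fun _ => (1 : ℝ)) x = outer_grad α x := by
      unfold outer_xi
      simp
    simp only
    rw [e3]
    unfold tgrad
    rw [smul_add]
    ring
  rw [e1, e2] at h2
  rw [e1] at hd2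
  exact ⟨⟨j2, h2⟩, hd2.trans hd1⟩

end Pool.Agent.MP099f24
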