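import Mathlib
import Pool.Agent.Lib.MP_099f24_an.EA.Defs
import Pool.Agent.Lib.MP_099f24_an.EA.Alg
import Pool.Agent.Lib.MP_099f24_an.EA.Len
import Pool.Agent.Lib.MP_099f24_an.EA.Sbv2
import Pool.Agent.Lib.MP_099f24_an.SD.Fvar

/-!
# The second variation inequality
-/

namespace Pool.Agent.MP099f24

open MeasureTheory Filter Topology Set Metric
open scoped ENNReal ContDiff

/-- the first order term -/
noncomputable def easec_A1 (X g q : ℂ → ℂ) (x : ℂ) : ℝ :=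
  2 * inner ℝ (g x) (q x) +
    (‖g x‖ ^ 2 * ((fderiv ℝ X x 1).re + (fderiv ℝ X x Complex.I).im) -
      2 * inner ℝ (fderiv ℝ X x (g x)) (g x))

/-- the second order term -/
noncomputable def easec_A2 (X g q : ℂ → ℂ) (x : ℂ) : ℝ :=
  ‖q x‖ ^ 2 + 2 * inner ℝ (SB (fderiv ℝ X x) (g x)) (q x) + QB (fderiv ℝ X x) (g x)

/-- the pointwise expansion -/
lemma easec_point {B : ℂ →L[ℝ] ℂ} {M t : ℝ} (hB : ‖B‖ ≤ M) (hM1 : 1 ≤ M) (ht : 0 < t)
    (ht1 : t ≤ 1) (htM : t * M ≤ 1 / 4) (g q : ℂ) :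
    ‖(ContinuousLinearMap.id ℝ ℂ + t • B) (Complex.I * (g + t • q))‖ ^ 2 /
      (ContinuousLinearMap.id ℝ ℂ + t • B).det ≤
      ‖g‖ ^ 2 + t * (2 * inner ℝ g q + (‖g‖ ^ 2 * ((B 1).re + (B Complex.I).im) -
        2 * inner ℝ (B g) g)) + t ^ 2 * (‖q‖ ^ 2 + 2 * inner ℝ (SB B g) q + QB B g) +
        t ^ 3 * (138 * M ^ 3 * (‖g‖ ^ 2 + ‖q‖ ^ 2)) := by
  have hM0 : 0 ≤ M := by linarith
  have h1 := ea_expand hB ht.le htM (g + t • q)
  have h2 := lb_add B g q t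
  have h3 := (abs_le.1 (qb_add hB g q t)).2
  rw [abs_of_pos ht] at h3
  have h4 : ‖g + t • q‖ ^ 2 = ‖g‖ ^ 2 + 2 * t * inner ℝ g q + t ^ 2 * ‖q‖ ^ 2 := by
    rw [norm_add_sq_real, real_inner_smul_right, norm_smul, mul_pow, Real.norm_eq_abs, sq_abs]
    ring
  obtain ⟨e1, -, -, e4⟩ := fvar_entries hB
  have hTM : (B 1).re + (B Complex.I).im ≤ 2 * M := by
    have := (abs_le.1 e1).2
    have := (abs_le.1 e4).2
    linarith
  have hqM : |inner ℝ (B q) q| ≤ M * ‖q‖ ^ 2 := by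
    calc |inner ℝ (B q) q| ≤ ‖B q‖ * ‖q‖ := abs_real_inner_le_norm _ _
      _ ≤ (‖B‖ * ‖q‖) * ‖q‖ := by gcongr; exact B.le_opNorm q
      _ ≤ (M * ‖q‖) * ‖q‖ := by gcongr
      _ = M * ‖q‖ ^ 2 := by ring
  have hL : ‖q‖ ^ 2 * ((B 1).re + (B Complex.I).im) - 2 * inner ℝ (B q) q ≤ 4 * M * ‖q‖ ^ 2 := by
    have h5 := (abs_le.1 hqM).1
    have h6 : ‖q‖ ^ 2 * ((B 1).re + (B Complex.I).im) ≤ ‖q‖ ^ 2 * (2 * M) := by gcongr
    linarith
  have h7 : ‖g + t • q‖ ^ 2 ≤ 2 * (‖g‖ ^ 2 + ‖q‖ ^ 2) := by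
    have h8 : ‖g + t • q‖ ≤ ‖g‖ + ‖q‖ := by
      refine (norm_add_le _ _).trans ?_
      rw [norm_smul, Real.norm_eq_abs, abs_of_pos ht]
      have : t * ‖q‖ ≤ 1 * ‖q‖ := by gcongr
      linarith
    calc ‖g + t • q‖ ^ 2 ≤ (‖g‖ + ‖q‖) ^ 2 := by gcongr
      _ ≤ _ := by nlinarith [sq_nonneg (‖g‖ - ‖q‖)]
  set T := (B 1).re + (B Complex.I).im with hT
  set Lg := ‖g‖ ^ 2 * T - 2 * inner ℝ (B g) g with hLg
  set Lq := ‖q‖ ^ 2 * T - 2 * inner ℝ (B q) q with hLq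
  set a := ‖g‖ with ha
  set b := ‖q‖ with hb
  have ha0 : 0 ≤ a := norm_nonneg _
  have hb0 : 0 ≤ b := norm_nonneg _
  have r0 : 0 ≤ t ^ 3 := by positivity
  -- remainder
  have r1 : t ^ 3 * Lq ≤ t ^ 3 * (4 * M * b ^ 2) := by gcongr
  have r2 : t ^ 2 * (3 * M ^ 2 * (2 * t * a * b + t ^ 2 * b ^ 2)) ≤
      t ^ 3 * (3 * M ^ 2 * (a ^ 2 + 2 * b ^ 2)) := by
    have r3 : 2 * t * a * b + t ^ 2 * b ^ 2 ≤ t * (a ^ 2 + 2 * b ^ 2) := by
      have r4 : t ^ 2 * b ^ 2 ≤ t * b ^ 2 := by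
        have : t ^ 2 ≤ t := by nlinarith
        gcongr
      have r5 : t * (2 * a * b) ≤ t * (a ^ 2 + b ^ 2) := by
        have : 2 * a * b ≤ a ^ 2 + b ^ 2 := by nlinarith [sq_nonneg (a - b)]
        gcongr
      nlinarith
    calc _ ≤ t ^ 2 * (3 * M ^ 2 * (t * (a ^ 2 + 2 * b ^ 2))) := by gcongr
      _ = _ := by ring
  have r6 : 64 * M ^ 3 * t ^ 3 * ‖g + t • q‖ ^ 2 ≤ t ^ 3 * (128 * M ^ 3 * (a ^ 2 + b ^ 2)) := by
    calc _ ≤ 64 * M ^ 3 * t ^ 3 * (2 * (a ^ 2 + b ^ 2)) := by gcongr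
      _ = _ := by ring
  have r7 : t ^ 3 * (4 * M * b ^ 2) + t ^ 3 * (3 * M ^ 2 * (a ^ 2 + 2 * b ^ 2)) +
      t ^ 3 * (128 * M ^ 3 * (a ^ 2 + b ^ 2)) ≤ t ^ 3 * (138 * M ^ 3 * (a ^ 2 + b ^ 2)) := by
    rw [← mul_add, ← mul_add]
    refine mul_le_mul_of_nonneg_left ?_ r0
    have m1 : M ≤ M ^ 3 := by
      calc M = M ^ 1 := (pow_one M).symm
        _ ≤ M ^ 3 := pow_le_pow_right₀ hM1 (by norm_num)
    have m2 : M ^ 2 ≤ M ^ 3 := pow_le_pow_right₀ hM1 (by norm_num)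
    have s1 : 4 * M * b ^ 2 ≤ 4 * M ^ 3 * b ^ 2 := by gcongr
    have s2 : 3 * M ^ 2 * (a ^ 2 + 2 * b ^ 2) ≤ 3 * M ^ 3 * (a ^ 2 + 2 * b ^ 2) := by gcongr
    have s3 : 0 ≤ M ^ 3 * a ^ 2 := by positivity
    nlinarith
  have h8 : t * (‖g + t • q‖ ^ 2 * T - 2 * inner ℝ (B (g + t • q)) (g + t • q)) =
      t * Lg + 2 * t ^ 2 * inner ℝ (SB B g) q + t ^ 3 * Lq := by
    rw [h2]
    ring
  have h9 : t ^ 2 * QB B (g + t • q) ≤ t ^ 2 * QB B g +
      t ^ 2 * (3 * M ^ 2 * (2 * t * a * b + t ^ 2 * b ^ 2)) := by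
    rw [← mul_add]
    refine mul_le_mul_of_nonneg_left ?_ (by positivity)
    linarith
  refine h1.trans ?_
  rw [h8]
  have h10 : ‖g + t • q‖ ^ 2 = a ^ 2 + 2 * t * inner ℝ g q + t ^ 2 * b ^ 2 := h4
  nlinarith

/-- change of variables -/
lemma easec_vol {X : ℂ → ℂ} (hX : ContDiff ℝ ∞ X) {M : ℝ}
    (hM : ∀ x, ‖fderiv ℝ X x‖ ≤ M) {t : ℝ} (ht : 0 < t) (htM : t * M ≤ 1 / 4)
    {Ψ : ℂ → ℂ} (hΨ : ContDiff ℝ ∞ Ψ) (h1 : ∀ x, Ψ (x + t • X x) = x) {K : Set ℂ}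
    (hK : MeasurableSet K) (hKK : (fun x => x + t • X x) '' K = K) (p : ℂ → ℂ) (F : ℂ → ℝ)
    (hF : ∀ x, ‖(ContinuousLinearMap.id ℝ ℂ + t • fderiv ℝ X x) (Complex.I * p x)‖ ^ 2 /
      (ContinuousLinearMap.id ℝ ℂ + t • fderiv ℝ X x).det ≤ F x) :
    ∫⁻ y in K, ‖ContinuousLinearMap.adjoint (fderiv ℝ Ψ y) (p (Ψ y))‖ₑ ^ 2 ≤
      ∫⁻ x in K, ENNReal.ofReal (F x) := by
  have hinj : InjOn (fun x => x + t • X x) K := by
    intro x _ y _ hxy
    have := congrArg Ψ hxy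
    simp only [h1] at this
    exact this
  have h2 := lintegral_image_eq_lintegral_abs_det_fderiv_mul volume hK
    (fun x _ => (fvar_hasFDerivAt hX t x).hasFDerivWithinAt) hinj
    (fun y => ‖ContinuousLinearMap.adjoint (fderiv ℝ Ψ y) (p (Ψ y))‖ₑ ^ 2)
  rw [hKK] at h2
  rw [h2]
  refine lintegral_mono fun x => ?_
  simp only [h1]
  have hFx := hF x
  set A := ContinuousLinearMap.id ℝ ℂ + t • fderiv ℝ X x with hA
  have hdet : 1 / 4 ≤ A.det := fvar_det_ge (hM x) ht.le htM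
  have hdet0 : 0 < A.det := by linarith
  have h3 : ∀ z : ℂ, ‖z‖ₑ ^ 2 = ENNReal.ofReal (‖z‖ ^ 2) := by
    intro z
    rw [← ofReal_norm, ENNReal.ofReal_pow (norm_nonneg _)]
  rw [h3, ← ENNReal.ofReal_mul (abs_nonneg _), abs_of_pos hdet0]
  apply ENNReal.ofReal_le_ofReal
  rw [mul_comm, fvar_adj A (fderiv ℝ Ψ (x + t • X x))
    (fun v => fvar_inv_deriv hX hΨ h1 x v) hdet0 (p x)]
  exact hFx

/-! ### integrability -/

lemma easec_meas {u : ℂ → ℝ} {g : ℂ → ℂ} (hu : Measurable u) (hg : Measurable g) {α η : ℂ → ℝ}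
    (hα : ContDiff ℝ ∞ α) (hη : ContDiff ℝ ∞ η) {κ : ℝ → ℝ} (hκ : ContDiff ℝ ∞ κ) :
    Measurable (tgrad u g α η κ) := by
  have h3 : Measurable (outer_grad α) := by
    unfold outer_grad
    exact ((InnerProductSpace.toDual ℝ ℂ).symm.continuous.comp
      (hα.continuous_fderiv (by simp))).measurable
  exact h3.add (outer_meas_xi hu hg hη hκ)

lemma easec_bound {α η : ℂ → ℝ}
    (hα : ContDiff ℝ ∞ α) (hαc : HasCompactSupport α)
    (hη : ContDiff ℝ ∞ η) (hηc : HasCompactSupport η) {κ : ℝ → ℝ}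
    {M : ℝ} (hM : ∀ s, |κ s| ≤ M ∧ |deriv κ s| ≤ M) (u : ℂ → ℝ) (g : ℂ → ℂ) :
    ∃ a b : ℝ, 0 ≤ a ∧ 0 ≤ b ∧ ∀ x, ‖tgrad u g α η κ x‖ ≤ a * ‖g x‖ + b := by
  obtain ⟨P, hP⟩ := hηc.exists_bound_of_continuous hη.continuous
  obtain ⟨P', hP'⟩ := (hηc.fderiv (𝕜 := ℝ)).exists_bound_of_continuous
    (hη.continuous_fderiv (by simp))
  obtain ⟨Q, hQ⟩ := (hαc.fderiv (𝕜 := ℝ)).exists_bound_of_continuous
    (hα.continuous_fderiv (by simp))
  have hM0 := outer_M hM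
  have hP0 : 0 ≤ P := (norm_nonneg _).trans (hP 0)
  have hP'0 : 0 ≤ P' := (norm_nonneg _).trans (hP' 0)
  have hQ0 : 0 ≤ Q := (norm_nonneg _).trans (hQ 0)
  refine ⟨P * M, M * P' + Q, by positivity, by positivity, fun x => ?_⟩
  have h1 := outer_norm_xi (u := u) (g := g) hM (P := P) (P' := P')
    (fun x => by rw [← Real.norm_eq_abs]; exact hP x) hP' x
  have h2 : ‖outer_grad α x‖ ≤ Q := by
    unfold outer_grad
    rw [LinearIsometryEquiv.norm_map]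
    exact hQ x
  unfold tgrad
  refine (norm_add_le _ _).trans ?_
  linarith

lemma easec_int_sq {g q : ℂ → ℂ} (hq : Measurable q) {K : Set ℂ} (hK : IsCompact K)
    (hg2 : IntegrableOn (fun x => ‖g x‖ ^ 2) K) {a b : ℝ}
    (h : ∀ x, ‖q x‖ ≤ a * ‖g x‖ + b) : IntegrableOn (fun x => ‖q x‖ ^ 2) K := by
  refine Integrable.mono' (g := fun x => 2 * a ^ 2 * ‖g x‖ ^ 2 + 2 * b ^ 2) ?_
    (hq.norm.pow_const 2).aestronglyMeasurable (Eventually.of_forall fun x => ?_)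
  · exact (Integrable.const_mul hg2 _).add (integrableOn_const hK.measure_lt_top.ne)
  · rw [Real.norm_eq_abs, abs_of_nonneg (by positivity)]
    have h3 : ‖q x‖ ^ 2 ≤ (a * ‖g x‖ + b) ^ 2 := pow_le_pow_left₀ (norm_nonneg _) (h x) 2
    nlinarith [sq_nonneg (a * ‖g x‖ - b)]

lemma easec_adj_cont {X : ℂ → ℂ} (hX : ContDiff ℝ ∞ X) :
    Continuous fun y => ContinuousLinearMap.adjoint (fderiv ℝ X y) :=
  (ContinuousLinearMap.adjoint (𝕜 := ℝ) (E := ℂ) (F := ℂ)).continuous.comp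
    (hX.continuous_fderiv (by simp))

lemma easec_adj_norm (B : ℂ →L[ℝ] ℂ) : ‖ContinuousLinearMap.adjoint B‖ = ‖B‖ :=
  LinearIsometryEquiv.norm_map _ _

lemma easec_SB_norm {B : ℂ →L[ℝ] ℂ} {M : ℝ} (hB : ‖B‖ ≤ M) (p : ℂ) : ‖SB B p‖ ≤ 4 * M * ‖p‖ := by
  obtain ⟨e1, -, -, e4⟩ := fvar_entries hB
  have hT : |(B 1).re + (B Complex.I).im| ≤ 2 * M := by
    refine (abs_add_le _ _).trans ?_
    linarith
  have h1 : ‖B p‖ ≤ M * ‖p‖ := (B.le_opNorm p).trans (by gcongr)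
  have h2 : ‖ContinuousLinearMap.adjoint B p‖ ≤ M * ‖p‖ := by
    refine ((ContinuousLinearMap.adjoint B).le_opNorm p).trans ?_
    rw [easec_adj_norm]
    gcongr
  unfold SB
  refine (norm_sub_le _ _).trans ?_
  have h3 := norm_sub_le (((B 1).re + (B Complex.I).im) • p) (B p)
  have h4 : ‖((B 1).re + (B Complex.I).im) • p‖ ≤ 2 * M * ‖p‖ := by
    rw [norm_smul, Real.norm_eq_abs]
    gcongr
  linarith

lemma easec_SB_aesm {X : ℂ → ℂ} (hX : ContDiff ℝ ∞ X) {g : ℂ → ℂ} (hg : Measurable g)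
    (μ : Measure ℂ) : AEStronglyMeasurable (fun x => SB (fderiv ℝ X x) (g x)) μ := by
  have h1 := (fvar_continuous_dv hX).measurable.smul hg
  have h2 := piola_aesm (μ := μ) (hX.continuous_fderiv (by simp)) hg.aestronglyMeasurable
  have h3 := piola_aesm (μ := μ) (easec_adj_cont hX) hg.aestronglyMeasurable
  exact (h1.aestronglyMeasurable.sub h2).sub h3

lemma easec_QB_aesm {X : ℂ → ℂ} (hX : ContDiff ℝ ∞ X) {g : ℂ → ℂ} (hg : Measurable g)
    (μ : Measure ℂ) : AEStronglyMeasurable (fun x => QB (fderiv ℝ X x) (g x)) μ := by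
  have h3 := piola_aesm (μ := μ) (easec_adj_cont hX) hg.aestronglyMeasurable
  have h4 : Continuous fun x => (fderiv ℝ X x).det :=
    ContinuousLinearMap.continuous_det.comp (hX.continuous_fderiv (by simp))
  exact (h3.norm.pow 2).sub (h4.aestronglyMeasurable.mul (hg.norm.pow_const 2).aestronglyMeasurable)

lemma easec_int_QB {X : ℂ → ℂ} (hX : ContDiff ℝ ∞ X) {M : ℝ} (hM : ∀ x, ‖fderiv ℝ X x‖ ≤ M)
    {g : ℂ → ℂ} (hg : Measurable g) {K : Set ℂ} (hg2 : IntegrableOn (fun x => ‖g x‖ ^ 2) K) :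
    IntegrableOn (fun x => QB (fderiv ℝ X x) (g x)) K := by
  refine Integrable.mono' (g := fun x => 3 * M ^ 2 * ‖g x‖ ^ 2) (Integrable.const_mul hg2 _)
    (easec_QB_aesm hX hg _) (Eventually.of_forall fun x => ?_)
  rw [Real.norm_eq_abs]
  exact qb_bound (hM x) (g x)

lemma easec_int_SB {X : ℂ → ℂ} (hX : ContDiff ℝ ∞ X) {M : ℝ} (hM : ∀ x, ‖fderiv ℝ X x‖ ≤ M)
    {g q : ℂ → ℂ} (hg : Measurable g) (hq : Measurable q) {K : Set ℂ}
    (hg2 : IntegrableOn (fun x => ‖g x‖ ^ 2) K) (hq2 : IntegrableOn (fun x => ‖q x‖ ^ 2) K) :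
    IntegrableOn (fun x => inner ℝ (SB (fderiv ℝ X x) (g x)) (q x)) K := by
  have hM0 : 0 ≤ M := (norm_nonneg _).trans (hM 0)
  refine Integrable.mono' (g := fun x => 4 * M * (‖g x‖ ^ 2 + ‖q x‖ ^ 2))
    (Integrable.const_mul (Integrable.add hg2 hq2) _)
    ((easec_SB_aesm hX hg _).inner hq.aestronglyMeasurable) (Eventually.of_forall fun x => ?_)
  refine (norm_inner_le_norm _ _).trans ?_
  calc ‖SB (fderiv ℝ X x) (g x)‖ * ‖q x‖ ≤ (4 * M * ‖g x‖) * ‖q x‖ := by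
        gcongr
        exact easec_SB_norm (hM x) _
    _ = 4 * M * (‖g x‖ * ‖q x‖) := by ring
    _ ≤ 4 * M * (‖g x‖ ^ 2 + ‖q x‖ ^ 2) := by
      gcongr
      nlinarith [sq_nonneg (‖g x‖ - ‖q x‖), sq_nonneg ‖g x‖, sq_nonneg ‖q x‖]

lemma easec_int_A1 {X : ℂ → ℂ} (hX : ContDiff ℝ ∞ X) {M : ℝ} (hM : ∀ x, ‖fderiv ℝ X x‖ ≤ M)
    {g q : ℂ → ℂ} (hg : Measurable g) (hq : Measurable q) {K : Set ℂ}
    (hg2 : IntegrableOn (fun x => ‖g x‖ ^ 2) K) (hq2 : IntegrableOn (fun x => ‖q x‖ ^ 2) K) :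
    IntegrableOn (easec_A1 X g q) K := by
  have hM0 : 0 ≤ M := (norm_nonneg _).trans (hM 0)
  have hmeasB : Measurable (fun x => inner ℝ (fderiv ℝ X x (g x)) (g x)) :=
    fvar_measurable_inner hX hg hg
  have hint1 : IntegrableOn
      (fun x => ‖g x‖ ^ 2 * dv X x - 2 * inner ℝ (fderiv ℝ X x (g x)) (g x)) K := by
    refine Integrable.mono' (Integrable.const_mul hg2 (4 * M)) ?_ ?_
    · exact (((hg.norm.pow_const 2).mul (fvar_continuous_dv hX).measurable).sub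
        (hmeasB.const_mul 2)).aestronglyMeasurable
    · refine Eventually.of_forall fun x => ?_
      rw [Real.norm_eq_abs]
      have h1 := fvar_dv_bound hM x
      have h2 : |inner ℝ (fderiv ℝ X x (g x)) (g x)| ≤ M * ‖g x‖ ^ 2 := by
        calc _ ≤ ‖fderiv ℝ X x (g x)‖ * ‖g x‖ := abs_real_inner_le_norm _ _
          _ ≤ (‖fderiv ℝ X x‖ * ‖g x‖) * ‖g x‖ := by
            gcongr; exact ContinuousLinearMap.le_opNorm _ _
          _ ≤ (M * ‖g x‖) * ‖g x‖ := by gcongr; exact hM x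
          _ = _ := by ring
      calc _ ≤ |‖g x‖ ^ 2 * dv X x| + |2 * inner ℝ (fderiv ℝ X x (g x)) (g x)| := abs_sub _ _
        _ = ‖g x‖ ^ 2 * |dv X x| + 2 * |inner ℝ (fderiv ℝ X x (g x)) (g x)| := by
          rw [abs_mul, abs_mul, abs_of_nonneg (by positivity : 0 ≤ ‖g x‖ ^ 2), abs_two]
        _ ≤ ‖g x‖ ^ 2 * (2 * M) + 2 * (M * ‖g x‖ ^ 2) := by gcongr
        _ = _ := by ring
  have hint2 : IntegrableOn (fun x => inner ℝ (g x) (q x)) K := by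
    refine Integrable.mono' (g := fun x => ‖g x‖ ^ 2 + ‖q x‖ ^ 2) (Integrable.add hg2 hq2)
      (hg.inner hq).aestronglyMeasurable (Eventually.of_forall fun x => ?_)
    refine (norm_inner_le_norm _ _).trans ?_
    nlinarith [sq_nonneg (‖g x‖ - ‖q x‖), sq_nonneg ‖g x‖, sq_nonneg ‖q x‖]
  exact (Integrable.const_mul hint2 2).add hint1

lemma easec_int_A2 {X : ℂ → ℂ} (hX : ContDiff ℝ ∞ X) {M : ℝ} (hM : ∀ x, ‖fderiv ℝ X x‖ ≤ M)
    {g q : ℂ → ℂ} (hg : Measurable g) (hq : Measurable q) {K : Set ℂ}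
    (hg2 : IntegrableOn (fun x => ‖g x‖ ^ 2) K) (hq2 : IntegrableOn (fun x => ‖q x‖ ^ 2) K) :
    IntegrableOn (easec_A2 X g q) K :=
  (Integrable.add hq2 (Integrable.const_mul (easec_int_SB hX hM hg hq hg2 hq2) 2)).add
    (easec_int_QB hX hM hg hg2)

/-! ### the one-sided inequality -/

theorem easec_one {Ω : Set ℂ} {u : ℂ → ℝ} {g j : ℂ → ℂ} (h : MSMin Ω u g j) {X : ℂ → ℂ}
    (hX : ContDiff ℝ ∞ X) (hXc : HasCompactSupport X) {U : Set ℂ}
    (hU : IsOpen U) (hSU : discSet Ω u ⊆ U) (h0 : ∀ x ∈ U, fderiv ℝ X x = 0) {α η : ℂ → ℝ}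
    (hα : ContDiff ℝ ∞ α) (hαc : HasCompactSupport α)
    (hη : ContDiff ℝ ∞ η) (hηc : HasCompactSupport η) {κ : ℝ → ℝ}
    (hκ : ContDiff ℝ ∞ κ) {M : ℝ} (hM : ∀ s, |κ s| ≤ M ∧ |deriv κ s| ≤ M)
    {K : Set ℂ} (hK : IsCompact K) (hKΩ : K ⊆ Ω) (hXK : tsupport X ⊆ K) (hαK : tsupport α ⊆ K)
    (hηK : tsupport η ⊆ K) :
    ∃ t₁ > 0, ∃ C : ℝ, ∀ t : ℝ, 0 < t → t ≤ t₁ →
      0 ≤ t * (∫ x in K, easec_A1 X g (tgrad u g α η κ) x) +
        t ^ 2 * (∫ x in K, easec_A2 X g (tgrad u g α η κ) x) + t ^ 3 * C := by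
  obtain ⟨N, hN1, hN⟩ := fvar_bound hX hXc
  have hN0 : 0 < N := by linarith
  obtain ⟨t₀, ht₀, hsbv⟩ := ea_sbv2 h.toSBVData hα hαc hη hηc hκ hM
  obtain ⟨a, b, -, -, hqb⟩ := easec_bound hα hαc hη hηc hM u g
  have hqm : Measurable (tgrad u g α η κ) := easec_meas h.meas_u h.meas_g hα hη hκ
  have hg2 : IntegrableOn (fun x => ‖g x‖ ^ 2) K := h.fin_g K hK hKΩ
  have hq2 := easec_int_sq hqm hK hg2 hqb
  set q := tgrad u g α η κ with hq
  have hA1 := easec_int_A1 hX hN h.meas_g hqm hg2 hq2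
  have hA2 := easec_int_A2 hX hN h.meas_g hqm hg2 hq2
  have hR : IntegrableOn (fun x => 138 * N ^ 3 * (‖g x‖ ^ 2 + ‖q x‖ ^ 2)) K :=
    Integrable.const_mul (Integrable.add hg2 hq2) _
  set C := ∫ x in K, 138 * N ^ 3 * (‖g x‖ ^ 2 + ‖q x‖ ^ 2) with hC
  refine ⟨min t₀ (1 / (4 * N)), lt_min ht₀ (by positivity), C, fun t ht ht1 => ?_⟩
  have htt₀ : t ≤ t₀ := ht1.trans (min_le_left _ _)
  have htN : t * N ≤ 1 / 4 := by
    have h1 : t ≤ 1 / (4 * N) := ht1.trans (min_le_right _ _)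
    calc t * N ≤ 1 / (4 * N) * N := by gcongr
      _ = 1 / 4 := by field_simp
  have ht1' : t ≤ 1 := by nlinarith
  obtain ⟨⟨j', hdat⟩, hdisc⟩ := hsbv t (by rw [abs_of_pos ht]; exact htt₀)
  obtain ⟨Ψ, hΨ, h1, h2⟩ := fvar_diffeo hX hN1 hN ht htN
  have hΦ : ContDiff ℝ ∞ (fun x => x + t • X x) := contDiff_id.add (hX.const_smul t)
  have hid : ∀ x, x ∉ K → x + t • X x = x := by
    intro x hx
    rw [image_eq_zero_of_notMem_tsupport (fun hx' => hx (hXK hx')), smul_zero, add_zero]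
  have hmem : ∀ x, x ∈ K → x + t • X x ∈ K := by
    intro x hx
    by_contra hcon
    have h3 := hid _ hcon
    have h4 := congrArg Ψ h3
    rw [h1, h1] at h4
    rw [h4] at hcon
    exact hcon hx
  have hmem' : ∀ x, x + t • X x ∈ K → x ∈ K := by
    intro x hx
    by_contra hcon
    rw [hid x hcon] at hx
    exact hcon hx
  have hKK : (fun x => x + t • X x) '' K = K := by
    apply Subset.antisymm
    · rintro _ ⟨x, hx, rfl⟩
      exact hmem x hx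
    · intro y hy
      exact ⟨Ψ y, hmem' _ (by rw [h2]; exact hy), h2 y⟩
  have hdet : ∀ x, 0 < (fderiv ℝ (fun x => x + t • X x) x).det := by
    intro x
    rw [(fvar_hasFDerivAt hX t x).fderiv]
    have := fvar_det_ge (hN x) ht.le htN
    linarith
  obtain ⟨hw1, hw2, hw3⟩ := sbv_comp hdat hΦ hΨ h1 h2 hK hKΩ hid hdet
  have hmin := h.min _ _ K hw1 hw2 hK hKΩ (by
    intro x _ hxK
    have h3 := h1 x
    rw [hid x hxK] at h3
    simp only [h3]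
    have h4 : α x = 0 := image_eq_zero_of_notMem_tsupport (fun hx' => hxK (hαK hx'))
    have h5 : η x = 0 := image_eq_zero_of_notMem_tsupport (fun hx' => hxK (hηK hx'))
    rw [h4, h5]
    ring)
  rw [hw3, hdisc] at hmin
  -- the length term
  have hlen : (μH[1] : Measure ℂ) ((fun x => x + t • X x) '' discSet Ω u ∩ K) ≤
      (μH[1] : Measure ℂ) (discSet Ω u ∩ K) := by
    refine le_trans (measure_mono ?_) (ea_len hX hU h0 t (inter_subset_left.trans hSU))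
    rintro y ⟨⟨x, hxS, rfl⟩, hyK⟩
    exact ⟨x, ⟨hxS, hmem' x hyK⟩, rfl⟩
  have hfin : (μH[1] : Measure ℂ) (discSet Ω u ∩ K) < ⊤ := h.fin_S K hK hKΩ
  have hE : ∫⁻ x in K, ‖g x‖ₑ ^ 2 ≤ ∫⁻ y in K, ‖ContinuousLinearMap.adjoint (fderiv ℝ Ψ y)
      ((fun x => g x + t • q x) (Ψ y))‖ₑ ^ 2 :=
    (ENNReal.add_le_add_iff_right hfin.ne).1 (hmin.trans (add_le_add le_rfl hlen))
  -- the volume term
  set F : ℂ → ℝ := fun x => ‖g x‖ ^ 2 + t * easec_A1 X g q x + t ^ 2 * easec_A2 X g q x +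
    t ^ 3 * (138 * N ^ 3 * (‖g x‖ ^ 2 + ‖q x‖ ^ 2)) with hF
  have hpt : ∀ x, ‖(ContinuousLinearMap.id ℝ ℂ + t • fderiv ℝ X x)
      (Complex.I * (fun x => g x + t • q x) x)‖ ^ 2 /
      (ContinuousLinearMap.id ℝ ℂ + t • fderiv ℝ X x).det ≤ F x := by
    intro x
    exact easec_point (hN x) hN1 ht ht1' htN (g x) (q x)
  have hvol := easec_vol hX hN ht htN hΨ h1 hK.measurableSet hKK _ F hpt
  have hF0 : ∀ x, 0 ≤ F x := by
    intro x
    refine le_trans ?_ (hpt x)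
    have h4 := fvar_det_ge (hN x) ht.le htN
    positivity
  have i1 : IntegrableOn (fun x => ‖g x‖ ^ 2 + t * easec_A1 X g q x) K :=
    Integrable.add hg2 (Integrable.const_mul hA1 t)
  have i2 : IntegrableOn (fun x => ‖g x‖ ^ 2 + t * easec_A1 X g q x + t ^ 2 * easec_A2 X g q x)
      K := Integrable.add i1 (Integrable.const_mul hA2 _)
  have i3 : IntegrableOn F K := Integrable.add i2 (Integrable.const_mul hR _)
  have hG : ∫⁻ x in K, ‖g x‖ₑ ^ 2 = ENNReal.ofReal (∫ x in K, ‖g x‖ ^ 2) := by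
    rw [ofReal_integral_eq_lintegral_ofReal hg2
      (Eventually.of_forall fun x => by positivity)]
    refine lintegral_congr fun x => ?_
    rw [← ofReal_norm, ENNReal.ofReal_pow (norm_nonneg _)]
  have hFi : ∫⁻ x in K, ENNReal.ofReal (F x) = ENNReal.ofReal (∫ x in K, F x) :=
    (ofReal_integral_eq_lintegral_ofReal i3 (Eventually.of_forall hF0)).symm
  have hfinal := hE.trans hvol
  rw [hG, hFi, ENNReal.ofReal_le_ofReal_iff (integral_nonneg hF0)] at hfinal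
  have hsum : ∫ x in K, F x = (∫ x in K, ‖g x‖ ^ 2) + t * (∫ x in K, easec_A1 X g q x) +
      t ^ 2 * (∫ x in K, easec_A2 X g q x) + t ^ 3 * C := by
    rw [hF, hC, ← integral_const_mul, ← integral_const_mul, ← integral_const_mul,
      ← integral_add hg2 (Integrable.const_mul hA1 t),
      ← integral_add i1 (Integrable.const_mul hA2 _),
      ← integral_add i2 (Integrable.const_mul hR _)]
  rw [hsum] at hfinal
  linarith

/-! ### the theorem -/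

lemma easec_limit {a b c d t₁ : ℝ} (ht₁ : 0 < t₁)
    (h1 : ∀ t : ℝ, 0 < t → t ≤ t₁ → 0 ≤ t * a + t ^ 2 * b + t ^ 3 * c)
    (h2 : ∀ t : ℝ, 0 < t → t ≤ t₁ → 0 ≤ t * (-a) + t ^ 2 * b + t ^ 3 * d) : 0 ≤ b := by
  by_contra hneg
  push Not at hneg
  set τ := min t₁ (-b / (|c + d| + 1)) with hτ
  have hτ0 : 0 < τ := lt_min ht₁ (div_pos (by linarith) (by positivity))
  have e1 := h1 τ hτ0 (min_le_left _ _)
  have e2 := h2 τ hτ0 (min_le_left _ _)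
  have e3 : 0 ≤ τ ^ 2 * (2 * b + τ * (c + d)) := by nlinarith
  have e4 : 0 ≤ 2 * b + τ * (c + d) := nonneg_of_mul_nonneg_right e3 (by positivity)
  have e5 : τ * (|c + d| + 1) ≤ -b := by
    rw [← le_div_iff₀ (by positivity)]
    exact min_le_right _ _
  have e6 : τ * (c + d) ≤ τ * (|c + d| + 1) :=
    mul_le_mul_of_nonneg_left ((le_abs_self _).trans (by linarith)) hτ0.le
  linarith

lemma easec_tgrad_neg (u : ℂ → ℝ) (g : ℂ → ℂ) (α η : ℂ → ℝ) (κ : ℝ → ℝ) (x : ℂ) :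
    tgrad u g (fun y => -α y) (fun y => -η y) κ x = -tgrad u g α η κ x := by
  have h1 : ∀ β : ℂ → ℝ, outer_grad (fun y => -β y) x = -outer_grad β x := by
    intro β
    unfold outer_grad
    rw [fderiv_fun_neg, map_neg]
  unfold tgrad outer_xi
  rw [h1, h1]
  simp only [neg_mul, neg_smul, smul_neg]
  abel

theorem ea_sec {Ω : Set ℂ} {u : ℂ → ℝ} {g j : ℂ → ℂ} (h : MSMin Ω u g j) {X : ℂ → ℂ}
    (hX : ContDiff ℝ ∞ X) (hXc : HasCompactSupport X) (hXs : tsupport X ⊆ Ω) {U : Set ℂ}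
    (hU : IsOpen U) (hSU : discSet Ω u ⊆ U) (h0 : ∀ x ∈ U, fderiv ℝ X x = 0) {α η : ℂ → ℝ}
    (hα : ContDiff ℝ ∞ α) (hαc : HasCompactSupport α) (hαs : tsupport α ⊆ Ω)
    (hη : ContDiff ℝ ∞ η) (hηc : HasCompactSupport η) (hηs : tsupport η ⊆ Ω) {κ : ℝ → ℝ}
    (hκ : ContDiff ℝ ∞ κ) {M : ℝ} (hM : ∀ s, |κ s| ≤ M ∧ |deriv κ s| ≤ M) :
    0 ≤ (∫ x in Ω, QB (fderiv ℝ X x) (g x)) +
      2 * (∫ x in Ω, inner ℝ (SB (fderiv ℝ X x) (g x)) (tgrad u g α η κ x)) +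
      ∫ x in Ω, ‖tgrad u g α η κ x‖ ^ 2 := by
  set K : Set ℂ := tsupport X ∪ (tsupport α ∪ tsupport η) with hKdef
  have hK : IsCompact K := IsCompact.union hXc (IsCompact.union hαc hηc)
  have hKΩ : K ⊆ Ω := union_subset hXs (union_subset hαs hηs)
  have hXK : tsupport X ⊆ K := subset_union_left
  have hαK : tsupport α ⊆ K := subset_union_left.trans subset_union_right
  have hηK : tsupport η ⊆ K := subset_union_right.trans subset_union_right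
  obtain ⟨t₁, ht₁, C, hone⟩ := easec_one h hX hXc hU hSU h0 hα hαc hη hηc hκ hM hK hKΩ hXK hαK hηK
  have hneg : ∀ x, fderiv ℝ (fun y => -X y) x = -fderiv ℝ X x := fun x => fderiv_fun_neg
  obtain ⟨t₂, ht₂, D, htwo⟩ := easec_one h (X := fun y => -X y) hX.neg hXc.neg hU hSU
    (fun x hx => by rw [hneg, h0 x hx, neg_zero]) (α := fun y => -α y) (η := fun y => -η y)
    hα.neg hαc.neg hη.neg hηc.neg hκ hM hK hKΩ
    (by rwa [tsupport_fun_neg]) (by rwa [tsupport_fun_neg]) (by rwa [tsupport_fun_neg])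
  have hg2 : IntegrableOn (fun x => ‖g x‖ ^ 2) K := h.fin_g K hK hKΩ
  obtain ⟨a, b, -, -, hqb⟩ := easec_bound hα hαc hη hηc hM u g
  have hqm : Measurable (tgrad u g α η κ) := easec_meas h.meas_u h.meas_g hα hη hκ
  have hq2 := easec_int_sq hqm hK hg2 hqb
  have e1 : ∀ x, easec_A1 (fun y => -X y) g (tgrad u g (fun y => -α y) (fun y => -η y) κ) x =
      -easec_A1 X g (tgrad u g α η κ) x := by
    intro x
    unfold easec_A1
    rw [hneg, easec_tgrad_neg]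
    simp only [_root_.neg_apply, Complex.neg_re, Complex.neg_im, inner_neg_left,
      inner_neg_right]
    ring
  have e2 : ∀ x, easec_A2 (fun y => -X y) g (tgrad u g (fun y => -α y) (fun y => -η y) κ) x =
      easec_A2 X g (tgrad u g α η κ) x := by
    intro x
    unfold easec_A2
    rw [hneg, easec_tgrad_neg, sb_neg, qb_neg, inner_neg_neg, norm_neg]
  simp only [e1, e2, integral_neg] at htwo
  obtain ⟨N, hN1, hN⟩ := fvar_bound hX hXc
  have hb : 0 ≤ ∫ x in K, easec_A2 X g (tgrad u g α η κ) x :=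
    easec_limit (lt_min ht₁ ht₂) (fun t ht ht' => hone t ht (ht'.trans (min_le_left _ _)))
      (fun t ht ht' => htwo t ht (ht'.trans (min_le_right _ _)))
  have hSBi := easec_int_SB hX hN h.meas_g hqm hg2 hq2
  have hQBi := easec_int_QB hX hN h.meas_g hg2
  have hsum : ∫ x in K, easec_A2 X g (tgrad u g α η κ) x =
      (∫ x in K, ‖tgrad u g α η κ x‖ ^ 2) +
      2 * (∫ x in K, inner ℝ (SB (fderiv ℝ X x) (g x)) (tgrad u g α η κ x)) +
      ∫ x in K, QB (fderiv ℝ X x) (g x) := by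
    have hi : IntegrableOn (fun x => ‖tgrad u g α η κ x‖ ^ 2 +
        2 * inner ℝ (SB (fderiv ℝ X x) (g x)) (tgrad u g α η κ x)) K :=
      Integrable.add hq2 (Integrable.const_mul hSBi 2)
    rw [← integral_const_mul, ← integral_add hq2 (Integrable.const_mul hSBi 2),
      ← integral_add hi hQBi]
    rfl
  have hΩm := h.isOpen.measurableSet
  have z0 : ∀ x, x ∉ K → fderiv ℝ X x = 0 := by
    intro x hx
    have h3 : x ∉ tsupport (fderiv ℝ X) := fun h' => hx (hXK (tsupport_fderiv_subset ℝ h'))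
    exact image_eq_zero_of_notMem_tsupport h3
  have z1 : ∀ x, x ∉ K → tgrad u g α η κ x = 0 := by
    intro x hx
    have h3 : fderiv ℝ α x = 0 := image_eq_zero_of_notMem_tsupport
      fun h' => hx (hαK (tsupport_fderiv_subset ℝ h'))
    have h4 : fderiv ℝ η x = 0 := image_eq_zero_of_notMem_tsupport
      fun h' => hx (hηK (tsupport_fderiv_subset ℝ h'))
    have h5 : η x = 0 := image_eq_zero_of_notMem_tsupport (fun hx' => hx (hηK hx'))
    unfold tgrad outer_xi outer_grad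
    rw [h3, h4, h5]
    simp
  have z2 : ∀ x, x ∉ K → QB (fderiv ℝ X x) (g x) = 0 := by
    intro x hx
    rw [z0 x hx]
    have hdet0 : (0 : ℂ →L[ℝ] ℂ).det = 0 := by
      rw [fvar_det]
      simp
    unfold QB
    rw [hdet0]
    simp
  rw [setIntegral_eq_of_subset_of_forall_sdiff_eq_zero hΩm hKΩ (fun x hx => z2 x hx.2),
    setIntegral_eq_of_subset_of_forall_sdiff_eq_zero hΩm hKΩ (fun x hx => by
      rw [z1 x hx.2, inner_zero_right]),
    setIntegral_eq_of_subset_of_forall_sdiff_eq_zero hΩm hKΩ (fun x hx => by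
      rw [z1 x hx.2]; simp)]
  rw [hsum] at hb
  linarith

end Pool.Agent.MP099f24
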