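import Pool.Agent.Lib.MP_099f24_an.EA.Defs
import Pool.Agent.Lib.MP_099f24_an.EA.Alg
import Pool.Agent.Lib.MP_099f24_an.EA.Sec

/-!
# The orthogonality relations (module CROSS)
-/

set_option autoImplicit false

namespace Pool.Agent.MP099f24

open MeasureTheory Filter Topology Set Metric
open scoped ENNReal ContDiff

/-! ### Square integrable fields -/

/-- square integrable vector fields -/
structure eacross_L (f : ℂ → ℂ) : Prop where
  meas : Measurable f
  int : Integrable (fun x => ‖f x‖ ^ 2)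

theorem eacross_inner {f f' : ℂ → ℂ} (h : eacross_L f) (h' : eacross_L f') :
    Integrable (fun x => inner ℝ (f x) (f' x)) := by
  refine Integrable.mono' (g := fun x => ‖f x‖ ^ 2 + ‖f' x‖ ^ 2) (h.int.add h'.int)
    (h.meas.inner h'.meas).aestronglyMeasurable (Eventually.of_forall fun x => ?_)
  refine (norm_inner_le_norm _ _).trans ?_
  nlinarith [sq_nonneg (‖f x‖ - ‖f' x‖), sq_nonneg ‖f x‖, sq_nonneg ‖f' x‖]

theorem eacross_L.add {f f' : ℂ → ℂ} (h : eacross_L f) (h' : eacross_L f') :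
    eacross_L (fun x => f x + f' x) := by
  refine ⟨h.meas.add h'.meas, ?_⟩
  refine Integrable.mono' (g := fun x => 2 * ‖f x‖ ^ 2 + 2 * ‖f' x‖ ^ 2)
    ((h.int.const_mul 2).add (h'.int.const_mul 2))
    ((h.meas.add h'.meas).norm.pow_const 2).aestronglyMeasurable (Eventually.of_forall fun x => ?_)
  rw [Real.norm_eq_abs, abs_of_nonneg (by positivity)]
  have h1 := norm_add_le (f x) (f' x)
  have h2 : ‖f x + f' x‖ ^ 2 ≤ (‖f x‖ + ‖f' x‖) ^ 2 := pow_le_pow_left₀ (norm_nonneg _) h1 2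
  nlinarith [sq_nonneg (‖f x‖ - ‖f' x‖)]

theorem eacross_L.smul {f : ℂ → ℂ} (h : eacross_L f) (c : ℝ) : eacross_L (fun x => c • f x) := by
  refine ⟨h.meas.const_smul c, ?_⟩
  refine (h.int.const_mul (c ^ 2)).congr (Eventually.of_forall fun x => ?_)
  simp only
  rw [norm_smul, mul_pow, Real.norm_eq_abs, sq_abs]

theorem eacross_L.mulI {f : ℂ → ℂ} (h : eacross_L f) : eacross_L (fun x => Complex.I * f x) := by
  refine ⟨h.meas.const_mul _, ?_⟩
  refine h.int.congr (Eventually.of_forall fun x => ?_)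
  simp only
  rw [norm_mul, Complex.norm_I, one_mul]

theorem eacross_L.neg {f : ℂ → ℂ} (h : eacross_L f) : eacross_L (fun x => -f x) := by
  refine ⟨h.meas.neg, ?_⟩
  refine h.int.congr (Eventually.of_forall fun x => ?_)
  simp only
  rw [norm_neg]

/-- integrability of functions controlled by `|g|² + 1` which vanish outside a ball -/
theorem eacross_int {g : ℂ → ℂ} {R : ℝ} (hg : IntegrableOn (fun x => ‖g x‖ ^ 2) (closedBall 0 R))
    {f : ℂ → ℝ} (hf : Measurable f) {c : ℝ} (hb : ∀ x, |f x| ≤ c * (‖g x‖ ^ 2 + 1))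
    (h0 : ∀ x, R < ‖x‖ → f x = 0) : Integrable f := by
  have h1 : IntegrableOn f (closedBall 0 R) := by
    refine Integrable.mono' (g := fun x => c * (‖g x‖ ^ 2 + 1))
      ((hg.add (integrableOn_const (measure_closedBall_lt_top.ne))).const_mul c)
      hf.aestronglyMeasurable (Eventually.of_forall fun x => ?_)
    rw [Real.norm_eq_abs]
    exact hb x
  rw [← integrableOn_iff_integrable_of_support_subset (s := closedBall (0 : ℂ) R)]
  · exact h1
  · intro x hx
    by_contra h'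
    rw [mem_closedBall, dist_zero_right, not_le] at h'
    exact hx (h0 x h')

theorem eacross_mk {g : ℂ → ℂ} {R : ℝ} (hg : IntegrableOn (fun x => ‖g x‖ ^ 2) (closedBall 0 R))
    {f : ℂ → ℂ} (hf : Measurable f) {c : ℝ} (hb : ∀ x, ‖f x‖ ≤ c * (‖g x‖ + 1))
    (h0 : ∀ x, R < ‖x‖ → f x = 0) : eacross_L f := by
  refine ⟨hf, eacross_int hg (hf.norm.pow_const 2) (c := 2 * c ^ 2) (fun x => ?_) (fun x hx => ?_)⟩
  · rw [abs_of_nonneg (by positivity)]
    have h1 : ‖f x‖ ^ 2 ≤ (c * (‖g x‖ + 1)) ^ 2 := pow_le_pow_left₀ (norm_nonneg _) (hb x) 2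
    nlinarith [mul_nonneg (sq_nonneg c) (sq_nonneg (‖g x‖ - 1))]
  · simp [h0 x hx]

/-! ### Gradients -/

theorem eacross_grad_eq (a : ℂ → ℝ) (x : ℂ) : outer_grad a x =
    (fderiv ℝ a x 1 : ℂ) + (fderiv ℝ a x Complex.I : ℂ) * Complex.I := by
  apply ext_inner_right ℝ
  intro v
  rw [outer_inner_grad, fvar_inner]
  have hv : v = v.re • (1 : ℂ) + v.im • Complex.I := by
    rw [Complex.real_smul, Complex.real_smul, mul_one, Complex.re_add_im]
  have h3 : fderiv ℝ a x v = v.re * fderiv ℝ a x 1 + v.im * fderiv ℝ a x Complex.I := by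
    conv_lhs => rw [hv]
    rw [map_add, map_smul, map_smul, smul_eq_mul, smul_eq_mul]
  rw [h3]
  simp
  ring

theorem eacross_grad_cont {a : ℂ → ℝ} (ha : ContDiff ℝ ∞ a) : Continuous (outer_grad a) := by
  unfold outer_grad
  exact (InnerProductSpace.toDual ℝ ℂ).symm.continuous.comp (ha.continuous_fderiv (by simp))

theorem eacross_grad_mul {c : ℝ} {a : ℂ → ℝ} (x : ℂ) :
    outer_grad (fun y => c * a y) x = c • outer_grad a x := by
  apply ext_inner_right ℝ
  intro v
  rw [real_inner_smul_left, outer_inner_grad, outer_inner_grad]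
  have h : fderiv ℝ (fun y => c * a y) x = c • fderiv ℝ a x := by
    rw [show (fun y => c * a y) = c • a from rfl]
    exact congrFun (fderiv_const_smul_field (𝕜 := ℝ) (R := ℝ) (f := a) c) x
  rw [h]
  simp

theorem eacross_xi_mul {u η : ℂ → ℝ} {g : ℂ → ℂ} {κ : ℝ → ℝ} (c : ℝ) (x : ℂ) :
    outer_xi u (fun y => c * η y) g κ x = c • outer_xi u η g κ x := by
  unfold outer_xi
  rw [eacross_grad_mul, smul_add, smul_smul, smul_smul, smul_smul]
  congr 2
  · ring
  · ring

theorem eacross_grad_zero {a : ℂ → ℝ} {x : ℂ} (hx : x ∉ tsupport a) : outer_grad a x = 0 := by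
  have h1 : fderiv ℝ a x = 0 := by
    by_contra h
    exact hx (tsupport_fderiv_subset ℝ (subset_tsupport _ h))
  unfold outer_grad
  rw [h1, map_zero]

theorem eacross_L_grad {a : ℂ → ℝ} (ha : ContDiff ℝ ∞ a) (hc : HasCompactSupport a) :
    eacross_L (outer_grad a) := by
  have h1 := eacross_grad_cont ha
  refine ⟨h1.measurable, ?_⟩
  have h2 : HasCompactSupport (fun x => ‖outer_grad a x‖ ^ 2) := by
    refine hc.of_isClosed_subset (isClosed_tsupport _) ?_
    refine closure_minimal (fun x hx => ?_) (isClosed_tsupport _)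
    by_contra h
    exact hx (by simp [eacross_grad_zero h])
  exact (h1.norm.pow 2).integrable_of_hasCompactSupport h2

/-- the null Lagrangian -/
theorem eacross_null {a b : ℂ → ℝ} (ha : ContDiff ℝ ∞ a) (hb : ContDiff ℝ ∞ b)
    (hac : HasCompactSupport a) :
    ∫ x, inner ℝ (outer_grad a x) (Complex.I * outer_grad b x) = 0 := by
  have hD : ∀ v : ℂ, ContDiff ℝ ∞ (fun x => fderiv ℝ b x v) := fun v =>
    (hb.fderiv_right (m := ∞) (by simp)).clm_apply contDiff_const
  have key : ∀ v w : ℂ, Integrable (fun x => fderiv ℝ b x v * fderiv ℝ a x w) ∧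
      ∫ x, fderiv ℝ b x v * fderiv ℝ a x w =
        -∫ x, fderiv ℝ (fderiv ℝ b) x w v * a x := by
    intro v w
    have c1 : Continuous (fun x => fderiv ℝ b x v) := (hD v).continuous
    have c2 : Continuous (fun x => fderiv ℝ a x w) :=
      (ha.continuous_fderiv (by simp)).clm_apply continuous_const
    have s2 := (outer_fderiv_cs hac w).1
    have i1 : Integrable (fun x => fderiv ℝ b x v * fderiv ℝ a x w) :=
      (c1.mul c2).integrable_of_hasCompactSupport s2.mul_left
    refine ⟨i1, ?_⟩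
    have e : ∀ x, fderiv ℝ (fun y => fderiv ℝ b y v) x w = fderiv ℝ (fderiv ℝ b) x w v := by
      intro x
      have h1 : DifferentiableAt ℝ (fderiv ℝ b) x :=
        ((hb.fderiv_right (m := ∞) (by simp)).differentiable (by simp)).differentiableAt
      have h2 := h1.hasFDerivAt.clm_apply (hasFDerivAt_const v x)
      rw [h2.fderiv]
      simp
    rw [integral_mul_fderiv_eq_neg_fderiv_mul_of_integrable]
    · simp only [e]
    · have c3 : Continuous (fun x => fderiv ℝ (fun y => fderiv ℝ b y v) x w) :=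
        ((hD v).continuous_fderiv (by simp)).clm_apply continuous_const
      exact (c3.mul ha.continuous).integrable_of_hasCompactSupport hac.mul_left
    · exact i1
    · exact (c1.mul ha.continuous).integrable_of_hasCompactSupport hac.mul_left
    · exact fun x _ => ((hD v).differentiable (by simp)).differentiableAt
    · exact fun x _ => (ha.differentiable (by simp)).differentiableAt
  have e1 : ∀ x, inner ℝ (outer_grad a x) (Complex.I * outer_grad b x) =
      fderiv ℝ b x 1 * fderiv ℝ a x Complex.I - fderiv ℝ b x Complex.I * fderiv ℝ a x 1 := by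
    intro x
    rw [eacross_grad_eq a, eacross_grad_eq b, fvar_inner]
    simp
    ring
  simp only [e1]
  rw [integral_sub (key 1 Complex.I).1 (key Complex.I 1).1, (key 1 Complex.I).2,
    (key Complex.I 1).2]
  have e2 : ∀ x, fderiv ℝ (fderiv ℝ b) x Complex.I 1 = fderiv ℝ (fderiv ℝ b) x 1 Complex.I := by
    intro x
    have h1 : IsSymmSndFDerivAt ℝ b x :=
      (hb.contDiffAt).isSymmSndFDerivAt (by
        rw [minSmoothness_of_isRCLikeNormedField]
        exact WithTop.coe_le_coe.2 (le_top : (2 : ℕ∞) ≤ ⊤))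
    exact h1 Complex.I 1
  simp only [e2]
  ring

/-! ### The sum of the two inequalities -/

theorem eacross_point (Y A B q : ℂ) (c d : ℝ) :
    ‖Y‖ ^ 2 + 2 * inner ℝ Y (A + c • q) + ‖A + c • q‖ ^ 2 +
      2 * inner ℝ (Complex.I * Y) (-B + d • q) + ‖-B + d • q‖ ^ 2 =
    ‖Y + A + Complex.I * B‖ ^ 2 - 2 * inner ℝ A (Complex.I * B) +
      2 * c * inner ℝ (Y + A + Complex.I * B) q +
      2 * d * inner ℝ (Complex.I * (Y + A + Complex.I * B)) q
      - 2 * c * inner ℝ (Complex.I * B) q + c ^ 2 * ‖q‖ ^ 2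
      - 2 * d * inner ℝ (Complex.I * A) q + d ^ 2 * ‖q‖ ^ 2 := by
  simp only [fvar_inner, fvar_normSq]
  simp only [Complex.add_re, Complex.add_im, Complex.neg_re, Complex.neg_im, Complex.mul_re,
    Complex.mul_im, Complex.I_re, Complex.I_im, Complex.smul_re, Complex.smul_im, smul_eq_mul]
  ring

/-- `f` is integrable with integral `I` -/
def eacross_H (f : ℂ → ℝ) (I : ℝ) : Prop := Integrable f ∧ ∫ x, f x = I

theorem eacross_H.mk' {f : ℂ → ℝ} (h : Integrable f) : eacross_H f (∫ x, f x) := ⟨h, rfl⟩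

theorem eacross_H.add {f f' : ℂ → ℝ} {I I' : ℝ} (h : eacross_H f I) (h' : eacross_H f' I') :
    eacross_H (fun x => f x + f' x) (I + I') :=
  ⟨h.1.add h'.1, by rw [integral_add h.1 h'.1, h.2, h'.2]⟩

theorem eacross_H.sub {f f' : ℂ → ℝ} {I I' : ℝ} (h : eacross_H f I) (h' : eacross_H f' I') :
    eacross_H (fun x => f x - f' x) (I - I') :=
  ⟨h.1.sub h'.1, by rw [integral_sub h.1 h'.1, h.2, h'.2]⟩

theorem eacross_H.mul {f : ℂ → ℝ} {I : ℝ} (h : eacross_H f I) (c : ℝ) :
    eacross_H (fun x => c * f x) (c * I) :=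
  ⟨h.1.const_mul c, by rw [integral_const_mul, h.2]⟩

theorem eacross_sum {Y A B q : ℂ → ℂ} (hY : eacross_L Y) (hA : eacross_L A) (hB : eacross_L B)
    (hq : eacross_L q)
    (hWq : ∀ᵐ x ∂(volume : Measure ℂ), Y x + A x + Complex.I * B x = 0 ∨ q x = 0)
    (hAB : ∫ x, inner ℝ (A x) (Complex.I * B x) = 0) {Q1 Q2 : ℂ → ℝ} (i1 : Integrable Q1)
    (i2 : Integrable Q2) (hQ : ∀ x, Q1 x + Q2 x = ‖Y x‖ ^ 2) (c d : ℝ)
    (h1 : 0 ≤ (∫ x, Q1 x) + 2 * (∫ x, inner ℝ (Y x) (A x + c • q x)) + ∫ x, ‖A x + c • q x‖ ^ 2)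
    (h2 : 0 ≤ (∫ x, Q2 x) + 2 * (∫ x, inner ℝ (Complex.I * Y x) (-B x + d • q x)) +
      ∫ x, ‖-B x + d • q x‖ ^ 2) :
    0 ≤ (∫ x, ‖Y x + A x + Complex.I * B x‖ ^ 2) -
      2 * c * (∫ x, inner ℝ (Complex.I * B x) (q x)) +
      c ^ 2 * (∫ x, ‖q x‖ ^ 2) - 2 * d * (∫ x, inner ℝ (Complex.I * A x) (q x)) +
      d ^ 2 * ∫ x, ‖q x‖ ^ 2 := by
  have L1 : eacross_L (fun x => A x + c • q x) := hA.add (hq.smul c)
  have L2 : eacross_L (fun x => -B x + d • q x) := hB.neg.add (hq.smul d)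
  have LW : eacross_L (fun x => Y x + A x + Complex.I * B x) := (hY.add hA).add hB.mulI
  have j1 := eacross_H.mk' (eacross_inner hY L1)
  have j2 := eacross_H.mk' (eacross_inner hY.mulI L2)
  have j3 : eacross_H (fun x => inner ℝ (A x) (Complex.I * B x)) 0 :=
    ⟨eacross_inner hA hB.mulI, hAB⟩
  have j4 := eacross_H.mk' (eacross_inner hB.mulI hq)
  have j5 := eacross_H.mk' (eacross_inner hA.mulI hq)
  have k0 := eacross_H.mk' LW.int
  have k1 := eacross_H.mk' L1.int
  have k2 := eacross_H.mk' L2.int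
  have k3 := eacross_H.mk' hq.int
  have e1 := ((((eacross_H.mk' i1).add (j1.mul 2)).add k1).add
    (((eacross_H.mk' i2).add (j2.mul 2)).add k2)).2
  have e2 := (((((k0.sub (j3.mul 2)).sub (j4.mul (2 * c))).add (k3.mul (c ^ 2))).sub
    (j5.mul (2 * d))).add (k3.mul (d ^ 2))).2
  have e3 : ∫ x, ((Q1 x + 2 * inner ℝ (Y x) (A x + c • q x) + ‖A x + c • q x‖ ^ 2) +
        (Q2 x + 2 * inner ℝ (Complex.I * Y x) (-B x + d • q x) + ‖-B x + d • q x‖ ^ 2)) =
      ∫ x, ((((((‖Y x + A x + Complex.I * B x‖ ^ 2 - 2 * inner ℝ (A x) (Complex.I * B x)) -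
        2 * c * inner ℝ (Complex.I * B x) (q x)) + c ^ 2 * ‖q x‖ ^ 2) -
        2 * d * inner ℝ (Complex.I * A x) (q x)) + d ^ 2 * ‖q x‖ ^ 2)) := by
    refine integral_congr_ae ?_
    filter_upwards [hWq] with x hx
    have h3 := eacross_point (Y x) (A x) (B x) (q x) c d
    have h4 : inner ℝ (Y x + A x + Complex.I * B x) (q x) = 0 := by
      rcases hx with h | h
      · rw [h, inner_zero_left]
      · rw [h, inner_zero_right]
    have h5 : inner ℝ (Complex.I * (Y x + A x + Complex.I * B x)) (q x) = 0 := by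
      rcases hx with h | h
      · rw [h, mul_zero, inner_zero_left]
      · rw [h, inner_zero_right]
    rw [h4, h5] at h3
    have h6 := hQ x
    linarith
  linarith

/-! ### Cutoffs -/

theorem eacross_cut : ∃ c₁ : ℝ, 0 ≤ c₁ ∧ ∀ R : ℝ, 0 < R → ∃ χ : ℂ → ℝ, ContDiff ℝ ∞ χ ∧
    HasCompactSupport χ ∧ (∀ x, ‖x‖ ≤ R → χ x = 1) ∧ (∀ x, ‖x‖ < R → fderiv ℝ χ x = 0) ∧
    (∀ x, 2 * R < ‖x‖ → fderiv ℝ χ x = 0) ∧ ∀ x, ‖fderiv ℝ χ x‖ ≤ c₁ / R := by
  let φ : ContDiffBump (0 : ℂ) := ⟨1, 2, one_pos, one_lt_two⟩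
  have hφ : ContDiff ℝ ∞ (φ : ℂ → ℝ) := φ.contDiff
  have hφc : HasCompactSupport (φ : ℂ → ℝ) := φ.hasCompactSupport
  obtain ⟨c₁, hc₁⟩ := (hφc.fderiv (𝕜 := ℝ)).exists_bound_of_continuous
    (hφ.continuous_fderiv (by simp))
  refine ⟨c₁, (norm_nonneg _).trans (hc₁ 0), fun R hR => ⟨fun x => φ (R⁻¹ • x), ?_, ?_, ?_, ?_, ?_,
    ?_⟩⟩
  · exact hφ.comp (contDiff_const_smul _)
  · exact hφc.comp_homeomorph (Homeomorph.smulOfNeZero R⁻¹ (inv_ne_zero hR.ne'))
  · intro x hx
    apply φ.one_of_mem_closedBall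
    rw [mem_closedBall, dist_zero_right, norm_smul, norm_inv, Real.norm_eq_abs, abs_of_pos hR]
    show R⁻¹ * ‖x‖ ≤ 1
    rw [inv_mul_le_iff₀ hR]
    simpa using hx
  · intro x hx
    have h1 : (fun x : ℂ => φ (R⁻¹ • x)) =ᶠ[𝓝 x] fun _ => (1 : ℝ) := by
      have h2 : ∀ᶠ y in 𝓝 x, ‖y‖ < R := continuous_norm.continuousAt.eventually_lt_const hx
      filter_upwards [h2] with y hy
      apply φ.one_of_mem_closedBall
      rw [mem_closedBall, dist_zero_right, norm_smul, norm_inv, Real.norm_eq_abs, abs_of_pos hR]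
      show R⁻¹ * ‖y‖ ≤ 1
      rw [inv_mul_le_iff₀ hR]
      simpa using hy.le
    rw [h1.fderiv_eq]
    simp
  · intro x hx
    have h1 : (fun x : ℂ => φ (R⁻¹ • x)) =ᶠ[𝓝 x] fun _ => (0 : ℝ) := by
      have h2 : ∀ᶠ y in 𝓝 x, 2 * R < ‖y‖ := continuous_norm.continuousAt.eventually_const_lt hx
      filter_upwards [h2] with y hy
      apply φ.zero_of_le_dist
      rw [dist_zero_right, norm_smul, norm_inv, Real.norm_eq_abs, abs_of_pos hR]
      show 2 ≤ R⁻¹ * ‖y‖
      rw [le_inv_mul_iff₀ hR]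
      linarith
    rw [h1.fderiv_eq]
    simp
  · intro x
    have h1 : HasFDerivAt (fun x : ℂ => φ (R⁻¹ • x))
        ((fderiv ℝ φ (R⁻¹ • x)).comp (R⁻¹ • ContinuousLinearMap.id ℝ ℂ)) x := by
      have h2 := ((hφ.differentiable (by simp)).differentiableAt (x := R⁻¹ • x)).hasFDerivAt
      exact HasFDerivAt.comp (g := (φ : ℂ → ℝ)) (f := fun y : ℂ => R⁻¹ • y) x h2
        ((hasFDerivAt_id x).const_smul R⁻¹)
    rw [h1.fderiv]
    refine (ContinuousLinearMap.opNorm_comp_le _ _).trans ?_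
    rw [norm_smul, norm_inv, Real.norm_eq_abs, abs_of_pos hR]
    have h3 : ‖ContinuousLinearMap.id ℝ ℂ‖ ≤ 1 := ContinuousLinearMap.norm_id_le
    calc ‖fderiv ℝ φ (R⁻¹ • x)‖ * (R⁻¹ * ‖ContinuousLinearMap.id ℝ ℂ‖) ≤ c₁ * (R⁻¹ * 1) :=
          mul_le_mul (hc₁ _) (mul_le_mul_of_nonneg_left h3 (inv_nonneg.2 hR.le))
            (mul_nonneg (inv_nonneg.2 hR.le) (norm_nonneg _)) ((norm_nonneg _).trans (hc₁ 0))
      _ = c₁ / R := by rw [mul_one, div_eq_mul_inv]

theorem eacross_fd {χ : ℂ → ℝ} {k : ℂ → ℂ} (hχ : ContDiff ℝ ∞ χ) (hk : ContDiff ℝ ∞ k) (x v : ℂ) :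
    fderiv ℝ (fun y => χ y * (k y).re) x v =
      χ x * (fderiv ℝ k x v).re + (k x).re * fderiv ℝ χ x v ∧
    fderiv ℝ (fun y => χ y * (k y).im) x v =
      χ x * (fderiv ℝ k x v).im + (k x).im * fderiv ℝ χ x v := by
  have h1 := ((hχ.differentiable (by simp)).differentiableAt (x := x)).hasFDerivAt
  have h2 := ((hk.differentiable (by simp)).differentiableAt (x := x)).hasFDerivAt
  have h3 : HasFDerivAt (fun y => (k y).re) (Complex.reCLM.comp (fderiv ℝ k x)) x :=
    Complex.reCLM.hasFDerivAt.comp x h2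
  have h4 : HasFDerivAt (fun y => (k y).im) (Complex.imCLM.comp (fderiv ℝ k x)) x :=
    Complex.imCLM.hasFDerivAt.comp x h2
  have h5 : HasFDerivAt (fun y => χ y * (k y).re) _ x := h1.mul h3
  have h6 : HasFDerivAt (fun y => χ y * (k y).im) _ x := h1.mul h4
  constructor
  · rw [h5.fderiv]
    simp
  · rw [h6.fderiv]
    simp

theorem eacross_AB {χ : ℂ → ℝ} {k : ℂ → ℂ} (hχ : ContDiff ℝ ∞ χ) (hk : ContDiff ℝ ∞ k) (x : ℂ) :
    outer_grad (fun y => χ y * (k y).re) x +
      Complex.I * outer_grad (fun y => χ y * (k y).im) x =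
    (χ x : ℂ) * (2 * dbar k x) + (fderiv ℝ χ x 1 + Complex.I * fderiv ℝ χ x Complex.I) * k x := by
  rw [eacross_grad_eq, eacross_grad_eq, (eacross_fd hχ hk x 1).1, (eacross_fd hχ hk x 1).2,
    (eacross_fd hχ hk x Complex.I).1, (eacross_fd hχ hk x Complex.I).2]
  unfold dbar
  apply Complex.ext
  · simp
    ring
  · simp
    ring

theorem eacross_W {X k g : ℂ → ℂ} {χ : ℂ → ℝ} {R₀ R C c₁ : ℝ} (hR₀ : 1 ≤ R₀) (hR : R₀ ≤ R)
    (hXR : ∀ x, R₀ ≤ ‖x‖ → fderiv ℝ X x = 0)
    (hkX : ∀ᵐ x ∂(volume : Measure ℂ), dbar k x = dbar X x * (starRingEnd ℂ) (g x))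
    (hk : ContDiff ℝ ∞ k) (hkC : ∀ x, ‖k x‖ ≤ C / (1 + ‖x‖)) (hc₁ : 0 ≤ c₁)
    (hχ : ContDiff ℝ ∞ χ) (hχ1 : ∀ x, ‖x‖ ≤ R → χ x = 1) (hχ2 : ∀ x, ‖x‖ < R → fderiv ℝ χ x = 0)
    (hχ3 : ∀ x, 2 * R < ‖x‖ → fderiv ℝ χ x = 0) (hχ4 : ∀ x, ‖fderiv ℝ χ x‖ ≤ c₁ / R) :
    ∀ᵐ x ∂(volume : Measure ℂ), (‖x‖ < R → SB (fderiv ℝ X x) (g x) +
      outer_grad (fun y => χ y * (k y).re) x +
      Complex.I * outer_grad (fun y => χ y * (k y).im) x = 0) ∧
      ‖SB (fderiv ℝ X x) (g x) + outer_grad (fun y => χ y * (k y).re) x +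
      Complex.I * outer_grad (fun y => χ y * (k y).im) x‖ ^ 2 ≤
        (closedBall (0 : ℂ) (2 * R)).indicator (fun _ => (2 * c₁ * C / R ^ 2) ^ 2) x := by
  have hRp : 0 < R := by linarith
  have hC : 0 ≤ C := by
    have := (norm_nonneg _).trans (hkC 0)
    simpa using this
  filter_upwards [hkX] with x hx
  have e1 : SB (fderiv ℝ X x) (g x) = -(2 * dbar k x) := by
    rw [sb_conj, hx]
    unfold dbar
    ring
  have e2 : SB (fderiv ℝ X x) (g x) + outer_grad (fun y => χ y * (k y).re) x +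
      Complex.I * outer_grad (fun y => χ y * (k y).im) x =
      ((χ x : ℂ) - 1) * (2 * dbar k x) +
        (fderiv ℝ χ x 1 + Complex.I * fderiv ℝ χ x Complex.I) * k x := by
    rw [add_assoc, eacross_AB hχ hk, e1]
    ring
  rw [e2]
  have hz : ‖x‖ < R → ((χ x : ℂ) - 1) * (2 * dbar k x) +
      (fderiv ℝ χ x 1 + Complex.I * fderiv ℝ χ x Complex.I) * k x = 0 := by
    intro h
    rw [hχ1 x h.le, hχ2 x h]
    simp
  refine ⟨hz, ?_⟩
  have hi : 0 ≤ (closedBall (0 : ℂ) (2 * R)).indicator (fun _ => (2 * c₁ * C / R ^ 2) ^ 2) x :=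
    indicator_nonneg (fun _ _ => by positivity) x
  rcases lt_or_ge ‖x‖ R with h | h
  · rw [hz h, norm_zero]
    simpa using hi
  · have hd : dbar k x = 0 := by
      rw [hx]
      unfold dbar
      rw [hXR x (hR.trans h)]
      simp
    rw [hd, mul_zero, mul_zero, zero_add]
    rcases lt_or_ge (2 * R) ‖x‖ with h' | h'
    · rw [hχ3 x h']
      simpa using hi
    · rw [indicator_of_mem (by rwa [mem_closedBall, dist_zero_right])]
      refine pow_le_pow_left₀ (norm_nonneg _) ?_ 2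
      have b1 : ‖((fderiv ℝ χ x 1 : ℝ) : ℂ) + Complex.I * (fderiv ℝ χ x Complex.I : ℝ)‖ ≤
          2 * (c₁ / R) := by
        refine (norm_add_le _ _).trans ?_
        rw [norm_mul, Complex.norm_I, one_mul, Complex.norm_real, Complex.norm_real]
        have t1 := (fderiv ℝ χ x).le_opNorm 1
        have t2 := (fderiv ℝ χ x).le_opNorm Complex.I
        rw [norm_one, mul_one] at t1
        rw [Complex.norm_I, mul_one] at t2
        have t3 := hχ4 x
        linarith
      have b2 : ‖k x‖ ≤ C / R := by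
        refine (hkC x).trans ?_
        exact div_le_div_of_nonneg_left hC hRp (by linarith)
      rw [norm_mul]
      calc _ ≤ 2 * (c₁ / R) * (C / R) := mul_le_mul b1 b2 (norm_nonneg _) (by positivity)
        _ = 2 * c₁ * C / R ^ 2 := by field_simp

theorem ea_cross {u : ℂ → ℝ} {g j : ℂ → ℂ} (h : MSMin univ u g j) {X : ℂ → ℂ}
    (hX : ContDiff ℝ ∞ X) (hXc : HasCompactSupport X) {U : Set ℂ}
    (hU : IsOpen U) (hSU : discSet univ u ⊆ U) (h0 : ∀ x ∈ U, fderiv ℝ X x = 0)
    {k : ℂ → ℂ} (hk : ContDiff ℝ ∞ k)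
    (hkX : ∀ᵐ x ∂(volume : Measure ℂ), dbar k x = dbar X x * (starRingEnd ℂ) (g x)) {C : ℝ}
    (hkC : ∀ x, ‖k x‖ ≤ C / (1 + ‖x‖) ∧ ‖fderiv ℝ k x‖ ≤ C / (1 + ‖x‖) ^ 2)
    {η : ℂ → ℝ} (hη : ContDiff ℝ ∞ η) (hηc : HasCompactSupport η) {κ : ℝ → ℝ}
    (hκ : ContDiff ℝ ∞ κ) {M : ℝ} (hM : ∀ s, |κ s| ≤ M ∧ |deriv κ s| ≤ M) :
    ∫ x, inner ℝ (Complex.I * outer_grad (fun y => (k y).re) x) (outer_xi u η g κ x) = 0 ∧
    ∫ x, inner ℝ (Complex.I * outer_grad (fun y => (k y).im) x) (outer_xi u η g κ x) = 0 := by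
  obtain ⟨MX, hMX1, hMX⟩ := fvar_bound hX hXc
  have hM0 := outer_M hM
  -- the radius
  obtain ⟨R₀, hR₀, hXs, hηs⟩ : ∃ R₀ : ℝ, 1 ≤ R₀ ∧ (∀ x, R₀ ≤ ‖x‖ → x ∉ tsupport X) ∧
      ∀ x, R₀ ≤ ‖x‖ → x ∉ tsupport η := by
    obtain ⟨r1, hr1⟩ := (hXc.isCompact.isBounded).subset_closedBall (0 : ℂ)
    obtain ⟨r2, hr2⟩ := (hηc.isCompact.isBounded).subset_closedBall (0 : ℂ)
    refine ⟨max 1 (max r1 r2 + 1), le_max_left _ _, fun x hx hx' => ?_, fun x hx hx' => ?_⟩
    · have h1 := hr1 hx'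
      rw [mem_closedBall, dist_zero_right] at h1
      have h2 := (le_max_right 1 (max r1 r2 + 1)).trans hx
      have h3 := le_max_left r1 r2
      linarith
    · have h1 := hr2 hx'
      rw [mem_closedBall, dist_zero_right] at h1
      have h2 := (le_max_right 1 (max r1 r2 + 1)).trans hx
      have h3 := le_max_right r1 r2
      linarith
  have hg2 : IntegrableOn (fun x => ‖g x‖ ^ 2) (closedBall 0 R₀) :=
    h.fin_g _ (isCompact_closedBall 0 R₀) (subset_univ _)
  have hXR : ∀ x, R₀ ≤ ‖x‖ → fderiv ℝ X x = 0 := by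
    intro x hx
    by_contra h'
    exact hXs x hx (tsupport_fderiv_subset ℝ (subset_tsupport _ h'))
  -- the field `Y`
  have hfc : ∀ v, Continuous (fun x => fderiv ℝ X x v) := fun v =>
    (hX.continuous_fderiv (by simp)).clm_apply continuous_const
  have hYm : Measurable (fun x => SB (fderiv ℝ X x) (g x)) := by
    have e : (fun x => SB (fderiv ℝ X x) (g x)) = fun x =>
        -((fderiv ℝ X x 1 + Complex.I * fderiv ℝ X x Complex.I) * (starRingEnd ℂ) (g x)) := by
      funext x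
      exact sb_conj _ _
    rw [e]
    exact ((((hfc 1).measurable.add ((hfc Complex.I).measurable.const_mul _))).mul
      (Complex.continuous_conj.measurable.comp h.meas_g)).neg
  have hYL : eacross_L (fun x => SB (fderiv ℝ X x) (g x)) := by
    refine eacross_mk hg2 hYm (c := 2 * MX) (fun x => ?_) (fun x hx => ?_)
    · rw [sb_conj, norm_neg, norm_mul, RCLike.norm_conj]
      have t1 := (fderiv ℝ X x).le_opNorm 1
      have t2 := (fderiv ℝ X x).le_opNorm Complex.I
      rw [norm_one, mul_one] at t1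
      rw [Complex.norm_I, mul_one] at t2
      have t3 : ‖fderiv ℝ X x 1 + Complex.I * fderiv ℝ X x Complex.I‖ ≤ 2 * MX := by
        refine (norm_add_le _ _).trans ?_
        rw [norm_mul, Complex.norm_I, one_mul]
        have := hMX x
        linarith
      exact mul_le_mul t3 (by linarith) (norm_nonneg _) (by linarith)
    · rw [sb_conj, hXR x hx.le]
      simp
  -- the field `q`
  obtain ⟨P, hP⟩ := hηc.exists_bound_of_continuous hη.continuous
  obtain ⟨P', hP'⟩ := (hηc.fderiv (𝕜 := ℝ)).exists_bound_of_continuous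
    (hη.continuous_fderiv (by simp))
  have hPa : ∀ x, |η x| ≤ P := fun x => by rw [← Real.norm_eq_abs]; exact hP x
  have hP0 : 0 ≤ P := (abs_nonneg _).trans (hPa 0)
  have hP0' : 0 ≤ P' := (norm_nonneg _).trans (hP' 0)
  have hq0 : ∀ x, R₀ ≤ ‖x‖ → outer_xi u η g κ x = 0 := by
    intro x hx
    unfold outer_xi
    rw [eacross_grad_zero (hηs x hx), image_eq_zero_of_notMem_tsupport (hηs x hx)]
    simp
  have hqL : eacross_L (outer_xi u η g κ) := by
    refine eacross_mk hg2 (outer_meas_xi h.meas_u h.meas_g hη hκ) (c := P * M + M * P')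
      (fun x => ?_) (fun x hx => hq0 x hx.le)
    refine (outer_norm_xi hM hPa hP' x).trans ?_
    have t1 : 0 ≤ M * P' * ‖g x‖ := by positivity
    have t2 : 0 ≤ P * M := by positivity
    nlinarith
  -- the quadratic forms
  have hQ : ∀ (B : ℂ → ℂ →L[ℝ] ℂ), (∀ v, Continuous fun x => B x v) → (∀ x, ‖B x‖ ≤ MX) →
      (∀ x, R₀ ≤ ‖x‖ → B x = 0) → Integrable (fun x => QB (B x) (g x)) := by
    intro B hB1 hB2 hB3
    refine eacross_int hg2 ?_ (c := 3 * MX ^ 2) (fun x => ?_) (fun x hx => ?_)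
    · simp only [eaalg_QB]
      have := Complex.measurable_re.comp (hB1 1).measurable
      have := Complex.measurable_im.comp (hB1 1).measurable
      have := Complex.measurable_re.comp (hB1 Complex.I).measurable
      have := Complex.measurable_im.comp (hB1 Complex.I).measurable
      have := Complex.measurable_re.comp h.meas_g
      have := Complex.measurable_im.comp h.meas_g
      fun_prop
    · refine (qb_bound (hB2 x) _).trans ?_
      nlinarith [sq_nonneg MX]
    · rw [hB3 x hx.le, eaalg_QB]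
      simp
  have hQ1 : Integrable (fun x => QB (fderiv ℝ X x) (g x)) := hQ _ hfc hMX hXR
  have hQ2 : Integrable (fun x => QB (Complex.I • fderiv ℝ X x) (g x)) := by
    refine hQ _ (fun v => ?_) (fun x => ?_) (fun x hx => ?_)
    · simp only [eaalg_smul_apply]
      exact (hfc v).const_mul _
    · rw [norm_smul, Complex.norm_I, one_mul]
      exact hMX x
    · rw [hXR x hx, smul_zero]
  -- the second field
  have hX'd : ∀ x, fderiv ℝ (fun y => Complex.I * X y) x = Complex.I • fderiv ℝ X x := fun x =>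
    fderiv_const_mul (hX.differentiable (by simp)).differentiableAt _
  have hX' : ContDiff ℝ ∞ (fun y => Complex.I * X y) := contDiff_const.mul hX
  have hX'c : HasCompactSupport (fun y => Complex.I * X y) := hXc.mul_left
  obtain ⟨c₁, hc₁, hcut⟩ := eacross_cut
  have hC0 : 0 ≤ C := by
    have := (norm_nonneg _).trans (hkC 0).1
    simpa using this
  set D : ℝ := 16 * Real.pi * (c₁ * C) ^ 2 with hD
  have main : ∀ R : ℝ, R₀ ≤ R → ∀ c d : ℝ, 0 ≤ D / R ^ 2 -
      2 * c * (∫ x, inner ℝ (Complex.I * outer_grad (fun y => (k y).im) x) (outer_xi u η g κ x)) +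
      c ^ 2 * (∫ x, ‖outer_xi u η g κ x‖ ^ 2) -
      2 * d * (∫ x, inner ℝ (Complex.I * outer_grad (fun y => (k y).re) x) (outer_xi u η g κ x)) +
      d ^ 2 * ∫ x, ‖outer_xi u η g κ x‖ ^ 2 := by
    intro R hR c d
    have hRp : 0 < R := by linarith
    obtain ⟨χ, hχ, hχc, hχ1, hχ2, hχ3, hχ4⟩ := hcut R hRp
    have hW := eacross_W (g := g) hR₀ hR hXR hkX hk (fun x => (hkC x).1) hc₁ hχ hχ1 hχ2 hχ3 hχ4
    have ha : ContDiff ℝ ∞ (fun y => χ y * (k y).re) :=
      hχ.mul (Complex.reCLM.contDiff.comp hk)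
    have hb : ContDiff ℝ ∞ (fun y => χ y * (k y).im) :=
      hχ.mul (Complex.imCLM.contDiff.comp hk)
    have hac : HasCompactSupport (fun y => χ y * (k y).re) := hχc.mul_right
    have hbc : HasCompactSupport (fun y => χ y * (k y).im) := hχc.mul_right
    have T1 := ea_sec h hX hXc (subset_univ _) hU hSU h0 ha hac (subset_univ _)
      (η := fun y => c * η y) (contDiff_const.mul hη) hηc.mul_left (subset_univ _) hκ hM
    have T2 := ea_sec h hX' hX'c (subset_univ _) hU hSU
      (fun x hx => by rw [hX'd, h0 x hx, smul_zero])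
      (α := fun y => (-1) * (χ y * (k y).im)) (contDiff_const.mul hb) hbc.mul_left (subset_univ _)
      (η := fun y => d * η y) (contDiff_const.mul hη) hηc.mul_left (subset_univ _) hκ hM
    simp only [setIntegral_univ, tgrad, eacross_xi_mul] at T1
    simp only [setIntegral_univ, tgrad, eacross_xi_mul, eacross_grad_mul, hX'd, sb_smul_I,
      neg_one_smul] at T2
    have S := eacross_sum hYL (eacross_L_grad ha hac) (eacross_L_grad hb hbc) hqL (by
      filter_upwards [hW] with x hx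
      rcases lt_or_ge ‖x‖ R with h' | h'
      · exact Or.inl (hx.1 h')
      · exact Or.inr (hq0 x (hR.trans h'))) (eacross_null ha hb hac) hQ1 hQ2
      (fun x => qb_sum _ _) c d T1 T2
    have w1 : (∫ x, ‖SB (fderiv ℝ X x) (g x) + outer_grad (fun y => χ y * (k y).re) x +
      Complex.I * outer_grad (fun y => χ y * (k y).im) x‖ ^ 2) ≤ D / R ^ 2 := by
      have hm : MeasurableSet (closedBall (0 : ℂ) (2 * R)) := measurableSet_closedBall
      have hf : volume (closedBall (0 : ℂ) (2 * R)) ≠ ⊤ := measure_closedBall_lt_top.ne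
      calc _ ≤ ∫ x, (closedBall (0 : ℂ) (2 * R)).indicator
            (fun _ => (2 * c₁ * C / R ^ 2) ^ 2) x := by
            refine integral_mono_of_nonneg (Eventually.of_forall fun x => by positivity) ?_ ?_
            · exact (integrable_indicator_iff hm).2 (integrableOn_const hf)
            · filter_upwards [hW] with x hx
              exact hx.2
        _ = volume.real (closedBall (0 : ℂ) (2 * R)) * (2 * c₁ * C / R ^ 2) ^ 2 := by
            rw [integral_indicator hm, setIntegral_const, smul_eq_mul]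
        _ = D / R ^ 2 := by
            rw [Measure.real, Complex.volume_closedBall, ENNReal.toReal_mul, ENNReal.toReal_pow,
              ENNReal.toReal_ofReal (by positivity)]
            simp only [ENNReal.coe_toReal, NNReal.coe_real_pi, hD]
            field_simp
            ring
    have w2 : ∀ (f F : ℂ → ℝ), (∀ x, ‖x‖ < R → F x = f x) →
        ∫ x, inner ℝ (Complex.I * outer_grad F x) (outer_xi u η g κ x) =
        ∫ x, inner ℝ (Complex.I * outer_grad f x) (outer_xi u η g κ x) := by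
      intro f F hfF
      refine integral_congr_ae (Eventually.of_forall fun x => ?_)
      simp only
      rcases lt_or_ge ‖x‖ R with h' | h'
      · have h1 : F =ᶠ[𝓝 x] f := by
          have h2 : ∀ᶠ y in 𝓝 x, ‖y‖ < R := continuous_norm.continuousAt.eventually_lt_const h'
          filter_upwards [h2] with y hy
          exact hfF y hy
        have h3 : outer_grad F x = outer_grad f x := by
          unfold outer_grad
          rw [h1.fderiv_eq]
        rw [h3]
      · rw [hq0 x (hR.trans h'), inner_zero_right, inner_zero_right]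
    rw [w2 (fun y => (k y).re) (fun y => χ y * (k y).re)
      (fun x hx => by rw [hχ1 x hx.le, one_mul]),
      w2 (fun y => (k y).im) (fun y => χ y * (k y).im)
      (fun x hx => by rw [hχ1 x hx.le, one_mul])] at S
    linarith
  have lim : ∀ E : ℝ, (∀ R : ℝ, R₀ ≤ R → 0 ≤ D / R ^ 2 + E) → 0 ≤ E := by
    intro E hE
    have t1 : Tendsto (fun R : ℝ => D / R ^ 2 + E) atTop (𝓝 (0 + E)) :=
      (tendsto_const_nhds.div_atTop (tendsto_pow_atTop two_ne_zero)).add tendsto_const_nhds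
    rw [zero_add] at t1
    refine ge_of_tendsto t1 ?_
    filter_upwards [eventually_ge_atTop R₀] with R hR
    exact hE R hR
  constructor
  · have := outer_quad (A := -(∫ x, inner ℝ (Complex.I * outer_grad (fun y => (k y).re) x)
      (outer_xi u η g κ x))) (B := ∫ x, ‖outer_xi u η g κ x‖ ^ 2) one_pos (fun t _ => by
        refine lim _ (fun R hR => ?_)
        have := main R hR 0 t
        linarith)
    linarith
  · have := outer_quad (A := -(∫ x, inner ℝ (Complex.I * outer_grad (fun y => (k y).im) x)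
      (outer_xi u η g κ x))) (B := ∫ x, ‖outer_xi u η g κ x‖ ^ 2) one_pos (fun t _ => by
        refine lim _ (fun R hR => ?_)
        have := main R hR t 0
        linarith)
    linarith

end Pool.Agent.MP099f24
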