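import Pool.Agent.Lib.MP_099f24_an.EA.Defs
import Pool.Agent.Lib.MP_099f24_an.SD.Fvar
import Pool.Agent.Lib.MP_099f24_an.SD.JRep
import Pool.Agent.Lib.MP_099f24_an.SD.Meass
import Pool.Agent.Lib.MP_099f24_an.Calibration

/-!
# MP_099f24_an, part EA: module FINALD (dilation field, constant outer gradient)
-/

namespace Pool.Agent.MP099f24

open MeasureTheory Filter Topology Set Metric
open scoped ENNReal ContDiff

/-- The integral of a derivative of a compactly supported smooth field vanishes. -/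
lemma eafinald_integral_fderiv {X : ℂ → ℂ} (hX : ContDiff ℝ ∞ X) (hc : HasCompactSupport X)
    (v : ℂ) : ∫ x, fderiv ℝ X x v = 0 := by
  have hi : Integrable fun x => fderiv ℝ X x v := by
    apply Continuous.integrable_of_hasCompactSupport
    · exact (hX.continuous_fderiv (by simp)).clm_apply continuous_const
    · exact hc.fderiv_apply ℝ v
  have h3 := integral_smul_fderiv_eq_neg_fderiv_smul_of_integrable (μ := volume) (𝕜 := ℝ)
    (f := fun _ : ℂ => (1 : ℝ)) (g := X) (v := v) (by simp)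
    (by simpa using hi)
    (by simpa using hX.continuous.integrable_of_hasCompactSupport hc)
    (fun x _ => differentiableAt_const _) (fun x _ => hX.differentiable (by simp) x)
  simpa using h3

lemma eafinald_int {X : ℂ → ℂ} (hX : ContDiff ℝ ∞ X) (hc : HasCompactSupport X)
    (v : ℂ) : Integrable fun x => fderiv ℝ X x v := by
  apply Continuous.integrable_of_hasCompactSupport
  · exact (hX.continuous_fderiv (by simp)).clm_apply continuous_const
  · exact hc.fderiv_apply ℝ v

/-- The volume term of the first variation vanishes for a constant gradient. -/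
lemma eafinald_const {X : ℂ → ℂ} (hX : ContDiff ℝ ∞ X) (hc : HasCompactSupport X) (c : ℂ) :
    ∫ x in tsupport X, (‖c‖ ^ 2 * dv X x - 2 * inner ℝ (fderiv ℝ X x c) c) = 0 := by
  rw [setIntegral_eq_integral_of_forall_compl_eq_zero]
  swap
  · intro x hx
    have h1 : fderiv ℝ X x = 0 := fderiv_of_notMem_tsupport ℝ hx
    rw [dv, h1]
    simp
  have e1 : ∫ x, (fderiv ℝ X x 1).re = 0 := by
    have := Complex.reCLM.integral_comp_comm (eafinald_int hX hc 1)
    rw [eafinald_integral_fderiv hX hc] at this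
    simpa using this
  have e2 : ∫ x, (fderiv ℝ X x Complex.I).im = 0 := by
    have := Complex.imCLM.integral_comp_comm (eafinald_int hX hc Complex.I)
    rw [eafinald_integral_fderiv hX hc] at this
    simpa using this
  have e3 : ∫ x, inner ℝ (fderiv ℝ X x c) c = 0 := by
    have := integral_inner (𝕜 := ℝ) (eafinald_int hX hc c) c
    rw [eafinald_integral_fderiv hX hc] at this
    simp_rw [real_inner_comm c]
    simpa using this
  have i1 : Integrable fun x => (fderiv ℝ X x 1).re := Complex.reCLM.integrable_comp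
    (eafinald_int hX hc 1)
  have i2 : Integrable fun x => (fderiv ℝ X x Complex.I).im := Complex.imCLM.integrable_comp
    (eafinald_int hX hc Complex.I)
  have i3 : Integrable fun x => inner ℝ (fderiv ℝ X x c) c := by
    exact ((eafinald_int hX hc c).const_inner (𝕜 := ℝ) c).congr
      (Eventually.of_forall fun x => real_inner_comm _ _)
  have i4 : Integrable fun x => dv X x := i1.add i2
  rw [integral_sub (i4.const_mul _) (i3.const_mul _), integral_const_mul, integral_const_mul, e3]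
  have e4 : ∫ x, dv X x = 0 := by
    simp only [dv]
    rw [integral_add i1 i2, e1, e2, add_zero]
  rw [e4]
  simp

theorem ea_finald {Ω : Set ℂ} {u : ℂ → ℝ} {g j : ℂ → ℂ} (h : MSMin Ω u g j) {Q D : Set ℂ}
    (hQ : IsOpen Q) (hD : IsCompact D) (hDQ : D ⊆ Q) (hQΩ : Q ⊆ Ω) (hS : discSet Ω u ∩ Q ⊆ D)
    {c : ℂ} (hc : ∀ᵐ x ∂(volume : Measure ℂ), x ∈ Q \ D → g x = c) :
    (μH[1] : Measure ℂ) (discSet Ω u ∩ D) = 0 := by
  obtain ⟨η, hη, hηc, hηs, -, hη1⟩ := cal_cutoff hD hQ hDQ
  set X : ℂ → ℂ := fun x => (-η x) • x with hXdef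
  have hX : ContDiff ℝ ∞ X := hη.neg.smul contDiff_id
  have hXsub : tsupport X ⊆ tsupport η := by
    refine closure_mono fun x hx => ?_
    intro h0
    apply hx
    simp [hXdef, h0]
  have hXc : HasCompactSupport X := IsCompact.of_isClosed_subset hηc (isClosed_tsupport _) hXsub
  have hXQ : tsupport X ⊆ Q := hXsub.trans hηs
  have hXs : tsupport X ⊆ Ω := hXQ.trans hQΩ
  have hdX : ∀ x v, fderiv ℝ X x v = (-η x) • v + (-(fderiv ℝ η x v)) • x := by
    intro x v
    have h1 : HasFDerivAt η (fderiv ℝ η x) x := (hη.differentiable (by simp) x).hasFDerivAt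
    have h2 : HasFDerivAt (fun y : ℂ => y) (ContinuousLinearMap.id ℝ ℂ) x := hasFDerivAt_id x
    have h3 : HasFDerivAt X _ x := h1.neg.smul h2
    rw [h3.fderiv]
    rfl
  -- near D
  have hDη : ∀ x ∈ D, η x = 1 ∧ fderiv ℝ η x = 0 := by
    intro x hx
    refine ⟨(hη1 x hx).self_of_nhds, ?_⟩
    rw [(hη1 x hx).fderiv_eq]
    simp
  have hdXD : ∀ x ∈ D, ∀ v, fderiv ℝ X x v = -v := by
    intro x hx v
    rw [hdX, (hDη x hx).1, (hDη x hx).2]
    simp
  have hDK : D ⊆ tsupport X := by
    intro x hx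
    by_contra hcon
    have h1 : fderiv ℝ X x = 0 := fderiv_of_notMem_tsupport ℝ hcon
    have h2 := hdXD x hx 1
    rw [h1] at h2
    simp at h2
  set K := tsupport X with hKdef
  have hKm : MeasurableSet K := (isClosed_tsupport X).measurableSet
  have hSK : ∀ x ∈ discSet Ω u, x ∈ K → x ∈ D := fun x hx hxK => hS ⟨hx, hXQ hxK⟩
  set lam : ℂ → ℝ := fun x => -η x + ‖x‖ * ‖fderiv ℝ η x‖ with hlam
  have hl : Continuous lam :=
    hη.continuous.neg.add (continuous_norm.mul (hη.continuous_fderiv (by simp)).norm)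
  have hbd : ∀ x v, inner ℝ (fderiv ℝ X x v) v ≤ lam x * ‖v‖ ^ 2 := by
    intro x v
    rw [hdX, inner_add_left, real_inner_smul_left, real_inner_smul_left,
      real_inner_self_eq_norm_sq, hlam]
    have h1 : -(fderiv ℝ η x v) * inner ℝ x v ≤ (‖fderiv ℝ η x‖ * ‖v‖) * (‖x‖ * ‖v‖) := by
      refine (le_abs_self _).trans ?_
      rw [abs_mul, abs_neg]
      exact mul_le_mul ((fderiv ℝ η x).le_opNorm v) (abs_real_inner_le_norm x v) (abs_nonneg _)
        (by positivity)
    calc _ ≤ -η x * ‖v‖ ^ 2 + (‖fderiv ℝ η x‖ * ‖v‖) * (‖x‖ * ‖v‖) := by linarith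
      _ = _ := by ring
  have hfv := first_variation h hX hXc hXs hl hbd
  rw [← hKdef] at hfv
  -- the volume term
  have hV : ∫ x in K, (‖g x‖ ^ 2 * dv X x - 2 * inner ℝ (fderiv ℝ X x (g x)) (g x)) = 0 := by
    rw [← eafinald_const hX hXc c, ← hKdef]
    refine setIntegral_congr_ae hKm ?_
    filter_upwards [hc] with x hx hxK
    by_cases hxD : x ∈ D
    · have h1 : dv X x = -2 := by
        rw [dv, hdXD x hxD, hdXD x hxD]
        simp
        norm_num
      rw [h1, hdXD x hxD, hdXD x hxD, inner_neg_left, inner_neg_left, real_inner_self_eq_norm_sq,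
        real_inner_self_eq_norm_sq]
      ring
    · rw [hx ⟨hXQ hxK, hxD⟩]
  -- the jump term
  set H : Measure ℂ := μH[1] with hH
  obtain ⟨C, j', hCσ, hCJ, hCnull, -, -⟩ := jump_rep h.toSBVData (isCompact_iff_isClosed_bounded.2
    ⟨isClosed_tsupport X, (hXc : IsCompact (tsupport X)).isBounded⟩) hXs
  rw [← hKdef, ← hH] at hCnull
  rw [← hKdef] at hCJ
  have hCm : MeasurableSet C := by
    obtain ⟨K', hK', hKU⟩ := hCσ
    rw [← hKU]
    exact MeasurableSet.iUnion fun n => (hK' n).measurableSet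
  set S := discSet Ω u with hSdef
  have hJS : jumpSet Ω u ⊆ S := jrep_jump_subset h.isOpen h.intu
  have hfin : H (S ∩ K) < ⊤ := h.fin_S K hXc hXs
  have hT : ∫ x in K, tdiv X j x ∂H = -(H C).toReal := by
    have h1 : ∀ᵐ x ∂H, x ∈ K → tdiv X j x = C.indicator (fun _ => (-1 : ℝ)) x := by
      have h2 : ∀ᵐ x ∂H, x ∉ (jumpSet Ω u ∩ K) \ C := measure_eq_zero_iff_ae_notMem.1 hCnull
      filter_upwards [h2] with x hx hxK
      by_cases hxC : x ∈ C
      · rw [indicator_of_mem hxC, tdiv, hdXD x (hSK x (hJS (hCJ hxC).1) hxK), inner_neg_left,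
          real_inner_self_eq_norm_sq, norm_mul, Complex.norm_I, one_mul, neg_div,
          div_self]
        exact pow_ne_zero 2 (norm_ne_zero_iff.2
          ((jrep_mem_jump_iff h.jf (hXs hxK)).1 (hCJ hxC).1))
      · rw [indicator_of_notMem hxC]
        have h3 : x ∉ jumpSet Ω u := fun h4 => hx ⟨⟨h4, hxK⟩, hxC⟩
        have h5 : j x = 0 := by
          by_contra h6
          exact h3 ((jrep_mem_jump_iff h.jf (hXs hxK)).2 h6)
        rw [tdiv, h5]
        simp
    rw [setIntegral_congr_ae hKm h1, setIntegral_indicator hCm, setIntegral_const,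
      inter_eq_right.2 (fun x hx => (hCJ hx).2)]
    simp [Measure.real]
  have hL : ∫ x in (S \ jumpSet Ω u) ∩ K, lam x ∂H = -(H ((S \ jumpSet Ω u) ∩ K)).toReal := by
    have hm : MeasurableSet {x | lam x = -1} := (isClosed_singleton.preimage hl).measurableSet
    have h1 : ∀ᵐ x ∂(H.restrict ((S \ jumpSet Ω u) ∩ K)), lam x = (-1 : ℝ) := by
      rw [ae_restrict_iff hm]
      refine Eventually.of_forall fun x hx => ?_
      have hxD := hSK x hx.1.1 hx.2
      rw [hlam]
      simp only [(hDη x hxD).1, (hDη x hxD).2]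
      simp
    rw [integral_congr_ae h1, setIntegral_const]
    simp [Measure.real]
  rw [hV, hT, hL] at hfv
  have hC0 : (H C).toReal = 0 := by
    have h1 : 0 ≤ (H C).toReal := ENNReal.toReal_nonneg
    have h2 : 0 ≤ (H ((S \ jumpSet Ω u) ∩ K)).toReal := ENNReal.toReal_nonneg
    linarith
  have hR0 : (H ((S \ jumpSet Ω u) ∩ K)).toReal = 0 := by
    have h1 : 0 ≤ (H C).toReal := ENNReal.toReal_nonneg
    have h2 : 0 ≤ (H ((S \ jumpSet Ω u) ∩ K)).toReal := ENNReal.toReal_nonneg
    linarith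
  have hCS : C ⊆ S ∩ K := fun x hx => ⟨hJS (hCJ hx).1, (hCJ hx).2⟩
  have hC0' : H C = 0 := (ENNReal.toReal_eq_zero_iff _).1 hC0 |>.resolve_right
    ((measure_mono hCS).trans_lt hfin).ne
  have hR0' : H ((S \ jumpSet Ω u) ∩ K) = 0 := (ENNReal.toReal_eq_zero_iff _).1 hR0
    |>.resolve_right ((measure_mono (inter_subset_inter_left _ sdiff_subset)).trans_lt hfin).ne
  have hsub : S ∩ D ⊆ C ∪ ((jumpSet Ω u ∩ K) \ C) ∪ ((S \ jumpSet Ω u) ∩ K) := by
    rintro x ⟨hxS, hxD⟩
    have hxK := hDK hxD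
    by_cases hxJ : x ∈ jumpSet Ω u
    · by_cases hxC : x ∈ C
      · exact Or.inl (Or.inl hxC)
      · exact Or.inl (Or.inr ⟨⟨hxJ, hxK⟩, hxC⟩)
    · exact Or.inr ⟨⟨hxS, hxJ⟩, hxK⟩
  exact measure_mono_null hsub (measure_union_null (measure_union_null hC0' hCnull) hR0')

end Pool.Agent.MP099f24
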