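import Mathlib

/-!
Components of a closed plane set without compact relatively open pieces are unbounded.
-/

open Set Metric Topology

namespace Pool.Agent.MP099f24

theorem ea_comp {K : Set ℂ} (hK : IsClosed K)
    (hno : ∀ C : Set ℂ, IsCompact C → C.Nonempty → C ⊆ K → ¬ IsClosed (K \ C)) {x : ℂ}
    (hx : x ∈ K) : ¬ Bornology.IsBounded (connectedComponentIn K x) := by
  intro hb
  obtain ⟨R, hR⟩ := hb.subset_ball (0 : ℂ)
  have hxR : x ∈ ball (0 : ℂ) R := hR (mem_connectedComponentIn hx)
  set KR : Set ℂ := K ∩ closedBall 0 R with hKR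
  have hKRc : IsCompact KR := (isCompact_closedBall _ _).inter_left hK
  have hxKR : x ∈ KR := ⟨hx, ball_subset_closedBall hxR⟩
  haveI : CompactSpace KR := isCompact_iff_compactSpace.mp hKRc
  let x' : KR := ⟨x, hxKR⟩
  have hU : IsOpen ((Subtype.val : KR → ℂ) ⁻¹' ball 0 R) :=
    isOpen_ball.preimage continuous_subtype_val
  have hcc : connectedComponent x' ⊆ (Subtype.val : KR → ℂ) ⁻¹' ball 0 R := by
    have h1 : (Subtype.val : KR → ℂ) '' connectedComponent x' ⊆ connectedComponentIn K x := by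
      apply IsPreconnected.subset_connectedComponentIn
      · exact isPreconnected_connectedComponent.image _ continuous_subtype_val.continuousOn
      · exact ⟨x', mem_connectedComponent, rfl⟩
      · rintro _ ⟨y, _, rfl⟩
        exact y.2.1
    intro y hy
    exact hR (h1 ⟨y, hy, rfl⟩)
  obtain ⟨s, hs⟩ : ∃ s : { s : Set KR // IsClopen s ∧ x' ∈ s },
      (s : Set KR) ⊆ (Subtype.val : KR → ℂ) ⁻¹' ball 0 R := by
    haveI : Nonempty { s : Set KR // IsClopen s ∧ x' ∈ s } :=
      ⟨⟨univ, isClopen_univ, mem_univ _⟩⟩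
    apply exists_subset_nhds_of_compactSpace
    · intro a b
      refine ⟨⟨a.1 ∩ b.1, a.2.1.inter b.2.1, a.2.2, b.2.2⟩, inter_subset_left, inter_subset_right⟩
    · intro i
      exact i.2.1.isClosed
    · intro y hy
      rw [← connectedComponent_eq_iInter_isClopen] at hy
      exact hU.mem_nhds (hcc hy)
  have hsc : IsCompact ((Subtype.val : KR → ℂ) '' (s : Set KR)) :=
    (s.2.1.isClosed.isCompact).image continuous_subtype_val
  refine hno ((Subtype.val : KR → ℂ) '' (s : Set KR)) hsc ⟨x, x', s.2.2, rfl⟩ ?_ ?_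
  · rintro _ ⟨y, _, rfl⟩
    exact y.2.1
  · have hEq : K \ ((Subtype.val : KR → ℂ) '' (s : Set KR)) =
        ((Subtype.val : KR → ℂ) '' (s : Set KR)ᶜ) ∪ (K ∩ (ball (0 : ℂ) R)ᶜ) := by
      ext z
      constructor
      · rintro ⟨hz, hzs⟩
        by_cases hzR : z ∈ ball (0 : ℂ) R
        · left
          exact ⟨⟨z, hz, ball_subset_closedBall hzR⟩, fun h => hzs ⟨_, h, rfl⟩, rfl⟩
        · exact Or.inr ⟨hz, hzR⟩
      · rintro (⟨y, hy, rfl⟩ | ⟨hz, hzR⟩)
        · refine ⟨y.2.1, ?_⟩
          rintro ⟨y', hy', h⟩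
          have := Subtype.val_injective h
          subst this
          exact hy hy'
        · refine ⟨hz, ?_⟩
          rintro ⟨y, hy, rfl⟩
          exact hzR (hs hy)
    rw [hEq]
    refine IsClosed.union ?_ (hK.inter isOpen_ball.isClosed_compl)
    exact ((s.2.1.compl.isClosed.isCompact).image continuous_subtype_val).isClosed

end Pool.Agent.MP099f24
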