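import Mathlib
import Pool.Agent.Lib.MP_099f24_an.EA.Defs
import Pool.Agent.Lib.MP_099f24_an.SD.Asm
import Pool.Agent.Lib.MP_099f24_an.SD.Fin
import Pool.Agent.Lib.MP_099f24_an.SD.Meass

/-!
# `𝓗¹(closure S \ S) = 0` for local minimizers of the Mumford-Shah energy
-/

namespace Pool.Agent.MP099f24

open MeasureTheory Filter Topology Set Metric
open scoped ENNReal ContDiff

/-- A set each of whose points has a linear lower density bound for a finite measure `m` with
`m E = 0` is `𝓗¹`-null. -/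
theorem eaclos_null {m : Measure ℂ} [IsFiniteMeasure m] {E : Set ℂ} {ρ : ℝ} (hρ : 0 < ρ)
    (hE0 : m E = 0)
    (hlow : ∀ x ∈ E, ∀ r : ℝ, 0 < r → r < ρ → ENNReal.ofReal (2 * r) ≤ m (ball x r)) :
    (μH[1] : Measure ℂ) E = 0 := by
  -- coverings
  have key : ∀ δ : ℝ, 0 < δ → ∃ (v : Set ℂ) (r : ℂ → ℝ), v.Countable ∧
      (∀ b ∈ v, 0 < r b) ∧ (∀ b ∈ v, 10 * r b ≤ δ) ∧ (E ⊆ ⋃ b ∈ v, closedBall b (5 * r b)) ∧
      ∑' b : v, ENNReal.ofReal (10 * r b) ≤ ENNReal.ofReal (5 * δ) := by
    intro δ hδ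
    obtain ⟨O, hEO, hO, hmO⟩ := Set.exists_isOpen_lt_of_lt (μ := m) E (ENNReal.ofReal δ)
      (by rw [hE0]; exact ENNReal.ofReal_pos.2 hδ)
    have hr : ∀ x : ℂ, ∃ r : ℝ, x ∈ E → 0 < r ∧ 10 * r ≤ δ ∧ r < ρ ∧ closedBall x r ⊆ O := by
      intro x
      by_cases hx : x ∈ E
      · obtain ⟨η, hη, hηO⟩ := Metric.isOpen_iff.1 hO x (hEO hx)
        refine ⟨min (min (δ / 10) (ρ / 2)) (η / 2), fun _ => ⟨?_, ?_, ?_, ?_⟩⟩
        · positivity
        · have := (min_le_left (min (δ / 10) (ρ / 2)) (η / 2)).trans (min_le_left _ _)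
          linarith
        · have := (min_le_left (min (δ / 10) (ρ / 2)) (η / 2)).trans (min_le_right _ _)
          linarith
        · refine (closedBall_subset_ball ?_).trans hηO
          have := min_le_right (min (δ / 10) (ρ / 2)) (η / 2)
          linarith
      · exact ⟨1, fun h => absurd h hx⟩
    choose r hr using hr
    obtain ⟨v, hvE, hdisj, hcov⟩ :=
      Vitali.exists_disjoint_subfamily_covering_enlargement_closedBall E (fun x : ℂ => x) r
        (δ / 10) (fun a ha => by have := (hr a ha).2.1; linarith) 5 (by norm_num)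
    have hcount : v.Countable := by
      refine hdisj.countable_of_nonempty_interior fun a ha => ?_
      have hra := (hr a (hvE ha)).1
      exact ⟨a, ball_subset_interior_closedBall (mem_ball_self hra)⟩
    refine ⟨v, r, hcount, fun b hb => (hr b (hvE hb)).1, fun b hb => (hr b (hvE hb)).2.1, ?_, ?_⟩
    · intro x hx
      obtain ⟨b, hb, hsub⟩ := hcov x hx
      exact mem_biUnion hb (hsub (mem_closedBall_self (hr x hx).1.le))
    · have hcount' : Countable v := hcount.to_subtype
      have h1 : ∀ b : v, ENNReal.ofReal (10 * r b) ≤ 5 * m (closedBall (b : ℂ) (r b)) := by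
        intro b
        obtain ⟨h2, h3, h4, h5⟩ := hr b (hvE b.2)
        have h6 := (hlow b (hvE b.2) (r b) h2 h4).trans (measure_mono ball_subset_closedBall)
        calc ENNReal.ofReal (10 * r b) = 5 * ENNReal.ofReal (2 * r b) := by
              rw [show (5 : ℝ≥0∞) = ENNReal.ofReal 5 by simp, ← ENNReal.ofReal_mul (by norm_num)]
              congr 1
              ring
          _ ≤ _ := by gcongr
      calc ∑' b : v, ENNReal.ofReal (10 * r b)
          ≤ ∑' b : v, 5 * m (closedBall (b : ℂ) (r b)) := ENNReal.tsum_le_tsum h1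
        _ = 5 * ∑' b : v, m (closedBall (b : ℂ) (r b)) := ENNReal.tsum_mul_left
        _ = 5 * m (⋃ b : v, closedBall (b : ℂ) (r b)) := by
              rw [measure_iUnion]
              · intro a b hab
                exact hdisj a.2 b.2 (fun h => hab (Subtype.ext h))
              · exact fun b => isClosed_closedBall.measurableSet
        _ ≤ 5 * m O := by
              gcongr
              exact iUnion_subset fun b => (hr b (hvE b.2)).2.2.2
        _ ≤ 5 * ENNReal.ofReal δ := by gcongr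
        _ = ENNReal.ofReal (5 * δ) := by
              rw [ENNReal.ofReal_mul (by norm_num)]
              simp
  have hpos : ∀ n : ℕ, (0 : ℝ) < 1 / ((n : ℝ) + 1) := fun n => by positivity
  choose v r hcount hrpos hrle hcov hsum using fun n : ℕ => key (1 / ((n : ℝ) + 1)) (hpos n)
  have hcountable : ∀ n, Countable (v n) := fun n => (hcount n).to_subtype
  have hlim : Tendsto (fun n : ℕ => 1 / ((n : ℝ) + 1)) atTop (𝓝 0) :=
    tendsto_one_div_add_atTop_nhds_zero_nat
  have hdiam : ∀ n (b : v n), ediam (closedBall (b : ℂ) (5 * r n b)) ≤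
      ENNReal.ofReal (10 * r n b) := by
    intro n b
    refine Metric.ediam_le_of_forall_dist_le fun x hx y hy => ?_
    have h1 := mem_closedBall.1 hx
    have h2 := mem_closedBall.1 hy
    have := dist_triangle_right x y (b : ℂ)
    linarith
  have h1 := Measure.hausdorffMeasure_le_liminf_tsum (ι := fun n => v n) 1 E (l := atTop)
    (fun n : ℕ => ENNReal.ofReal (1 / ((n : ℝ) + 1)))
    (by simpa using ENNReal.tendsto_ofReal hlim)
    (fun n b => closedBall (b : ℂ) (5 * r n b))
    (Eventually.of_forall fun n b => (hdiam n b).trans (ENNReal.ofReal_le_ofReal (hrle n b b.2)))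
    (Eventually.of_forall fun n => by
      intro x hx
      obtain ⟨b, hb, hxb⟩ := mem_iUnion₂.1 (hcov n hx)
      exact mem_iUnion.2 ⟨⟨b, hb⟩, hxb⟩)
  refine le_antisymm (h1.trans ?_) bot_le
  have h2 : Tendsto (fun n : ℕ => ENNReal.ofReal (5 * (1 / ((n : ℝ) + 1)))) atTop (𝓝 0) := by
    simpa using ENNReal.tendsto_ofReal (hlim.const_mul 5)
  rw [← h2.liminf_eq]
  refine liminf_le_liminf (Eventually.of_forall fun n => ?_)
  refine le_trans (ENNReal.tsum_le_tsum fun b => ?_) (hsum n)
  rw [ENNReal.rpow_one]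
  exact hdiam n b

/-- Points with a linear lower density bound for a finite measure form a Lebesgue null set. -/
theorem eaclos_leb {m : Measure ℂ} [IsFiniteMeasure m] {N : Set ℂ} {ρ : ℝ} (hρ : 0 < ρ)
    (hlow : ∀ x ∈ N, ∀ r : ℝ, 0 < r → r < ρ → ENNReal.ofReal (2 * r) ≤ m (ball x r)) :
    (volume : Measure ℂ) N = 0 := by
  have h1 := Besicovitch.ae_tendsto_rnDeriv m (volume : Measure ℂ)
  have h2 := Measure.rnDeriv_lt_top m (volume : Measure ℂ)
  have h3 : ∀ᵐ x ∂(volume : Measure ℂ), x ∉ N := by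
    filter_upwards [h1, h2] with x hx1 hx2 hxN
    have h4 : Tendsto (fun r : ℝ => ENNReal.ofReal (2 / (Real.pi * r))) (𝓝[>] 0) (𝓝 ⊤) := by
      refine ENNReal.tendsto_ofReal_nhds_top.2 ?_
      have h5 : Tendsto (fun r : ℝ => r⁻¹) (𝓝[>] 0) atTop := tendsto_inv_nhdsGT_zero
      have h6 := h5.const_mul_atTop (show (0 : ℝ) < 2 / Real.pi by positivity)
      refine h6.congr fun r => ?_
      rw [div_mul_eq_div_div, div_eq_mul_inv (2 / Real.pi) r]
    have h7 : ∀ᶠ r : ℝ in 𝓝[>] 0, ENNReal.ofReal (2 / (Real.pi * r)) ≤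
        m (closedBall x r) / (volume : Measure ℂ) (closedBall x r) := by
      filter_upwards [Ioo_mem_nhdsGT hρ] with r hr
      have h8 := (hlow x hxN r hr.1 hr.2).trans (measure_mono ball_subset_closedBall)
      have h9 : (volume : Measure ℂ) (closedBall x r) = ENNReal.ofReal (Real.pi * r ^ 2) := by
        rw [Complex.volume_closedBall, ← ENNReal.ofReal_pow hr.1.le, mul_comm]
        rw [ENNReal.ofReal_mul Real.pi_pos.le]
        congr 1
        rw [ENNReal.ofReal, Real.toNNReal_of_nonneg Real.pi_pos.le]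
        rfl
      rw [h9]
      have hr0 := hr.1
      have hpi := Real.pi_pos
      calc ENNReal.ofReal (2 / (Real.pi * r)) =
            ENNReal.ofReal (2 * r) / ENNReal.ofReal (Real.pi * r ^ 2) := by
            rw [← ENNReal.ofReal_div_of_pos (by positivity)]
            congr 1
            field_simp
        _ ≤ _ := by gcongr
    have h10 : ⊤ ≤ m.rnDeriv (volume : Measure ℂ) x := le_of_tendsto_of_tendsto h4 hx1 h7
    exact absurd hx2 (not_lt.2 h10)
  rw [ae_iff] at h3
  simpa using h3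

theorem ea_clos {Ω : Set ℂ} {u : ℂ → ℝ} {g j : ℂ → ℂ} (h : MSMin Ω u g j) :
    (μH[1] : Measure ℂ) ((Ω ∩ closure (discSet Ω u)) \ discSet Ω u) = 0 := by
  refine measure_null_of_locally_null _ fun x hx => ?_
  have hS : MeasurableSet (discSet Ω u) := measurableSet_discSet h.isOpen h.intu
  obtain ⟨η, hη, hηΩ⟩ := Metric.isOpen_iff.1 h.isOpen x hx.1.1
  obtain ⟨ρ, hρ, hρη⟩ : ∃ ρ : ℝ, 0 < ρ ∧ 3 * ρ < η := ⟨η / 4, by positivity, by linarith⟩
  refine ⟨((Ω ∩ closure (discSet Ω u)) \ discSet Ω u) ∩ ball x ρ,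
    inter_mem_nhdsWithin _ (ball_mem_nhds x hρ), ?_⟩
  have hK : closedBall x (2 * ρ) ⊆ Ω := (closedBall_subset_ball (by linarith)).trans hηΩ
  have hKc : IsCompact (closedBall x (2 * ρ)) := isCompact_closedBall x (2 * ρ)
  have hKm : MeasurableSet (closedBall x (2 * ρ)) := isClosed_closedBall.measurableSet
  have hfin : IsFiniteMeasure ((enM Ω u g).restrict (closedBall x (2 * ρ))) := by
    refine ⟨?_⟩
    rw [Measure.restrict_apply_univ, ← en_eq hKm, en, en_lintegral (h.fin_g _ hKc hK)]
    exact ENNReal.add_lt_top.2 ⟨ENNReal.ofReal_lt_top, h.fin_S _ hKc hK⟩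
  have hlow : ∀ y ∈ (Ω ∩ closure (discSet Ω u)) ∩ ball x ρ, ∀ r : ℝ, 0 < r → r < ρ →
      ENNReal.ofReal (2 * r) ≤ (enM Ω u g).restrict (closedBall x (2 * ρ)) (ball y r) := by
    intro y hy r hr hrρ
    have hyx : dist y x < ρ := hy.2
    have hsub : ball y r ⊆ closedBall x (2 * ρ) := by
      intro z hz
      have h1 := mem_ball.1 hz
      have h2 := dist_triangle z y x
      exact mem_closedBall.2 (by linarith)
    have hyρ : ball y ρ ⊆ Ω := by
      refine Subset.trans ?_ hK
      intro z hz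
      have h1 := mem_ball.1 hz
      have h2 := dist_triangle z y x
      exact mem_closedBall.2 (by linarith)
    rw [Measure.restrict_apply measurableSet_ball, inter_eq_left.2 hsub,
      ← en_eq measurableSet_ball, en_ball h.toSBVData hyρ hrρ]
    exact ENNReal.ofReal_le_ofReal (asm_lower h hyρ hy.1.1 hy.1.2 ⟨hr, hrρ⟩)
  have hvol := eaclos_leb (N := (Ω ∩ closure (discSet Ω u)) ∩ ball x ρ) hρ hlow
  refine eaclos_null (m := (enM Ω u g).restrict (closedBall x (2 * ρ))) hρ ?_
    fun y hy => hlow y ⟨hy.1.1, hy.2⟩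
  have hNS : MeasurableSet (((Ω ∩ closure (discSet Ω u)) \ discSet Ω u) ∩ ball x ρ) :=
    ((h.isOpen.measurableSet.inter isClosed_closure.measurableSet).diff hS).inter
      measurableSet_ball
  refine le_antisymm ((Measure.restrict_apply_le _ _).trans ?_) bot_le
  rw [← en_eq hNS, en]
  have h1 : (volume : Measure ℂ) (((Ω ∩ closure (discSet Ω u)) \ discSet Ω u) ∩ ball x ρ) = 0 :=
    measure_mono_null (inter_subset_inter_left _ sdiff_subset) hvol
  have h2 : discSet Ω u ∩ (((Ω ∩ closure (discSet Ω u)) \ discSet Ω u) ∩ ball x ρ) = ∅ := by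
    ext y
    simp only [mem_inter_iff, Set.mem_sdiff, mem_empty_iff_false, iff_false]
    rintro ⟨h3, ⟨_, h4⟩, _⟩
    exact h4 h3
  rw [h2, measure_empty, add_zero, setLIntegral_measure_zero _ _ h1]

end Pool.Agent.MP099f24
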