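import Pool.Agent.Lib.MP_099f24_an.SD.Remov
import Pool.Agent.Lib.MP_099f24_an.SD.Asm
import Pool.Agent.Lib.MP_099f24_an.EA.Defs

/-!
# MP_099f24_an EA, module HARM: off the closure of the discontinuity set the gradient of a local
minimizer is the conjugate of a holomorphic function
-/

namespace Pool.Agent.MP099f24

open MeasureTheory Filter Topology Set Metric
open scoped ENNReal ContDiff Convolution

section
variable {Ω : Set ℂ} {u : ℂ → ℝ} {g j : ℂ → ℂ}

/-- the set `V = Ω \ closure S` -/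
theorem eaharm_open (hΩ : IsOpen Ω) : IsOpen (Ω \ closure (discSet Ω u)) :=
  hΩ.sdiff isClosed_closure

theorem eaharm_int {E : Type*} [NormedAddCommGroup E] [NormedSpace ℝ E] {G : ℂ → E}
    (hg : LocallyIntegrableOn G Ω) (hΩ : IsOpen Ω) {ψ : ℂ → ℝ} (hψ : Continuous ψ)
    (hc : HasCompactSupport ψ) (hs : tsupport ψ ⊆ Ω) :
    IntegrableOn (fun x => ψ x • G x) Ω := by
  have h1 : IntegrableOn G (tsupport ψ) := hg.integrableOn_compact_subset hs hc
  have h2 : IntegrableOn (fun x => ψ x • G x) (tsupport ψ) :=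
    h1.continuousOn_smul hψ.continuousOn hc
  refine h2.of_forall_sdiff_eq_zero hΩ.measurableSet ?_
  intro x hx
  rw [image_eq_zero_of_notMem_tsupport hx.2, zero_smul]

theorem eaharm_fd (φ : ℂ → ℝ) (x z : ℂ) :
    fderiv ℝ φ x z = z.re * fderiv ℝ φ x 1 + z.im * fderiv ℝ φ x Complex.I := by
  have h1 : z = z.re • (1 : ℂ) + z.im • Complex.I := by
    apply Complex.ext <;> simp
  conv_lhs => rw [h1, map_add, map_smul, map_smul]
  simp

theorem eaharm_div (h : MSMin Ω u g j) {φ : ℂ → ℝ} (hφ : ContDiff ℝ ∞ φ)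
    (hc : HasCompactSupport φ) (hs : tsupport φ ⊆ Ω) :
    ∫ x in Ω, ((g x).re * fderiv ℝ φ x 1 + (g x).im * fderiv ℝ φ x Complex.I) = 0 := by
  have h3 := outer_variation h hφ hc hs (κ := fun _ => 1) contDiff_const
        (M := 1) (fun t => by simp)
  rw [← h3]
  refine integral_congr_ae (Eventually.of_forall fun y => ?_)
  simp only
  rw [← eaharm_fd]
  simp

theorem eaharm_symm {φ : ℂ → ℝ} (hφ : ContDiff ℝ ∞ φ) (x v w : ℂ) :
    fderiv ℝ (fun y => fderiv ℝ φ y v) x w = fderiv ℝ (fun y => fderiv ℝ φ y w) x v := by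
  have hd : DifferentiableAt ℝ (fderiv ℝ φ) x :=
    ((hφ.fderiv_right (m := ∞) (by simp)).differentiable (by simp)) x
  have e : ∀ a b : ℂ, fderiv ℝ (fun y => fderiv ℝ φ y a) x b = fderiv ℝ (fderiv ℝ φ) x b a := by
    intro a b
    have h1 := hd.hasFDerivAt.clm_apply (hasFDerivAt_const a x)
    rw [h1.fderiv]
    simp
  rw [e, e]
  have h2 : IsSymmSndFDerivAt ℝ φ x := (hφ.contDiffAt).isSymmSndFDerivAt (by
    rw [minSmoothness_of_isRCLikeNormedField]; exact WithTop.coe_le_coe.2 le_top)
  exact h2 w v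

theorem eaharm_j (h : SBVData Ω u g j) {x : ℂ} (hx : x ∈ Ω \ closure (discSet Ω u)) :
    j x = 0 := by
  rcases h.jf x hx.1 with ⟨a, b, ν, h7, _⟩ | h7
  · exact absurd (subset_closure (asm_jump_sub h ⟨hx.1, a, b, ν, h7⟩)) hx.2
  · exact h7.2

theorem eaharm_form (h : SBVData Ω u g j) {φ : ℂ → ℝ} (hφ : ContDiff ℝ ∞ φ)
    (hc : HasCompactSupport φ) (hs : tsupport φ ⊆ Ω \ closure (discSet Ω u)) (v : ℂ) :
    ∫ x in Ω, u x * fderiv ℝ φ x v = - ∫ x in Ω, φ x * inner ℝ (g x) v := by
  rw [h.form φ hφ hc (hs.trans sdiff_subset) v]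
  have h4 : ∫ x in Ω, φ x * inner ℝ (j x) v ∂(μH[1] : Measure ℂ) = 0 := by
    apply integral_eq_zero_of_ae
    refine Eventually.of_forall fun y => ?_
    by_cases hy : y ∈ tsupport φ
    · simp [eaharm_j h (hs hy)]
    · simp [image_eq_zero_of_notMem_tsupport hy]
  rw [h4, sub_zero]

theorem eaharm_curl (h : SBVData Ω u g j) {φ : ℂ → ℝ} (hφ : ContDiff ℝ ∞ φ)
    (hc : HasCompactSupport φ) (hs : tsupport φ ⊆ Ω \ closure (discSet Ω u)) :
    ∫ x in Ω, ((g x).re * fderiv ℝ φ x Complex.I - (g x).im * fderiv ℝ φ x 1) = 0 := by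
  have hsm : ∀ v : ℂ, ContDiff ℝ ∞ (fun x => fderiv ℝ φ x v) := remov_fd_smooth hφ
  have hts : ∀ v : ℂ, tsupport (fun x => fderiv ℝ φ x v) ⊆ tsupport φ :=
    fun v => tsupport_fderiv_apply_subset ℝ v
  have hcs : ∀ v : ℂ, HasCompactSupport (fun x => fderiv ℝ φ x v) :=
    fun v => IsCompact.of_isClosed_subset hc (isClosed_tsupport _) (hts v)
  have h1 := eaharm_form h (hsm Complex.I) (hcs Complex.I) ((hts Complex.I).trans hs) 1
  have h2 := eaharm_form h (hsm 1) (hcs 1) ((hts 1).trans hs) Complex.I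
  simp only [eaharm_symm hφ _ Complex.I 1] at h1
  rw [h2, neg_inj] at h1
  have hgr : LocallyIntegrableOn (fun x => (g x).re) Ω := fun x hx =>
    Complex.reCLM.integrableAtFilter_comp (h.intg x hx)
  have hgi : LocallyIntegrableOn (fun x => (g x).im) Ω := fun x hx =>
    Complex.imCLM.integrableAtFilter_comp (h.intg x hx)
  have i1 := eaharm_int hgr h.isOpen (hsm Complex.I).continuous (hcs Complex.I)
    ((hts Complex.I).trans (hs.trans sdiff_subset))
  have i2 := eaharm_int hgi h.isOpen (hsm 1).continuous (hcs 1)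
    ((hts 1).trans (hs.trans sdiff_subset))
  simp only [smul_eq_mul] at i1 i2
  have e1 : ∀ x, (g x).re * fderiv ℝ φ x Complex.I - (g x).im * fderiv ℝ φ x 1 =
      fderiv ℝ φ x Complex.I * (g x).re - fderiv ℝ φ x 1 * (g x).im := fun x => by ring
  simp only [e1]
  rw [integral_sub i1 i2]
  have e2 : ∀ x, inner ℝ (g x) (1 : ℂ) = (g x).re := fun x => by simp [Complex.inner]
  have e3 : ∀ x, inner ℝ (g x) Complex.I = (g x).im := fun x => by simp [Complex.inner]
  simp only [e2, e3] at h1
  rw [h1]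
  ring

/-- weak harmonicity of the components of the gradient -/
theorem eaharm_weak (h : MSMin Ω u g j) {φ : ℂ → ℝ} (hφ : ContDiff ℝ ∞ φ)
    (hc : HasCompactSupport φ) (hs : tsupport φ ⊆ Ω \ closure (discSet Ω u)) :
    (∫ x in Ω \ closure (discSet Ω u), (g x).re * (fderiv ℝ (fun y => fderiv ℝ φ y 1) x 1 +
        fderiv ℝ (fun y => fderiv ℝ φ y Complex.I) x Complex.I) = 0) ∧
    (∫ x in Ω \ closure (discSet Ω u), (g x).im * (fderiv ℝ (fun y => fderiv ℝ φ y 1) x 1 +
        fderiv ℝ (fun y => fderiv ℝ φ y Complex.I) x Complex.I) = 0) := by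
  have hV := eaharm_open (u := u) h.isOpen
  have hsm : ∀ v : ℂ, ContDiff ℝ ∞ (fun x => fderiv ℝ φ x v) := remov_fd_smooth hφ
  have hts : ∀ v : ℂ, tsupport (fun x => fderiv ℝ φ x v) ⊆ tsupport φ :=
    fun v => tsupport_fderiv_apply_subset ℝ v
  have hcs : ∀ v : ℂ, HasCompactSupport (fun x => fderiv ℝ φ x v) :=
    fun v => IsCompact.of_isClosed_subset hc (isClosed_tsupport _) (hts v)
  have hgr : LocallyIntegrableOn (fun x => (g x).re) Ω := fun x hx =>
    Complex.reCLM.integrableAtFilter_comp (h.intg x hx)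
  have hgi : LocallyIntegrableOn (fun x => (g x).im) Ω := fun x hx =>
    Complex.imCLM.integrableAtFilter_comp (h.intg x hx)
  -- integrability of products of second derivatives of φ with components of `g`
  have hsm2 : ∀ v w : ℂ, ContDiff ℝ ∞ (fun x => fderiv ℝ (fun y => fderiv ℝ φ y v) x w) :=
    fun v w => remov_fd_smooth (hsm v) w
  have hts2 : ∀ v w : ℂ, tsupport (fun x => fderiv ℝ (fun y => fderiv ℝ φ y v) x w) ⊆
      tsupport φ := fun v w => (tsupport_fderiv_apply_subset ℝ w).trans (hts v)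
  have hcs2 : ∀ v w : ℂ, HasCompactSupport
      (fun x => fderiv ℝ (fun y => fderiv ℝ φ y v) x w) :=
    fun v w => IsCompact.of_isClosed_subset hc (isClosed_tsupport _) (hts2 v w)
  have ir : ∀ v w : ℂ, IntegrableOn
      (fun x => fderiv ℝ (fun y => fderiv ℝ φ y v) x w * (g x).re) Ω := fun v w =>
    eaharm_int hgr h.isOpen (hsm2 v w).continuous (hcs2 v w)
      ((hts2 v w).trans (hs.trans sdiff_subset))
  have ii : ∀ v w : ℂ, IntegrableOn
      (fun x => fderiv ℝ (fun y => fderiv ℝ φ y v) x w * (g x).im) Ω := fun v w =>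
    eaharm_int hgi h.isOpen (hsm2 v w).continuous (hcs2 v w)
      ((hts2 v w).trans (hs.trans sdiff_subset))
  have d1 := eaharm_div h (hsm 1) (hcs 1) ((hts 1).trans (hs.trans sdiff_subset))
  have d2 := eaharm_div h (hsm Complex.I) (hcs Complex.I)
    ((hts Complex.I).trans (hs.trans sdiff_subset))
  have c1 := eaharm_curl h.toSBVData (hsm 1) (hcs 1) ((hts 1).trans hs)
  have c2 := eaharm_curl h.toSBVData (hsm Complex.I) (hcs Complex.I) ((hts Complex.I).trans hs)
  have hres : ∀ G : ℂ → ℝ, ∫ x in Ω \ closure (discSet Ω u),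
      G x * (fderiv ℝ (fun y => fderiv ℝ φ y 1) x 1 +
        fderiv ℝ (fun y => fderiv ℝ φ y Complex.I) x Complex.I) =
      ∫ x in Ω, G x * (fderiv ℝ (fun y => fderiv ℝ φ y 1) x 1 +
        fderiv ℝ (fun y => fderiv ℝ φ y Complex.I) x Complex.I) := by
    intro G
    symm
    apply setIntegral_eq_of_subset_of_forall_sdiff_eq_zero h.isOpen.measurableSet sdiff_subset
    intro y hy
    have h1 : fderiv ℝ (fun y => fderiv ℝ φ y 1) y 1 = 0 :=
      image_eq_zero_of_notMem_tsupport (f := fun x => fderiv ℝ (fun y => fderiv ℝ φ y 1) x 1)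
        fun h' => hy.2 (hs (hts2 1 1 h'))
    have h2 : fderiv ℝ (fun y => fderiv ℝ φ y Complex.I) y Complex.I = 0 :=
      image_eq_zero_of_notMem_tsupport
        (f := fun x => fderiv ℝ (fun y => fderiv ℝ φ y Complex.I) x Complex.I)
        fun h' => hy.2 (hs (hts2 Complex.I Complex.I h'))
    rw [h1, h2]
    simp
  constructor
  · rw [hres]
    have e1 : ∫ x in Ω, (g x).re * (fderiv ℝ (fun y => fderiv ℝ φ y 1) x 1 +
        fderiv ℝ (fun y => fderiv ℝ φ y Complex.I) x Complex.I) =
        (∫ x in Ω, ((g x).re * fderiv ℝ (fun y => fderiv ℝ φ y 1) x 1 +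
          (g x).im * fderiv ℝ (fun y => fderiv ℝ φ y 1) x Complex.I)) +
        ∫ x in Ω, ((g x).re * fderiv ℝ (fun y => fderiv ℝ φ y Complex.I) x Complex.I -
          (g x).im * fderiv ℝ (fun y => fderiv ℝ φ y Complex.I) x 1) := by
      rw [← integral_add]
      · refine integral_congr_ae (Eventually.of_forall fun x => ?_)
        simp only
        rw [eaharm_symm hφ x Complex.I 1]
        ring
      · refine ((ir 1 1).add (ii 1 Complex.I)).congr (Eventually.of_forall fun x => ?_)
        simp only [Pi.add_apply]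
        ring
      · refine ((ir Complex.I Complex.I).sub (ii Complex.I 1)).congr
          (Eventually.of_forall fun x => ?_)
        simp only [Pi.sub_apply]
        ring
    rw [e1, d1, c2, add_zero]
  · rw [hres]
    have e1 : ∫ x in Ω, (g x).im * (fderiv ℝ (fun y => fderiv ℝ φ y 1) x 1 +
        fderiv ℝ (fun y => fderiv ℝ φ y Complex.I) x Complex.I) =
        (∫ x in Ω, ((g x).re * fderiv ℝ (fun y => fderiv ℝ φ y Complex.I) x 1 +
          (g x).im * fderiv ℝ (fun y => fderiv ℝ φ y Complex.I) x Complex.I)) -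
        ∫ x in Ω, ((g x).re * fderiv ℝ (fun y => fderiv ℝ φ y 1) x Complex.I -
          (g x).im * fderiv ℝ (fun y => fderiv ℝ φ y 1) x 1) := by
      rw [← integral_sub]
      · refine integral_congr_ae (Eventually.of_forall fun x => ?_)
        simp only
        rw [eaharm_symm hφ x Complex.I 1]
        ring
      · refine ((ir Complex.I 1).add (ii Complex.I Complex.I)).congr
          (Eventually.of_forall fun x => ?_)
        simp only [Pi.add_apply]
        ring
      · refine ((ir 1 Complex.I).sub (ii 1 1)).congr (Eventually.of_forall fun x => ?_)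
        simp only [Pi.sub_apply]
        ring
    rw [e1, d2, c1, sub_zero]

end

/-- the formula for the representative in Weyl's lemma -/
theorem eaharm_repr {U : Set ℂ} (hU : IsOpen U) {u : ℂ → ℝ} (hu : LocallyIntegrableOn u U)
    (h : ∀ φ : ℂ → ℝ, ContDiff ℝ ∞ φ → HasCompactSupport φ → tsupport φ ⊆ U →
      ∫ x in U, u x * (fderiv ℝ (fun y => fderiv ℝ φ y 1) x 1 +
        fderiv ℝ (fun y => fderiv ℝ φ y Complex.I) x Complex.I) = 0) {x₀ : ℂ} {R : ℝ}
    (hR0 : 0 < R) (hKU : closedBall x₀ (2 * R) ⊆ U) :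
    ∀ᵐ x ∂volume.restrict (ball x₀ R), u x =
      weyl_v ((closedBall x₀ (2 * R)).indicator u) (1 / R ^ 2) x /
        (∫ z : ℂ, weyl_k (‖z‖ ^ 2)) := by
  have hwi : Integrable ((closedBall x₀ (2 * R)).indicator u) :=
    (integrable_indicator_iff measurableSet_closedBall).2
      (hu.integrableOn_compact_subset hKU (isCompact_closedBall _ _))
  obtain ⟨w, hw⟩ : ∃ w, w = (closedBall x₀ (2 * R)).indicator u := ⟨_, rfl⟩
  rw [← hw] at hwi ⊢
  have hcpos := weyl_const_pos
  have hR2 : 1 / (2 * R ^ 2) < 1 / R ^ 2 := by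
    apply one_div_lt_one_div_of_lt (by positivity)
    nlinarith [pow_pos hR0 2]
  have hleb := VitaliFamily.ae_tendsto_average_norm_sub
    (Besicovitch.vitaliFamily (volume : Measure ℂ)) hwi.locallyIntegrable
  filter_upwards [ae_restrict_of_ae hleb, ae_restrict_mem measurableSet_ball] with x hx hxb
  have h1 := weyl_lim hwi (hx.comp (Besicovitch.tendsto_filterAt volume x))
  have hxb' : dist x x₀ < R := hxb
  have hsub : closedBall x R ⊆ closedBall x₀ (2 * R) :=
    closedBall_subset_closedBall' (by linarith)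
  have hwu : ∀ y ∈ closedBall x R, w y = u y := by
    intro y hy
    rw [hw, indicator_of_mem (hsub hy)]
  have h2 : ∀ᶠ r : ℝ in 𝓝[>] 0, weyl_v w (1 / (2 * r ^ 2)) x = weyl_v w (1 / R ^ 2) x := by
    filter_upwards [self_mem_nhdsWithin, mem_nhdsWithin_of_mem_nhds (Iio_mem_nhds hR0)]
      with r hr hrR
    have hr : 0 < r := hr
    have hrR : r < R := hrR
    refine weyl_indep h hU hwi hR0 (hsub.trans hKU) hwu ?_ hR2
    apply one_div_lt_one_div_of_lt (by positivity)
    have := pow_lt_pow_left₀ hrR hr.le two_ne_zero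
    linarith
  have h3 : (∫ z : ℂ, weyl_k (‖z‖ ^ 2)) * w x = weyl_v w (1 / R ^ 2) x :=
    tendsto_nhds_unique (h1.congr' h2) tendsto_const_nhds
  rw [← hwu x (mem_closedBall_self hR0.le), ← h3, mul_div_cancel_left₀ _ hcpos.ne']

/-- the mollification kernel -/
noncomputable def eaharm_ker (a : ℝ) (z : ℂ) : ℝ := a * weyl_k (a * ‖z‖ ^ 2)

theorem eaharm_ker_smooth (a : ℝ) : ContDiff ℝ ∞ (eaharm_ker a) := by
  have h1 : ContDiff ℝ ∞ (fun z : ℂ => a * ‖z‖ ^ 2) :=
    contDiff_const.mul (contDiff_norm_sq ℝ)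
  exact contDiff_const.mul (weyl_k_smooth.comp h1)

theorem eaharm_ker_supp {R : ℝ} (hR : 0 < R) :
    tsupport (eaharm_ker (1 / R ^ 2)) ⊆ closedBall 0 R := by
  apply closure_minimal _ isClosed_closedBall
  intro y hy
  rw [Function.mem_support] at hy
  rw [mem_closedBall, dist_zero_right]
  by_contra hc
  push Not at hc
  apply hy
  have h1 : R ^ 2 ≤ ‖y‖ ^ 2 := pow_le_pow_left₀ hR.le hc.le 2
  have h2 : 1 ≤ 1 / R ^ 2 * ‖y‖ ^ 2 := by
    rw [one_div, inv_mul_eq_div, le_div_iff₀ (by positivity)]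
    linarith
  unfold eaharm_ker
  rw [weyl_k_zero (by linarith), mul_zero]

theorem eaharm_ker_compact {R : ℝ} (hR : 0 < R) :
    HasCompactSupport (eaharm_ker (1 / R ^ 2)) :=
  IsCompact.of_isClosed_subset (isCompact_closedBall 0 R) (isClosed_tsupport _)
    (eaharm_ker_supp hR)


/-- the map `(z, s) ↦ s z` -/
noncomputable def eaharm_L : ℂ →L[ℝ] ℝ →L[ℝ] ℂ := (ContinuousLinearMap.lsmul ℝ ℝ).flip

theorem eaharm_L_apply (z : ℂ) (s : ℝ) : eaharm_L z s = s • z := rfl

/-- a local holomorphic representative of the conjugate of the gradient -/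
theorem eaharm_local {Ω : Set ℂ} {u : ℂ → ℝ} {g j : ℂ → ℂ} (h : MSMin Ω u g j) {x₀ : ℂ} {R : ℝ}
    (hR0 : 0 < R) (hKU : closedBall x₀ (2 * R) ⊆ Ω \ closure (discSet Ω u)) :
    ∃ Q : ℂ → ℂ, DifferentiableOn ℂ Q (ball x₀ R) ∧
      ∀ᵐ x ∂volume.restrict (ball x₀ R), (starRingEnd ℂ) (g x) = Q x := by
  have hV := eaharm_open (u := u) h.isOpen
  set K : Set ℂ := closedBall x₀ (2 * R) with hK
  have hKΩ : K ⊆ Ω := hKU.trans sdiff_subset
  have hgV : LocallyIntegrableOn g (Ω \ closure (discSet Ω u)) := h.intg.mono_set sdiff_subset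
  have hgr : LocallyIntegrableOn (fun x => (g x).re) (Ω \ closure (discSet Ω u)) := fun x hx =>
    Complex.reCLM.integrableAtFilter_comp (hgV x hx)
  have hgi : LocallyIntegrableOn (fun x => (g x).im) (Ω \ closure (discSet Ω u)) := fun x hx =>
    Complex.imCLM.integrableAtFilter_comp (hgV x hx)
  have r1 := eaharm_repr hV hgr (fun φ h1 h2 h3 => (eaharm_weak h h1 h2 h3).1) hR0 hKU
  have r2 := eaharm_repr hV hgi (fun φ h1 h2 h3 => (eaharm_weak h h1 h2 h3).2) hR0 hKU
  have hwi : Integrable (K.indicator g) :=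
    (integrable_indicator_iff measurableSet_closedBall).2
      (h.intg.integrableOn_compact_subset hKΩ (isCompact_closedBall _ _))
  set G : ℂ → ℂ := K.indicator (fun x => (starRingEnd ℂ) (g x)) with hG
  have hGi : Integrable G := by
    have h1 := Complex.conjCLE.toContinuousLinearMap.integrable_comp hwi
    refine h1.congr (Eventually.of_forall fun x => ?_)
    by_cases hx : x ∈ K
    · simp [hG, hx]
    · simp [hG, hx]
  set c : ℝ := ∫ z : ℂ, weyl_k (‖z‖ ^ 2) with hc
  have hcpos : 0 < c := weyl_const_pos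
  set κ : ℂ → ℝ := eaharm_ker (1 / R ^ 2) with hκ
  have hκs : ContDiff ℝ ∞ κ := eaharm_ker_smooth _
  have hκc : HasCompactSupport κ := eaharm_ker_compact hR0
  set F : ℂ → ℂ := G ⋆[eaharm_L, volume] κ with hF
  have hFd : ∀ x, HasFDerivAt F ((G ⋆[eaharm_L.precompR ℂ, volume] fderiv ℝ κ) x) x := fun x =>
    hκc.hasFDerivAt_convolution_right _ hGi.locallyIntegrable (hκs.of_le (by simp)) x
  have hFv : ∀ x v, fderiv ℝ F x v = ∫ t, (fderiv ℝ κ (x - t) v) • G t := by
    intro x v
    rw [(hFd x).fderiv, convolution_precompR_apply _ hGi.locallyIntegrable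
      (hκc.fderiv (𝕜 := ℝ)) (hκs.continuous_fderiv (by simp))]
    rfl
  -- the Cauchy-Riemann equation
  have hCR : ∀ x ∈ ball x₀ R, fderiv ℝ F x Complex.I = Complex.I • fderiv ℝ F x 1 := by
    intro x hx
    have hx' : dist x x₀ < R := hx
    have hsub : closedBall x R ⊆ K := closedBall_subset_closedBall' (by linarith)
    -- the test function
    obtain ⟨φ, hφd⟩ : ∃ φ : ℂ → ℝ, φ = fun t => κ (x - t) := ⟨_, rfl⟩
    have hφ : ContDiff ℝ ∞ φ := by
      rw [hφd]
      exact hκs.comp (contDiff_const.sub contDiff_id)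
    have hφt : tsupport φ ⊆ closedBall x R := by
      apply closure_minimal _ isClosed_closedBall
      intro t ht
      rw [Function.mem_support, hφd] at ht
      have h1 : x - t ∈ closedBall (0 : ℂ) R :=
        eaharm_ker_supp hR0 (subset_tsupport _ ht)
      rw [mem_closedBall, dist_zero_right] at h1
      rw [mem_closedBall, dist_comm, dist_eq_norm]
      exact h1
    have hφc : HasCompactSupport φ :=
      IsCompact.of_isClosed_subset (isCompact_closedBall x R) (isClosed_tsupport _) hφt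
    have hφK : tsupport φ ⊆ K := hφt.trans hsub
    have hφV : tsupport φ ⊆ Ω \ closure (discSet Ω u) := hφK.trans hKU
    have hφv : ∀ t v, fderiv ℝ φ t v = - fderiv ℝ κ (x - t) v := by
      intro t v
      have h1 : HasFDerivAt (fun t : ℂ => x - t) (-ContinuousLinearMap.id ℝ ℂ) t :=
        (hasFDerivAt_id (𝕜 := ℝ) t).const_sub x
      have h0 : DifferentiableAt ℝ κ (x - t) := hκs.differentiable (by simp) (x - t)
      have h2 : HasFDerivAt (fun t : ℂ => κ (x - t))
          ((fderiv ℝ κ (x - t)).comp (-ContinuousLinearMap.id ℝ ℂ)) t :=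
        h0.hasFDerivAt.comp t h1
      rw [← hφd] at h2
      rw [h2.fderiv]
      simp
    have hsm : ∀ v : ℂ, ContDiff ℝ ∞ (fun x => fderiv ℝ φ x v) := remov_fd_smooth hφ
    have hts : ∀ v : ℂ, tsupport (fun x => fderiv ℝ φ x v) ⊆ tsupport φ :=
      fun v => tsupport_fderiv_apply_subset ℝ v
    have hcs : ∀ v : ℂ, HasCompactSupport (fun x => fderiv ℝ φ x v) :=
      fun v => IsCompact.of_isClosed_subset hφc (isClosed_tsupport _) (hts v)
    have key : ∀ v, fderiv ℝ F x v = - ∫ t in Ω, (fderiv ℝ φ t v) • (starRingEnd ℂ) (g t) := by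
      intro v
      rw [hFv, ← integral_neg, ← integral_indicator h.isOpen.measurableSet]
      refine integral_congr_ae (Eventually.of_forall fun t => ?_)
      simp only
      by_cases ht : t ∈ K
      · rw [indicator_of_mem (hKΩ ht), hφv, hG, indicator_of_mem ht, neg_smul, neg_neg]
      · have h0 : fderiv ℝ φ t v = 0 :=
          image_eq_zero_of_notMem_tsupport (f := fun x => fderiv ℝ φ x v)
            fun h' => ht (hφK (hts v h'))
        have h1 : fderiv ℝ κ (x - t) v = 0 := by
          have := hφv t v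
          rw [h0] at this
          linarith
        rw [h1, zero_smul]
        by_cases ht' : t ∈ Ω
        · rw [indicator_of_mem ht', h0, zero_smul, neg_zero]
        · rw [indicator_of_notMem ht']
    have hgc : LocallyIntegrableOn (fun x => (starRingEnd ℂ) (g x)) Ω := fun x hx =>
      Complex.conjCLE.toContinuousLinearMap.integrableAtFilter_comp (h.intg x hx)
    have i1 : IntegrableOn (fun t => (fderiv ℝ φ t Complex.I) • (starRingEnd ℂ) (g t)) Ω :=
      eaharm_int hgc h.isOpen (hsm Complex.I).continuous (hcs Complex.I)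
        ((hts Complex.I).trans (hφK.trans hKΩ))
    have i2 : IntegrableOn (fun t => (fderiv ℝ φ t 1) • (starRingEnd ℂ) (g t)) Ω :=
      eaharm_int hgc h.isOpen (hsm 1).continuous (hcs 1)
        ((hts 1).trans (hφK.trans hKΩ))
    have i3 : IntegrableOn (fun t => Complex.I * ((fderiv ℝ φ t 1) • (starRingEnd ℂ) (g t))) Ω :=
      i2.const_mul _
    rw [key, key, smul_neg, smul_eq_mul, ← integral_const_mul, neg_inj, ← sub_eq_zero,
      ← integral_sub i1 i3]
    have i4 := i1.sub i3
    have hdiv := eaharm_div h hφ hφc (hφV.trans sdiff_subset)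
    have hcurl := eaharm_curl h.toSBVData hφ hφc hφV
    apply Complex.ext
    · have h1 := Complex.reCLM.integral_comp_comm i4
      have h2 : (∫ t in Ω, ((fderiv ℝ φ t Complex.I) • (starRingEnd ℂ) (g t) -
          Complex.I * ((fderiv ℝ φ t 1) • (starRingEnd ℂ) (g t)))).re =
          ∫ t in Ω, ((g t).re * fderiv ℝ φ t Complex.I - (g t).im * fderiv ℝ φ t 1) := by
        refine h1.symm.trans ?_
        refine integral_congr_ae (Eventually.of_forall fun t => ?_)
        simp
        ring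
      rw [h2, hcurl, Complex.zero_re]
    · have h1 := Complex.imCLM.integral_comp_comm i4
      have h2 : (∫ t in Ω, ((fderiv ℝ φ t Complex.I) • (starRingEnd ℂ) (g t) -
          Complex.I * ((fderiv ℝ φ t 1) • (starRingEnd ℂ) (g t)))).im =
          - ∫ t in Ω, ((g t).re * fderiv ℝ φ t 1 + (g t).im * fderiv ℝ φ t Complex.I) := by
        rw [← integral_neg]
        refine h1.symm.trans ?_
        refine integral_congr_ae (Eventually.of_forall fun t => ?_)
        simp
        ring
      rw [h2, hdiv, Complex.zero_im, neg_zero]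
  refine ⟨fun x => F x / (c : ℂ), ?_, ?_⟩
  · intro x hx
    apply DifferentiableAt.differentiableWithinAt
    have h1 : DifferentiableAt ℂ F x :=
      differentiableAt_complex_iff_differentiableAt_real.2
        ⟨(hFd x).differentiableAt, hCR x hx⟩
    exact h1.div_const _
  · filter_upwards [r1, r2] with x hx1 hx2
    have hFx : F x = ∫ t, (κ (x - t)) • G t := rfl
    have hkx : Continuous fun t => κ (x - t) := hκs.continuous.comp (by fun_prop)
    have hkb : ∀ t, ‖κ (x - t)‖ ≤ 1 / R ^ 2 := by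
      intro t
      simp only [hκ, eaharm_ker]
      rw [norm_mul, Real.norm_eq_abs, Real.norm_eq_abs, abs_of_pos (by positivity)]
      calc 1 / R ^ 2 * |weyl_k (1 / R ^ 2 * ‖x - t‖ ^ 2)| ≤ 1 / R ^ 2 * 1 :=
            mul_le_mul_of_nonneg_left (weyl_abs_le _) (by positivity)
        _ = 1 / R ^ 2 := mul_one _
    have hint : Integrable (fun t => (κ (x - t)) • G t) :=
      hGi.bdd_smul (1 / R ^ 2) hkx.aestronglyMeasurable (Eventually.of_forall hkb)
    have hker : ∀ t, κ (x - t) = 1 / R ^ 2 * weyl_k (1 / R ^ 2 * ‖t - x‖ ^ 2) := by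
      intro t
      simp only [hκ, eaharm_ker]
      rw [norm_sub_rev]
    have hre : (F x).re = weyl_v (K.indicator fun x => (g x).re) (1 / R ^ 2) x := by
      rw [hFx]
      refine (Complex.reCLM.integral_comp_comm hint).symm.trans ?_
      unfold weyl_v
      refine integral_congr_ae (Eventually.of_forall fun t => ?_)
      simp only
      rw [hker]
      generalize 1 / R ^ 2 * weyl_k (1 / R ^ 2 * ‖t - x‖ ^ 2) = s
      by_cases ht : t ∈ K
      · simp [hG, ht]
        ring
      · simp [hG, ht]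
    have him : (F x).im = - weyl_v (K.indicator fun x => (g x).im) (1 / R ^ 2) x := by
      rw [hFx]
      refine (Complex.imCLM.integral_comp_comm hint).symm.trans ?_
      unfold weyl_v
      rw [← integral_neg]
      refine integral_congr_ae (Eventually.of_forall fun t => ?_)
      simp only
      rw [hker]
      generalize 1 / R ^ 2 * weyl_k (1 / R ^ 2 * ‖t - x‖ ^ 2) = s
      by_cases ht : t ∈ K
      · simp [hG, ht]
        ring
      · simp [hG, ht]
    apply Complex.ext
    · rw [Complex.conj_re, Complex.div_ofReal_re, hre]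
      exact hx1
    · rw [Complex.conj_im, Complex.div_ofReal_im, him, neg_div]
      rw [hx2]

theorem ea_harm {Ω : Set ℂ} {u : ℂ → ℝ} {g j : ℂ → ℂ} (h : MSMin Ω u g j) :
    ∃ P : ℂ → ℂ, DifferentiableOn ℂ P (Ω \ closure (discSet Ω u)) ∧
      ∀ᵐ x ∂(volume : Measure ℂ), x ∈ Ω \ closure (discSet Ω u) → g x = (starRingEnd ℂ) (P x) := by
  have hV := eaharm_open (u := u) h.isOpen
  set V : Set ℂ := Ω \ closure (discSet Ω u) with hVd
  have hloc : ∀ x ∈ V, ∃ r : ℝ, 0 < r ∧ ball x r ⊆ V ∧ ∃ Q : ℂ → ℂ,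
      DifferentiableOn ℂ Q (ball x r) ∧
      ∀ᵐ y ∂volume.restrict (ball x r), (starRingEnd ℂ) (g y) = Q y := by
    intro x hx
    obtain ⟨ε, hε, hball⟩ := Metric.isOpen_iff.1 hV x hx
    have hR0 : 0 < ε / 3 := by positivity
    have hKU : closedBall x (2 * (ε / 3)) ⊆ V :=
      (closedBall_subset_ball (by linarith)).trans hball
    obtain ⟨Q, hQ1, hQ2⟩ := eaharm_local h hR0 hKU
    exact ⟨ε / 3, hR0, (ball_subset_ball (by linarith)).trans hball, Q, hQ1, hQ2⟩
  choose! r hr0 hrV Q hQd hQ using hloc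
  have hkey : ∀ x ∈ V, ∀ y ∈ ball x (r x), Q y y = Q x y := by
    intro x hx y hy
    have hyV : y ∈ V := hrV x hx hy
    have hopen : IsOpen (ball x (r x) ∩ ball y (r y)) := isOpen_ball.inter isOpen_ball
    have h1 : Q y =ᵐ[volume.restrict (ball x (r x) ∩ ball y (r y))] Q x := by
      have h2 := ae_restrict_of_ae_restrict_of_subset
        (inter_subset_left (t := ball y (r y))) (hQ x hx)
      have h3 := ae_restrict_of_ae_restrict_of_subset
        (inter_subset_right (s := ball x (r x))) (hQ y hyV)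
      filter_upwards [h2, h3] with z hz1 hz2
      rw [← hz1, ← hz2]
    exact Measure.eqOn_open_of_ae_eq h1 hopen
      ((hQd y hyV).continuousOn.mono inter_subset_right)
      ((hQd x hx).continuousOn.mono inter_subset_left)
      ⟨hy, mem_ball_self (hr0 y hyV)⟩
  refine ⟨fun x => Q x x, ?_, ?_⟩
  · intro x hx
    apply DifferentiableAt.differentiableWithinAt
    have h1 : (fun y => Q y y) =ᶠ[𝓝 x] Q x := by
      filter_upwards [ball_mem_nhds x (hr0 x hx)] with y hy
      exact hkey x hx y hy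
    have h2 : DifferentiableAt ℂ (Q x) x :=
      (hQd x hx).differentiableAt (ball_mem_nhds x (hr0 x hx))
    exact h2.congr_of_eventuallyEq h1
  · rw [ae_iff]
    apply measure_null_of_locally_null
    intro x hx
    simp only [mem_ofPred_eq, Classical.not_imp] at hx
    refine ⟨{y | ¬ (y ∈ ball x (r x) → (starRingEnd ℂ) (g y) = Q x y)}, ?_, ?_⟩
    · rw [mem_nhdsWithin]
      refine ⟨ball x (r x), isOpen_ball, mem_ball_self (hr0 x hx.1), ?_⟩
      intro y hy
      have hy2 := hy.2
      simp only [mem_ofPred_eq, Classical.not_imp] at hy2 ⊢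
      refine ⟨hy.1, ?_⟩
      rw [← hkey x hx.1 y hy.1]
      intro hc
      apply hy2.2
      rw [← hc, Complex.conj_conj]
    · have := hQ x hx.1
      rw [ae_restrict_iff' measurableSet_ball, ae_iff] at this
      exact this

end Pool.Agent.MP099f24
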