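import Mathlib

/-!
# At most six unbounded components (module COUNT6)
-/

namespace Pool.Agent.MP099f24

open MeasureTheory Filter Topology Set Metric
open scoped ENNReal ContDiff

private theorem eacount6_closed {K : Set ℂ} (hK : IsClosed K) (x : ℂ) :
    IsClosed (connectedComponentIn K x) := by
  by_cases hx : x ∈ K
  · refine isClosed_of_closure_subset ?_
    refine (isPreconnected_connectedComponentIn.closure).subset_connectedComponentIn ?_ ?_
    · exact subset_closure (mem_connectedComponentIn hx)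
    · exact closure_minimal (connectedComponentIn_subset _ _) hK
  · rw [connectedComponentIn_eq_empty hx]
    exact isClosed_empty

private theorem eacount6_one {K : Set ℂ}
    (hun : ∀ x ∈ K, ¬ Bornology.IsBounded (connectedComponentIn K x)) {x : ℂ} (hx : x ∈ K)
    {R0 r : ℝ} (hR : ‖x‖ ≤ R0) :
    ENNReal.ofReal (r - R0) ≤ (μH[1] : Measure ℂ) (connectedComponentIn K x ∩ ball 0 r) := by
  have h1 : Ioo R0 r ⊆ (fun z : ℂ => ‖z‖) '' (connectedComponentIn K x ∩ ball 0 r) := by
    intro s hs
    have hpc : IsPreconnected (connectedComponentIn K x) := isPreconnected_connectedComponentIn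
    have himg : IsPreconnected ((fun z : ℂ => ‖z‖) '' connectedComponentIn K x) :=
      hpc.image _ continuous_norm.continuousOn
    have hex : ∃ y ∈ connectedComponentIn K x, s < ‖y‖ := by
      by_contra hcon
      push Not at hcon
      exact hun x hx ((isBounded_iff_forall_norm_le).2 ⟨s, hcon⟩)
    obtain ⟨y, hy, hsy⟩ := hex
    have hxm : ‖x‖ ∈ (fun z : ℂ => ‖z‖) '' connectedComponentIn K x :=
      ⟨x, mem_connectedComponentIn hx, rfl⟩
    have hym : ‖y‖ ∈ (fun z : ℂ => ‖z‖) '' connectedComponentIn K x := ⟨y, hy, rfl⟩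
    have hsm := himg.ordConnected.out hxm hym ⟨hR.trans hs.1.le, hsy.le⟩
    obtain ⟨z, hz, hzs⟩ := hsm
    refine ⟨z, ⟨hz, ?_⟩, hzs⟩
    rw [mem_ball_zero_iff]
    have : ‖z‖ = s := hzs
    rw [this]
    exact hs.2
  have h2 : LipschitzWith 1 (fun z : ℂ => ‖z‖) := lipschitzWith_one_norm
  have h3 := h2.hausdorffMeasure_image_le (d := 1) zero_le_one (connectedComponentIn K x ∩ ball 0 r)
  rw [hausdorffMeasure_real] at h3
  calc ENNReal.ofReal (r - R0) = volume (Ioo R0 r) := by rw [Real.volume_Ioo]
    _ ≤ volume ((fun z : ℂ => ‖z‖) '' (connectedComponentIn K x ∩ ball 0 r)) := measure_mono h1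
    _ ≤ _ := by simpa using h3

theorem ea_count {K : Set ℂ} (hK : IsClosed K)
    (hun : ∀ x ∈ K, ¬ Bornology.IsBounded (connectedComponentIn K x))
    (hlen : ∀ r : ℝ, 0 < r → (μH[1] : Measure ℂ) (K ∩ ball 0 r) ≤
      ENNReal.ofReal (2 * Real.pi * r)) :
    {C : Set ℂ | ∃ x ∈ K, C = connectedComponentIn K x}.encard ≤ 6 := by
  by_contra hcon
  push Not at hcon
  have h7 : (7 : ℕ∞) ≤ {C : Set ℂ | ∃ x ∈ K, C = connectedComponentIn K x}.encard := by
    have := Order.add_one_le_of_lt hcon
    have h67 : (6 : ℕ∞) + 1 = 7 := by norm_num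
    rwa [h67] at this
  obtain ⟨T, hT, hT7⟩ := Set.exists_subset_encard_eq h7
  have hTfin : T.Finite := by
    apply Set.finite_of_encard_eq_coe (k := 7)
    rw [hT7]; rfl
  have hrep : ∀ C ∈ T, ∃ x ∈ K, C = connectedComponentIn K x := fun C hC => hT hC
  choose! p hpK hpC using hrep
  set F : Finset (Set ℂ) := hTfin.toFinset with hF
  have hFcard : F.card = 7 := by
    have : (F.card : ℕ∞) = 7 := by
      rw [hF, ← hTfin.encard_eq_coe_toFinset_card, hT7]
    exact_mod_cast this
  -- a common bound
  obtain ⟨R0, hR0⟩ : ∃ R0 : ℝ, ∀ C ∈ F, ‖p C‖ ≤ R0 := by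
    obtain ⟨R0, hR0⟩ := (F.finite_toSet.image (fun C => ‖p C‖)).bddAbove
    exact ⟨R0, fun C hC => hR0 ⟨C, hC, rfl⟩⟩
  have hR0' : ∀ C ∈ F, ‖p C‖ ≤ max R0 1 := fun C hC => (hR0 C hC).trans (le_max_left _ _)
  set R := max R0 1 with hR
  have hR1 : 1 ≤ R := le_max_right _ _
  have hdisj : (F : Set (Set ℂ)).PairwiseDisjoint
      (fun C => connectedComponentIn K (p C)) := by
    intro C hC D hD hCD
    have hC' : C ∈ T := by simpa [hF] using hC
    have hD' : D ∈ T := by simpa [hF] using hD
    have hne : connectedComponentIn K (p C) ≠ connectedComponentIn K (p D) := by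
      rw [← hpC C hC', ← hpC D hD']
      exact hCD
    rw [Function.onFun, Set.disjoint_left]
    intro z hz1 hz2
    exact hne ((connectedComponentIn_eq hz1).trans (connectedComponentIn_eq hz2).symm)
  have key : ∀ r : ℝ, 0 < r → 7 * ENNReal.ofReal (r - R) ≤ ENNReal.ofReal (2 * Real.pi * r) := by
    intro r hr
    calc 7 * ENNReal.ofReal (r - R) = ∑ C ∈ F, ENNReal.ofReal (r - R) := by
          rw [Finset.sum_const, hFcard]; simp
      _ ≤ ∑ C ∈ F, (μH[1] : Measure ℂ) (connectedComponentIn K (p C) ∩ ball 0 r) := by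
          refine Finset.sum_le_sum fun C hC => ?_
          have hC' : C ∈ T := by simpa [hF] using hC
          exact eacount6_one hun (hpK C hC') (hR0' C hC)
      _ = (μH[1] : Measure ℂ) (⋃ C ∈ F, connectedComponentIn K (p C) ∩ ball 0 r) := by
          rw [measure_biUnion_finset]
          · intro C hC D hD hCD
            exact (hdisj hC hD hCD).mono inter_subset_left inter_subset_left
          · exact fun C _ => (eacount6_closed hK _).measurableSet.inter measurableSet_ball
      _ ≤ (μH[1] : Measure ℂ) (K ∩ ball 0 r) := by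
          refine measure_mono ?_
          simp only [iUnion_subset_iff]
          intro C _
          exact inter_subset_inter_left _ (connectedComponentIn_subset _ _)
      _ ≤ _ := hlen r hr
  have hpi : Real.pi < 3.15 := Real.pi_lt_d2
  have h := key (10 * R) (by linarith)
  have h7' : (7 : ℝ≥0∞) = ENNReal.ofReal 7 := by simp
  rw [h7', ← ENNReal.ofReal_mul (by norm_num)] at h
  have h' := (ENNReal.ofReal_le_ofReal_iff (by positivity)).1 h
  nlinarith [Real.pi_pos]

end Pool.Agent.MP099f24
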