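import Mathlib
import Pool.Agent.Lib.MP_099f24_an.EA.Defs
import Pool.Agent.Lib.MP_099f24_an.SD.Outer

/-!
# Orthogonality to all test gradients kills the tangential derivative on the jump set
-/

namespace Pool.Agent.MP099f24

open MeasureTheory Filter Topology Set Metric
open scoped ENNReal ContDiff

theorem eakill_inner (z w : ℂ) : inner ℝ z w = z.re * w.re + z.im * w.im := by
  simp only [Complex.inner]
  simp
  ring

theorem eakill_grad_re (a : ℂ → ℝ) (x : ℂ) : (outer_grad a x).re = fderiv ℝ a x 1 := by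
  rw [← outer_inner_grad, eakill_inner]
  simp

theorem eakill_grad_im (a : ℂ → ℝ) (x : ℂ) : (outer_grad a x).im = fderiv ℝ a x Complex.I := by
  rw [← outer_inner_grad, eakill_inner]
  simp

/-- a smooth function of a bounded smooth function: the divergence of `η I ∇a` -/
theorem eakill_div {a η : ℂ → ℝ} (ha : ContDiff ℝ ∞ a) (hη : ContDiff ℝ ∞ η) (x : ℂ) :
    fderiv ℝ (fun y => η y * (-(fderiv ℝ a y Complex.I))) x 1 +
      fderiv ℝ (fun y => η y * fderiv ℝ a y 1) x Complex.I =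
      (-(fderiv ℝ a x Complex.I)) * fderiv ℝ η x 1 + fderiv ℝ a x 1 * fderiv ℝ η x Complex.I := by
  have hηd : HasFDerivAt η (fderiv ℝ η x) x :=
    ((hη.differentiable (by simp)).differentiableAt (x := x)).hasFDerivAt
  have hfa : ContDiff ℝ ∞ (fderiv ℝ a) := ha.fderiv_right (by simp)
  have hfad : HasFDerivAt (fderiv ℝ a) (fderiv ℝ (fderiv ℝ a) x) x :=
    ((hfa.differentiable (by simp)).differentiableAt (x := x)).hasFDerivAt
  have h1 : ∀ v : ℂ, HasFDerivAt (fun y => fderiv ℝ a y v)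
      ((fderiv ℝ (fderiv ℝ a) x).flip v) x := fun v => by
    refine (hfad.clm_apply (hasFDerivAt_const v x)).congr_fderiv ?_
    ext w
    simp
  have e1 : HasFDerivAt (fun y => η y * (-(fderiv ℝ a y Complex.I)))
      (η x • (-((fderiv ℝ (fderiv ℝ a) x).flip Complex.I)) +
        (-(fderiv ℝ a x Complex.I)) • fderiv ℝ η x) x := hηd.mul (h1 Complex.I).neg
  have e2 : HasFDerivAt (fun y => η y * fderiv ℝ a y 1)
      (η x • ((fderiv ℝ (fderiv ℝ a) x).flip 1) + (fderiv ℝ a x 1) • fderiv ℝ η x) x :=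
    hηd.mul (h1 1)
  have hsym : fderiv ℝ (fderiv ℝ a) x 1 Complex.I = fderiv ℝ (fderiv ℝ a) x Complex.I 1 := by
    have hs : IsSymmSndFDerivAt ℝ a x :=
      (ha.contDiffAt).isSymmSndFDerivAt (by
        simp only [minSmoothness_of_isRCLikeNormedField]
        exact WithTop.coe_le_coe.2 (le_top : (2 : ℕ∞) ≤ ⊤))
    exact hs.eq 1 Complex.I
  rw [e1.fderiv, e2.fderiv]
  have e3 : (η x • (-((fderiv ℝ (fderiv ℝ a) x).flip Complex.I)) +
        (-(fderiv ℝ a x Complex.I)) • fderiv ℝ η x) 1 =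
      η x * (-(fderiv ℝ (fderiv ℝ a) x 1 Complex.I)) +
        (-(fderiv ℝ a x Complex.I)) * fderiv ℝ η x 1 := rfl
  have e4 : (η x • ((fderiv ℝ (fderiv ℝ a) x).flip 1) + (fderiv ℝ a x 1) • fderiv ℝ η x) Complex.I =
      η x * (fderiv ℝ (fderiv ℝ a) x Complex.I 1) + (fderiv ℝ a x 1) * fderiv ℝ η x Complex.I := rfl
  rw [e3, e4, hsym]
  ring

theorem eakill_arctan : ContDiff ℝ ∞ Real.arctan ∧
    ∀ s, |Real.arctan s| ≤ 2 ∧ |deriv Real.arctan s| ≤ 2 := by
  refine ⟨Real.contDiff_arctan, fun s => ⟨?_, ?_⟩⟩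
  · have h1 := Real.arctan_lt_pi_div_two s
    have h2 := Real.neg_pi_div_two_lt_arctan s
    have h3 := Real.pi_lt_four
    rw [abs_le]
    constructor <;> linarith
  · rw [Real.deriv_arctan, abs_of_nonneg (by positivity)]
    rw [div_le_iff₀ (by positivity)]
    nlinarith [sq_nonneg s]

theorem ea_kill {Ω : Set ℂ} {u : ℂ → ℝ} {g j : ℂ → ℂ} (h : SBVData Ω u g j) {a : ℂ → ℝ}
    (ha : ContDiff ℝ ∞ a)
    (hz : ∀ (η : ℂ → ℝ) (κ : ℝ → ℝ) (M : ℝ), ContDiff ℝ ∞ η → HasCompactSupport η →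
      tsupport η ⊆ Ω → ContDiff ℝ ∞ κ → (∀ s, |κ s| ≤ M ∧ |deriv κ s| ≤ M) →
      ∫ x in Ω, inner ℝ (Complex.I * outer_grad a x) (outer_xi u η g κ x) = 0) :
    (μH[1] : Measure ℂ) {x ∈ jumpSet Ω u | inner ℝ (Complex.I * outer_grad a x) (j x) ≠ 0} = 0 := by
  have hΩ := h.isOpen
  have hg : IsSBVGrad Ω u g := ⟨h.intg, j, h.jf, h.intj, h.form⟩
  obtain ⟨hκ, hM⟩ := eakill_arctan
  set κ : ℝ → ℝ := Real.arctan with hκdef
  set ψ : ℂ → ℝ := fun _ => 1 with hψdef
  have hψ : ContDiff ℝ ∞ ψ := contDiff_const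
  have hψ0 : ∀ x, fderiv ℝ ψ x = 0 := fun x => by simp [hψdef]
  have hP : ∀ x, |ψ x| ≤ 1 := fun x => by simp [hψdef]
  have hP' : ∀ x, ‖fderiv ℝ ψ x‖ ≤ 1 := fun x => by rw [hψ0]; simp
  obtain ⟨k1, hk1, hk1i, hf1⟩ := outer_chain hΩ h.intu hg hψ hκ hM hP hP' 1
  obtain ⟨k2, hk2, hk2i, hf2⟩ := outer_chain hΩ h.intu hg hψ hκ hM hP hP' Complex.I
  set Z1 : ℂ → ℝ := fun y => -(fderiv ℝ a y Complex.I) with hZ1
  set Z2 : ℂ → ℝ := fun y => fderiv ℝ a y 1 with hZ2
  have hfa : ContDiff ℝ ∞ (fderiv ℝ a) := ha.fderiv_right (by simp)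
  have hZ1s : ContDiff ℝ ∞ Z1 := (hfa.clm_apply contDiff_const).neg
  have hZ2s : ContDiff ℝ ∞ Z2 := hfa.clm_apply contDiff_const
  have hZ : ∀ x w, inner ℝ (Complex.I * outer_grad a x) w = Z1 x * w.re + Z2 x * w.im := by
    intro x w
    rw [eakill_inner]
    simp [hZ1, hZ2, eakill_grad_re, eakill_grad_im]
  have hξi := outer_locint_xi h.intg h.meas_u h.meas_g hψ hκ hM hP hP'
  have hpi : LocallyIntegrableOn (fun y => κ (u y)) Ω := by
    intro x hx
    have h1 := outer_bdd_int (M := 2) (P := 1) h.meas_u hψ.continuous hκ.continuous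
      (fun s => (hM s).1) hP (K := ball x 1) measure_ball_lt_top.ne
    refine ⟨ball x 1, mem_nhdsWithin_of_mem_nhds (ball_mem_nhds x one_pos), ?_⟩
    refine h1.congr (Eventually.of_forall fun y => ?_)
    simp [hψdef]
  -- the flux density vanishes almost everywhere
  have hf : LocallyIntegrableOn (fun x => Z1 x * k1 x + Z2 x * k2 x) Ω (μH[1] : Measure ℂ) := by
    have e1 : LocallyIntegrableOn (fun x => Z1 x * k1 x) Ω (μH[1] : Measure ℂ) :=
      hk1i.continuousOn_mul hZ1s.continuous.continuousOn hΩ.isLocallyClosed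
    have e2 : LocallyIntegrableOn (fun x => Z2 x * k2 x) Ω (μH[1] : Measure ℂ) :=
      hk2i.continuousOn_mul hZ2s.continuous.continuousOn hΩ.isLocallyClosed
    exact e1.add e2
  have key : ∀ᵐ x ∂(μH[1] : Measure ℂ), x ∈ Ω → Z1 x * k1 x + Z2 x * k2 x = 0 := by
    refine hΩ.ae_eq_zero_of_integral_contDiff_smul_eq_zero hf fun η hη hηc hηs => ?_
    -- the two test functions
    have hc1 : HasCompactSupport (fun y => η y * Z1 y) := hηc.mul_right
    have hc2 : HasCompactSupport (fun y => η y * Z2 y) := hηc.mul_right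
    have hs1 : tsupport (fun y => η y * Z1 y) ⊆ Ω := (tsupport_mul_subset_left).trans hηs
    have hs2 : tsupport (fun y => η y * Z2 y) ⊆ Ω := (tsupport_mul_subset_left).trans hηs
    have hd1 : ContDiff ℝ ∞ (fun y => η y * Z1 y) := hη.mul hZ1s
    have hd2 : ContDiff ℝ ∞ (fun y => η y * Z2 y) := hη.mul hZ2s
    have q1 := hf1 _ hd1 hc1 hs1
    have q2 := hf2 _ hd2 hc2 hs2
    have q0 := hz η κ 2 hη hηc hηs hκ hM
    -- integrability
    have hfc1 := outer_fderiv_cs hc1 1
    have hfc2 := outer_fderiv_cs hc2 Complex.I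
    have i1 : IntegrableOn (fun x => κ (u x) * fderiv ℝ (fun y => η y * Z1 y) x 1) Ω :=
      outer_int_real hpi ((hd1.continuous_fderiv (by simp)).clm_apply continuous_const) hfc1.1
        (hfc1.2.trans hs1)
    have i2 : IntegrableOn (fun x => κ (u x) * fderiv ℝ (fun y => η y * Z2 y) x Complex.I) Ω :=
      outer_int_real hpi ((hd2.continuous_fderiv (by simp)).clm_apply continuous_const) hfc2.1
        (hfc2.2.trans hs2)
    have i3 : IntegrableOn (fun x => η x * Z1 x * inner ℝ (outer_xi u ψ g κ x) 1) Ω :=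
      outer_int_inner hξi hd1.continuous hc1 hs1 1
    have i4 : IntegrableOn (fun x => η x * Z2 x * inner ℝ (outer_xi u ψ g κ x) Complex.I) Ω :=
      outer_int_inner hξi hd2.continuous hc2 hs2 Complex.I
    have i5 : IntegrableOn (fun x => (k1 x) * (η x * Z1 x)) Ω (μH[1] : Measure ℂ) :=
      outer_int_real hk1i hd1.continuous hc1 hs1
    have i6 : IntegrableOn (fun x => (k2 x) * (η x * Z2 x)) Ω (μH[1] : Measure ℂ) :=
      outer_int_real hk2i hd2.continuous hc2 hs2
    have e0 : ∀ x v, κ (u x) * fderiv ℝ ψ x v + ψ x * deriv κ (u x) * inner ℝ (g x) v =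
        inner ℝ (outer_xi u ψ g κ x) v := fun x v => by
      rw [outer_inner_xi]; ring
    simp only [e0] at q1 q2
    have e1 : ∀ x, ψ x * κ (u x) = κ (u x) := fun x => by simp [hψdef]
    simp only [e1] at q1 q2
    have s1 : ∫ x in Ω, inner ℝ (Complex.I * outer_grad a x) (outer_xi u η g κ x) =
        ((∫ x in Ω, κ (u x) * fderiv ℝ (fun y => η y * Z1 y) x 1) +
          ∫ x in Ω, κ (u x) * fderiv ℝ (fun y => η y * Z2 y) x Complex.I) +
        ((∫ x in Ω, η x * Z1 x * inner ℝ (outer_xi u ψ g κ x) 1) +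
          ∫ x in Ω, η x * Z2 x * inner ℝ (outer_xi u ψ g κ x) Complex.I) := by
      have i12 : IntegrableOn (fun x => κ (u x) * fderiv ℝ (fun y => η y * Z1 y) x 1 +
          κ (u x) * fderiv ℝ (fun y => η y * Z2 y) x Complex.I) Ω := i1.add i2
      have i34 : IntegrableOn (fun x => η x * Z1 x * inner ℝ (outer_xi u ψ g κ x) 1 +
          η x * Z2 x * inner ℝ (outer_xi u ψ g κ x) Complex.I) Ω := i3.add i4
      rw [← integral_add i1 i2, ← integral_add i3 i4, ← integral_add i12 i34]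
      refine integral_congr_ae (Eventually.of_forall fun x => ?_)
      have hdiv := eakill_div ha hη x
      beta_reduce
      rw [hZ]
      have hre : (outer_xi u η g κ x).re = η x * deriv κ (u x) * (g x).re +
          κ (u x) * fderiv ℝ η x 1 := by
        have := outer_inner_xi (u := u) (ψ := η) (g := g) (κ := κ) x 1
        rw [eakill_inner, eakill_inner] at this
        simpa using this
      have him : (outer_xi u η g κ x).im = η x * deriv κ (u x) * (g x).im +
          κ (u x) * fderiv ℝ η x Complex.I := by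
        have := outer_inner_xi (u := u) (ψ := η) (g := g) (κ := κ) x Complex.I
        rw [eakill_inner, eakill_inner] at this
        simpa using this
      have h1 : inner ℝ (outer_xi u ψ g κ x) 1 = deriv κ (u x) * (g x).re := by
        rw [outer_inner_xi, eakill_inner, hψ0]
        simp [hψdef]
      have h2 : inner ℝ (outer_xi u ψ g κ x) Complex.I = deriv κ (u x) * (g x).im := by
        rw [outer_inner_xi, eakill_inner, hψ0]
        simp [hψdef]
      rw [hre, him, h1, h2, ← mul_add, hdiv]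
      simp only [hZ1, hZ2]
      ring
    have s2 : ∫ x, η x • (Z1 x * k1 x + Z2 x * k2 x) ∂(μH[1] : Measure ℂ) =
        (∫ x in Ω, η x * Z1 x * k1 x ∂(μH[1] : Measure ℂ)) +
          ∫ x in Ω, η x * Z2 x * k2 x ∂(μH[1] : Measure ℂ) := by
      rw [← setIntegral_eq_integral_of_forall_compl_eq_zero (s := Ω) (fun x hx => by
        rw [image_eq_zero_of_notMem_tsupport fun h' => hx (hηs h'), zero_smul])]
      rw [← integral_add (i5.congr (Eventually.of_forall fun x => by simp only; ring))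
        (i6.congr (Eventually.of_forall fun x => by simp only; ring))]
      refine integral_congr_ae (Eventually.of_forall fun x => ?_)
      simp only [smul_eq_mul]
      ring
    rw [s2]
    rw [s1] at q0
    linarith
  -- conclusion
  refine measure_mono_null ?_ (ae_iff.1 key)
  rintro x ⟨⟨hxΩ, hjx⟩, hne⟩
  simp only [mem_ofPred_eq]
  intro hcon
  have h0 := hcon hxΩ
  apply hne
  rcases h.jf x hxΩ with ⟨α, β, ν, hj, hje⟩ | ⟨hn, -⟩
  · have e1 := outer_flux hΩ h.intu hk1 hxΩ hj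
    have e2 := outer_flux hΩ h.intu hk2 hxΩ hj
    have hne' : κ α - κ β ≠ 0 := by
      rw [sub_ne_zero]
      exact fun h' => hj.2.1 (Real.arctan_injective h')
    have i1 : inner ℝ (1 : ℂ) ν = ν.re := by simp [Complex.inner]
    have i2 : inner ℝ Complex.I ν = ν.im := by simp [Complex.inner]
    rw [i1] at e1
    rw [i2] at e2
    rw [e1, e2] at h0
    have h3 : (κ α - κ β) * (Z1 x * ν.re + Z2 x * ν.im) = 0 := by
      rw [← h0]
      simp only [hψdef]
      ring
    have h4 : Z1 x * ν.re + Z2 x * ν.im = 0 := (mul_eq_zero.1 h3).resolve_left hne'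
    rw [hZ, hje]
    simp only [Complex.smul_re, Complex.smul_im, smul_eq_mul]
    linear_combination (α - β) * h4
  · exact absurd hjx hn

end Pool.Agent.MP099f24
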