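import Mathlib
import Pool.Agent.Lib.MP_099f24_an.JumpBasic
import Pool.Agent.Lib.MP_099f24_an.SD.Ode
import Pool.Agent.Lib.MP_099f24_an.SD.Polar
import Pool.Agent.Lib.MP_099f24_an.SD.Comp0
import Pool.Agent.Lib.MP_099f24_an.SD.Compb
import Pool.Agent.Lib.MP_099f24_an.SD.Dil
import Pool.Agent.Lib.MP_099f24_an.SD.Remov
import Pool.Agent.Lib.MP_099f24_an.SD.JRep

/-!
# Module UNB: the discontinuity set of a nonconstant local minimizer of the plane is unbounded
-/

set_option autoImplicit false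

namespace Pool.Agent.MP099f24

open MeasureTheory Filter Topology Set Metric
open scoped ENNReal ContDiff

theorem eaunb_jump_sub {Ω : Set ℂ} {u : ℂ → ℝ} {g j : ℂ → ℂ} (h : SBVData Ω u g j) :
    jumpSet Ω u ⊆ discSet Ω u := by
  rintro x ⟨hx, a, b, ν, hj⟩
  refine ⟨hx, ?_⟩
  rintro ⟨z, hz⟩
  obtain ⟨U, hU, hUi⟩ := h.intu x hx
  rw [h.isOpen.nhdsWithin_eq hx] at hU
  exact not_isApproxLim_of_isJump hU hUi hj z hz

/-- The linear bound of the energy in real form. -/
theorem eaunb_bound {u : ℂ → ℝ} {g j : ℂ → ℂ} (h : MSMin univ u g j) {b : ℝ} (hb : 0 ≤ b) :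
    Dq g 0 b + Lq univ u 0 b ≤ 2 * Real.pi * b := by
  have h1 := comp_const h (a := 0) (R := b) (subset_univ _)
  have hint : IntegrableOn (fun x => ‖g x‖ ^ 2) (ball (0 : ℂ) b) :=
    (h.fin_g _ (isCompact_closedBall 0 b) (subset_univ _)).mono_set ball_subset_closedBall
  have h2 : ∫⁻ x in ball (0 : ℂ) b, ‖g x‖ₑ ^ 2 = ENNReal.ofReal (Dq g 0 b) := by
    rw [Dq, ofReal_integral_eq_lintegral_ofReal hint (ae_of_all _ fun x => by positivity)]
    refine lintegral_congr fun x => ?_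
    rw [← ofReal_norm, ENNReal.ofReal_pow (norm_nonneg _)]
  have hS : (μH[1] : Measure ℂ) (discSet univ u ∩ ball 0 b) ≠ ⊤ :=
    ((measure_mono (inter_subset_inter_right _ ball_subset_closedBall)).trans_lt
      (h.fin_S _ (isCompact_closedBall 0 b) (subset_univ _))).ne
  have h3 : (μH[1] : Measure ℂ) (discSet univ u ∩ ball 0 b) = ENNReal.ofReal (Lq univ u 0 b) := by
    rw [Lq, ENNReal.ofReal_toReal hS]
  have hD : 0 ≤ Dq g 0 b := integral_nonneg fun _ => by positivity
  have hL : 0 ≤ Lq univ u 0 b := ENNReal.toReal_nonneg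
  rw [h2, h3, ← ENNReal.ofReal_add hD hL] at h1
  exact (ENNReal.ofReal_le_ofReal_iff (by positivity)).1 h1

theorem ea_unbounded {u : ℂ → ℝ} {g j : ℂ → ℂ} (h : MSMin univ u g j)
    (hne : (discSet univ u).Nonempty) : ¬ Bornology.IsBounded (discSet univ u) := by
  intro hbd
  obtain ⟨R₀, hR₀, hsub⟩ : ∃ R₀ : ℝ, 0 < R₀ ∧ discSet univ u ⊆ ball 0 R₀ := by
    obtain ⟨r, hr⟩ := hbd.subset_ball (0 : ℂ)
    exact ⟨max r 1, by positivity, hr.trans (ball_subset_ball (le_max_left _ _))⟩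
  set L₀ : ℝ := ((μH[1] : Measure ℂ) (discSet univ u)).toReal with hL₀
  have hLs : ∀ s, R₀ ≤ s → Lq univ u 0 s = L₀ := by
    intro s hs
    rw [Lq, hL₀, inter_eq_left.2 (hsub.trans (ball_subset_ball hs))]
  have hL₀pos : 0 < L₀ := by
    obtain ⟨x, hx⟩ := hne
    have h1 := removable h (mem_univ x) (subset_closure hx) one_pos
    have h2 : (μH[1] : Measure ℂ) (jumpSet univ u ∩ ball x 1) ≤
        (μH[1] : Measure ℂ) (discSet univ u) :=
      measure_mono (inter_subset_left.trans (eaunb_jump_sub h.toSBVData))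
    have h3 : (μH[1] : Measure ℂ) (discSet univ u) < ⊤ := by
      have h4 := h.fin_S _ (isCompact_closedBall 0 R₀) (subset_univ _)
      rwa [inter_eq_left.2 (hsub.trans ball_subset_closedBall)] at h4
    exact ENNReal.toReal_pos (h1.trans_le h2).ne' h3.ne
  -- radii
  set a : ℝ := R₀ + 1 with ha
  have ha0 : 0 < a := by positivity
  set b : ℝ := a + 4 * Real.pi * a ^ 2 / L₀ + 1 with hb
  have hπ := Real.pi_pos
  have hab : a ≤ b := by
    have : 0 ≤ 4 * Real.pi * a ^ 2 / L₀ := by positivity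
    rw [hb]; linarith
  have hb0 : 0 < b := ha0.trans_le hab
  have hfin : ∀ s < b + 1, IntegrableOn (fun x => ‖g x‖ ^ 2) (ball (0 : ℂ) s) := fun s _ =>
    (h.fin_g _ (isCompact_closedBall 0 s) (subset_univ _)).mono_set ball_subset_closedBall
  obtain ⟨hder, hmono, -⟩ := Dq_deriv h.meas_g (a := 0) (R := b + 1) hfin
  have hcomp := comp_homog h (a := 0) (R := b + 1) (subset_univ _)
  have hdil := dilation h (a := 0) (R := b + 1) (subset_univ _)
  have hIcc : Icc a b ⊆ Ioo 0 (b + 1) := fun s hs => ⟨ha0.trans_le hs.1, by linarith [hs.2]⟩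
  set F : ℝ → ℝ := fun s => 2 * Dq g 0 s + L₀ with hF
  have hFmono : MonotoneOn F (Icc a b) := by
    intro s hs t ht hst
    have := hmono (hIcc hs) (hIcc ht) hst
    simp only [hF]
    linarith
  have hDa : 0 ≤ Dq g 0 a := integral_nonneg fun _ => by positivity
  have hFa : L₀ ≤ F a := by
    simp only [hF]
    linarith
  have hd : ∀ᵐ s ∂(volume.restrict (Icc a b)), 2 * F s / s ≤ deriv F s := by
    have e1 := ae_restrict_of_ae_restrict_of_subset hIcc hder
    have e2 := ae_restrict_of_ae_restrict_of_subset hIcc hcomp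
    have e3 := ae_restrict_of_ae_restrict_of_subset hIcc hdil
    filter_upwards [e1, e2, e3, ae_restrict_mem measurableSet_Icc] with s h1 h2 h3 hs
    have hs0 : 0 < s := ha0.trans_le hs.1
    have hsR : R₀ < s := by have := hs.1; rw [ha] at this; linarith
    have hJ : jumpSet univ u ∩ sphere 0 s = ∅ := by
      rw [eq_empty_iff_forall_notMem]
      rintro x ⟨hx1, hx2⟩
      have h4 := hsub (eaunb_jump_sub h.toSBVData hx1)
      rw [mem_ball] at h4
      rw [mem_sphere] at hx2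
      linarith
    have h5 := h2 hJ
    rw [hLs s hsR.le] at h5 h3
    have h6 : HasDerivAt F (2 * (Tq g 0 s + Vq g 0 s)) s := (h1.1.const_mul 2).add_const L₀
    rw [h6.deriv, div_le_iff₀ hs0]
    simp only [hF]
    nlinarith
  have hpow := ode_power ha0 hab (m := 2) (by norm_num) hFmono (hL₀pos.le.trans hFa) hd
  have hFb : F b ≤ 4 * Real.pi * b := by
    have h1 := eaunb_bound h hb0.le
    rw [hLs b (by linarith)] at h1
    simp only [hF]
    linarith
  have hrp : (b / a) ^ (2 : ℝ) = b ^ 2 / a ^ 2 := by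
    rw [Real.rpow_two, div_pow]
  rw [hrp] at hpow
  have h7 : L₀ * (b ^ 2 / a ^ 2) ≤ 4 * Real.pi * b :=
    (mul_le_mul_of_nonneg_right hFa (by positivity)).trans (hpow.trans hFb)
  have h8 : L₀ * b ≤ 4 * Real.pi * a ^ 2 := by
    rw [← mul_div_assoc, div_le_iff₀ (by positivity)] at h7
    have h9 : (L₀ * b) * b ≤ (4 * Real.pi * a ^ 2) * b := by nlinarith
    exact le_of_mul_le_mul_right h9 hb0
  have h10 : L₀ * b = L₀ * a + 4 * Real.pi * a ^ 2 + L₀ := by
    rw [hb]
    field_simp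
  have h11 : 0 < L₀ * a := by positivity
  linarith

end Pool.Agent.MP099f24
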