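import Mathlib
import Pool.Agent.Lib.MP_099f24_an.SD.Asm
import Pool.Agent.Lib.MP_099f24_an.SD.Fvar
import Pool.Agent.Lib.MP_099f24_an.SD.JRep
import Pool.Agent.Lib.MP_099f24_an.EA.Alg
import Pool.Agent.Lib.MP_099f24_an.EA.Len
import Pool.Agent.Lib.MP_099f24_an.EA.Sbv2
import Pool.Agent.Lib.MP_099f24_an.EA.Sec
import Pool.Agent.Lib.MP_099f24_an.EA.Cauchy
import Pool.Agent.Lib.MP_099f24_an.EA.Harm
import Pool.Agent.Lib.MP_099f24_an.EA.Cross
import Pool.Agent.Lib.MP_099f24_an.EA.Kill
import Pool.Agent.Lib.MP_099f24_an.EA.Zero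
import Pool.Agent.Lib.MP_099f24_an.EA.Unb
import Pool.Agent.Lib.MP_099f24_an.EA.Finald
import Pool.Agent.Lib.MP_099f24_an.EA.Topo
import Pool.Agent.Lib.MP_099f24_an.EA.Cut
import Pool.Agent.Lib.MP_099f24_an.EA.Clos
import Pool.Agent.Lib.MP_099f24_an.EA.Comp
import Pool.Agent.Lib.MP_099f24_an.EA.Count6

/-!
# Every component of the discontinuity set of a minimizer in the plane is unbounded: assembly
-/

namespace Pool.Agent.MP099f24

open MeasureTheory Filter Topology Set Metric
open scoped ENNReal ContDiff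

/-- real differentiable functions with `∂̄ k = 0` are complex differentiable -/
theorem easm_diff {k : ℂ → ℂ} (hk : Differentiable ℝ k) {x : ℂ} (h0 : dbar k x = 0) :
    DifferentiableAt ℂ k x := by
  have h1 : fderiv ℝ k x Complex.I = Complex.I * fderiv ℝ k x 1 := by
    have h2 : fderiv ℝ k x 1 + Complex.I * fderiv ℝ k x Complex.I = 0 := by
      simpa [dbar] using h0
    have h3 : Complex.I * (fderiv ℝ k x 1 + Complex.I * fderiv ℝ k x Complex.I) = 0 := by
      rw [h2, mul_zero]
    have h4 : Complex.I * (fderiv ℝ k x 1 + Complex.I * fderiv ℝ k x Complex.I) =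
        Complex.I * fderiv ℝ k x 1 - fderiv ℝ k x Complex.I := by
      linear_combination (fderiv ℝ k x Complex.I) * Complex.I_mul_I
    rw [h4, sub_eq_zero] at h3
    exact h3.symm
  rw [differentiableAt_complex_iff_differentiableAt_real]
  exact ⟨hk x, by rw [h1, smul_eq_mul]⟩

theorem easm_dbar_mul_conj {χ : ℂ → ℝ} (hχ : ContDiff ℝ ∞ χ) {P : ℂ → ℂ} {x : ℂ}
    (hP : DifferentiableAt ℂ P x) :
    dbar (fun y => (χ y : ℂ) * P y) x = dbar (fun y => (χ y : ℂ)) x * P x := by
  have hχ' : DifferentiableAt ℝ (fun y => (χ y : ℂ)) x :=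
    (Complex.ofRealCLM.differentiable.comp (hχ.differentiable (by simp))) x
  have hP' : DifferentiableAt ℝ P x := hP.restrictScalars ℝ
  have h2 : fderiv ℝ P x Complex.I = Complex.I * fderiv ℝ P x 1 := by
    rw [hP.fderiv_restrictScalars ℝ]
    simp only [ContinuousLinearMap.coe_restrictScalars']
    have := (fderiv ℂ P x).map_smul Complex.I 1
    simpa using this
  unfold dbar
  rw [fderiv_fun_mul hχ' hP']
  simp only [add_apply, smul_apply, smul_eq_mul, h2]
  linear_combination (χ x : ℂ) * (fderiv ℝ P x 1) / 2 * Complex.I_mul_I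

theorem easm_dbar_holo {P : ℂ → ℂ} {x : ℂ} (hP : DifferentiableAt ℂ P x) : dbar P x = 0 := by
  have h2 : fderiv ℝ P x Complex.I = Complex.I * fderiv ℝ P x 1 := by
    rw [hP.fderiv_restrictScalars ℝ]
    simp only [ContinuousLinearMap.coe_restrictScalars']
    have := (fderiv ℂ P x).map_smul Complex.I 1
    simpa using this
  unfold dbar
  rw [h2]
  linear_combination (fderiv ℝ P x 1) / 2 * Complex.I_mul_I

/-- a compact relatively open piece of the closure of the discontinuity set is impossible -/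
theorem easm_main {u : ℂ → ℝ} {g j : ℂ → ℂ} (h : MSMin univ u g j) {C : Set ℂ}
    (hC : IsCompact C) (hCne : C.Nonempty) (hCK : C ⊆ closure (discSet univ u))
    (hcl : IsClosed (closure (discSet univ u) \ C)) : False := by
  set K := closure (discSet univ u) with hKdef
  have hK : IsClosed K := isClosed_closure
  have hKu : ¬ Bornology.IsBounded K := by
    intro hb
    refine ea_unbounded h ?_ (hb.subset subset_closure)
    rw [← closure_nonempty_iff]
    exact hCne.mono hCK
  obtain ⟨G, hGo, hGc, ⟨R, hR⟩, hCG, hKG, hKGne⟩ := ea_topo hK hKu hC hCne hCK hcl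
  obtain ⟨χ, G', U, hχ, hχc, hG'o, hUo, hGG', hKU, hχ0, hχ1⟩ := ea_cut hK hGo hR hKG
  obtain ⟨P, hP, hgP⟩ := ea_harm h
  have hKo : IsOpen (univ \ K : Set ℂ) := isOpen_univ.sdiff hK
  have hPat : ∀ x, x ∉ K → DifferentiableAt ℂ P x := fun x hx =>
    (hP x ⟨mem_univ x, hx⟩).differentiableAt (hKo.mem_nhds ⟨mem_univ x, hx⟩)
  set X : ℂ → ℂ := fun y => (χ y : ℂ) with hXdef
  have hX : ContDiff ℝ ∞ X := Complex.ofRealCLM.contDiff.comp hχ
  have hXc : HasCompactSupport X := hχc.comp_left (g := fun t : ℝ => (t : ℂ)) Complex.ofReal_zero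
  have hVo : IsOpen (G' ∪ U) := hG'o.union hUo
  have hKV : K ⊆ G' ∪ U := by
    intro x hx
    by_cases hxG : x ∈ G
    · exact Or.inl (hGG' (subset_closure hxG))
    · exact Or.inr (hKU ⟨hx, hxG⟩)
  have hSV : discSet univ u ⊆ G' ∪ U := subset_closure.trans hKV
  have hX0 : ∀ x ∈ G' ∪ U, fderiv ℝ X x = 0 := by
    rintro x (hx | hx)
    · have : X =ᶠ[𝓝 x] fun _ => 0 := by
        filter_upwards [hG'o.mem_nhds hx] with y hy
        simp [hXdef, hχ0 y hy]
      rw [this.fderiv_eq, fderiv_fun_const]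
      rfl
    · have : X =ᶠ[𝓝 x] fun _ => 1 := by
        filter_upwards [hUo.mem_nhds hx] with y hy
        simp [hXdef, hχ1 y hy]
      rw [this.fderiv_eq, fderiv_fun_const]
      rfl
  have hdX0 : ∀ x ∈ G' ∪ U, dbar X x = 0 := by
    intro x hx
    simp [dbar, hX0 x hx]
  -- the right hand side
  set F : ℂ → ℂ := fun x => dbar X x * P x with hFdef
  have hdX : ContDiff ℝ ∞ (dbar X) := by
    have h1 : ∀ v : ℂ, ContDiff ℝ ∞ (fun x => fderiv ℝ X x v) := fun v =>
      (hX.fderiv_right (m := ∞) (by simp)).clm_apply contDiff_const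
    unfold dbar
    exact ((h1 1).add (contDiff_const.mul (h1 Complex.I))).div_const 2
  have hF : ContDiff ℝ ∞ F := by
    rw [contDiff_iff_contDiffAt]
    intro x
    by_cases hx : x ∈ G' ∪ U
    · have : F =ᶠ[𝓝 x] fun _ => 0 := by
        filter_upwards [hVo.mem_nhds hx] with y hy
        simp [hFdef, hdX0 y hy]
      exact contDiffAt_const.congr_of_eventuallyEq this
    · have hxK : x ∉ K := fun hh => hx (hKV hh)
      have h1 : AnalyticAt ℂ P x :=
        hP.analyticAt (hKo.mem_nhds ⟨mem_univ x, hxK⟩)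
      have h2 : ContDiffAt ℝ ∞ P x := (h1.restrictScalars (𝕜 := ℝ)).contDiffAt
      exact hdX.contDiffAt.mul h2
  have hFc : HasCompactSupport F := by
    have h1 : HasCompactSupport (dbar X) := by
      refine hXc.mono' ?_
      intro x hx
      by_contra hxs
      refine hx ?_
      have : X =ᶠ[𝓝 x] fun _ => 0 := by
        filter_upwards [(isClosed_tsupport X).isOpen_compl.mem_nhds hxs] with y hy
        exact image_eq_zero_of_notMem_tsupport hy
      simp [dbar, this.fderiv_eq]
    exact h1.mul_right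
  obtain ⟨k, hk, hkF, Ck, hkC⟩ := ea_cauchy hF hFc
  have hkX : ∀ᵐ x ∂(volume : Measure ℂ), dbar k x = dbar X x * (starRingEnd ℂ) (g x) := by
    filter_upwards [hgP] with x hx
    rw [hkF x]
    by_cases hxK : x ∈ K
    · simp [hFdef, hdX0 x (hKV hxK)]
    · rw [hx ⟨mem_univ x, hxK⟩]
      simp [hFdef]
  have hk1 : (μH[1] : Measure ℂ) {x ∈ jumpSet univ u |
      inner ℝ (Complex.I * outer_grad (fun y => (k y).re) x) (j x) ≠ 0} = 0 := by
    refine ea_kill h.toSBVData (Complex.reCLM.contDiff.comp hk) ?_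
    intro η κ M hη hηc _ hκ hM
    rw [setIntegral_univ]
    exact (ea_cross h hX hXc hVo hSV hX0 hk hkX hkC hη hηc hκ hM).1
  have hk2 : (μH[1] : Measure ℂ) {x ∈ jumpSet univ u |
      inner ℝ (Complex.I * outer_grad (fun y => (k y).im) x) (j x) ≠ 0} = 0 := by
    refine ea_kill h.toSBVData (Complex.imCLM.contDiff.comp hk) ?_
    intro η κ M hη hηc _ hκ hM
    rw [setIntegral_univ]
    exact (ea_cross h hX hXc hVo hSV hX0 hk hkX hkC hη hηc hκ hM).2
  have hkV : ∀ x ∈ G' ∪ U, dbar k x = 0 := by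
    intro x hx
    rw [hkF x, hFdef]
    simp [hdX0 x hx]
  have hk0 := ea_zero1 h.toSBVData hk hkV hk1 hk2
  have hkd : Differentiable ℝ k := hk.differentiable (by simp)
  have hJK : jumpSet univ u ⊆ K := (asm_jump_sub h.toSBVData).trans subset_closure
  -- positivity of the jump part with vanishing derivative
  have hpos : ∀ W : Set ℂ, IsOpen W → (K ∩ W).Nonempty →
      0 < (μH[1] : Measure ℂ) {x ∈ jumpSet univ u ∩ W | fderiv ℝ k x = 0} := by
    intro W hW ⟨x, hxK, hxW⟩
    obtain ⟨δ, hδ, hball⟩ := Metric.isOpen_iff.1 hW x hxW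
    have h1 := removable h (mem_univ x) hxK hδ
    refine h1.trans_le ?_
    have h2 : jumpSet univ u ∩ ball x δ ⊆
        {x ∈ jumpSet univ u ∩ W | fderiv ℝ k x = 0} ∪
          {x ∈ jumpSet univ u ∩ (G' ∪ U) | fderiv ℝ k x ≠ 0} := by
      intro y hy
      by_cases h3 : fderiv ℝ k y = 0
      · exact Or.inl ⟨⟨hy.1, hball hy.2⟩, h3⟩
      · exact Or.inr ⟨⟨hy.1, hKV (hJK hy.1)⟩, h3⟩
    calc (μH[1] : Measure ℂ) (jumpSet univ u ∩ ball x δ) ≤ _ := measure_mono h2
      _ ≤ _ := measure_union_le _ _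
      _ = _ := by rw [hk0, add_zero]
  have hderiv : ∀ x, dbar k x = 0 → fderiv ℝ k x = 0 → deriv k x = 0 := by
    intro x hx hx0
    have h1 := easm_diff hkd hx
    have h2 : fderiv ℝ k x = (fderiv ℂ k x).restrictScalars ℝ := h1.fderiv_restrictScalars ℝ
    have h3 : fderiv ℂ k x 1 = 0 := by
      have := congrArg (fun L : ℂ →L[ℝ] ℂ => L 1) h2
      simp only [ContinuousLinearMap.coe_restrictScalars', hx0,
        zero_apply] at this
      exact this.symm
    rw [← fderiv_apply_one_eq_deriv]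
    exact h3
  -- k vanishes on G
  have hkG : ∀ x ∈ G, k x = 0 := by
    have hGV : G ⊆ G' ∪ U := (subset_closure.trans hGG').trans subset_union_left
    obtain ⟨c, hc⟩ := ea_zero2 (E := {x ∈ jumpSet univ u ∩ G | fderiv ℝ k x = 0}) hGo hGc
      (fun x hx => (easm_diff hkd (hkV x (hGV hx))).differentiableWithinAt)
      (fun x hx => hx.1.2) (hpos G hGo hKGne)
      (fun x hx => hderiv x (hkV x (hGV hx.1.2)) hx.2)
    have hc0 : c = 0 := by
      have h1 : Tendsto (fun n : ℕ => Ck / (1 + ((n : ℝ) + |R|))) atTop (𝓝 0) := by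
        refine Tendsto.const_div_atTop ?_ _
        refine tendsto_atTop_add_const_left _ _ ?_
        exact tendsto_atTop_add_const_right _ _ tendsto_natCast_atTop_atTop
      have h2 : ∀ n : ℕ, ‖c‖ ≤ Ck / (1 + ((n : ℝ) + |R|)) := by
        intro n
        have h3 : ‖(((n : ℝ) + |R| : ℝ) : ℂ)‖ = (n : ℝ) + |R| := by
          rw [Complex.norm_real, Real.norm_eq_abs, abs_of_nonneg (by positivity)]
        have h4 : (((n : ℝ) + |R| : ℝ) : ℂ) ∈ G := by
          refine hR _ ?_
          rw [h3]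
          have : (0 : ℝ) ≤ n := by positivity
          linarith [le_abs_self R]
        rw [← hc _ h4]
        refine ((hkC _).1).trans ?_
        rw [h3]
      have h3 : ‖c‖ ≤ 0 := ge_of_tendsto' h1 h2
      simpa using h3
    intro x hx
    rw [hc x hx, hc0]
  -- the function M
  set Mf : ℂ → ℂ := fun x => X x * P x - k x with hMdef
  have hMd : ∀ x, x ∉ K → DifferentiableAt ℂ Mf x := by
    intro x hx
    have hPx := hPat x hx
    have h1 : DifferentiableAt ℝ (fun y => X y * P y) x :=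
      ((hX.differentiable (by simp)) x).mul (hPx.restrictScalars ℝ)
    rw [differentiableAt_complex_iff_differentiableAt_real]
    have h2 : DifferentiableAt ℝ Mf x := h1.sub (hkd x)
    refine ⟨h2, ?_⟩
    have h3 : dbar Mf x = 0 := by
      have h4 : dbar Mf x = dbar (fun y => X y * P y) x - dbar k x := by
        unfold dbar
        rw [hMdef, fderiv_fun_sub h1 (hkd x)]
        simp only [sub_apply]
        ring
      rw [h4, easm_dbar_mul_conj hχ hPx, hkF x]
      simp [hFdef, hXdef]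
    have h5 : fderiv ℝ Mf x 1 + Complex.I * fderiv ℝ Mf x Complex.I = 0 := by
      simpa [dbar] using h3
    have h6 : Complex.I * (fderiv ℝ Mf x 1 + Complex.I * fderiv ℝ Mf x Complex.I) = 0 := by
      rw [h5, mul_zero]
    have h7 : Complex.I * (fderiv ℝ Mf x 1 + Complex.I * fderiv ℝ Mf x Complex.I) =
        Complex.I * fderiv ℝ Mf x 1 - fderiv ℝ Mf x Complex.I := by
      linear_combination (fderiv ℝ Mf x Complex.I) * Complex.I_mul_I
    rw [h7, sub_eq_zero] at h6
    rw [smul_eq_mul]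
    exact h6.symm
  have hM0G : ∀ x ∈ G, Mf x = 0 := by
    intro x hx
    simp [hMdef, hXdef, hχ0 x (hGG' (subset_closure hx)), hkG x hx]
  -- balls around the frontier of G
  have hfr : ∀ x ∈ frontier G, ∃ ε > 0, Disjoint (ball x ε) K := by
    intro x hx
    have hxK : x ∉ K := fun hh => (Set.disjoint_left.1 hKG) hh hx
    obtain ⟨ε, hε, hb⟩ := Metric.isOpen_iff.1 hK.isOpen_compl x hxK
    exact ⟨ε, hε, Set.disjoint_left.2 fun y hy => hb hy⟩
  choose! ε hε0 hεK using hfr
  have hM0 : ∀ x ∈ frontier G, ∀ y ∈ ball x (ε x), Mf y = 0 := by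
    intro x hx y hy
    have hxc : x ∈ closure G := frontier_subset_closure hx
    obtain ⟨z, hzb, hzG⟩ := mem_closure_iff.1 hxc (ball x (ε x)) isOpen_ball
      (mem_ball_self (hε0 x hx))
    have han : AnalyticOnNhd ℂ Mf (ball x (ε x)) := by
      refine DifferentiableOn.analyticOnNhd ?_ isOpen_ball
      intro w hw
      exact (hMd w (Set.disjoint_left.1 (hεK x hx) hw)).differentiableWithinAt
    have hev : Mf =ᶠ[𝓝 z] 0 := by
      filter_upwards [hGo.mem_nhds hzG] with w hw using hM0G w hw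
    exact han.eqOn_zero_of_preconnected_of_eventuallyEq_zero
      (convex_ball x (ε x)).isPreconnected hzb hev hy
  set W : Set ℂ := ⋃ x ∈ frontier G, ball x (ε x) with hWdef
  have hWo : IsOpen W := isOpen_biUnion fun x _ => isOpen_ball
  have hWK : ∀ y ∈ W, y ∉ K := by
    intro y hy
    obtain ⟨x, hx, hyx⟩ := mem_iUnion₂.1 hy
    exact Set.disjoint_left.1 (hεK x hx) hyx
  have hWM : ∀ y ∈ W, Mf y = 0 := by
    intro y hy
    obtain ⟨x, hx, hyx⟩ := mem_iUnion₂.1 hy
    exact hM0 x hx y hyx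
  set Q : Set ℂ := (closure G)ᶜ ∪ W with hQdef
  have hQo : IsOpen Q := isClosed_closure.isOpen_compl.union hWo
  have hGQ : Gᶜ ⊆ Q := by
    intro x hx
    by_cases hxc : x ∈ closure G
    · refine Or.inr (mem_iUnion₂.2 ⟨x, ?_, mem_ball_self (hε0 x ?_)⟩) <;>
      exact ⟨hxc, fun hh => hx (interior_subset hh)⟩
    · exact Or.inl hxc
  have hKQ : K ∩ Q ⊆ Gᶜ := by
    rintro x ⟨hxK, hxQ | hxQ⟩
    · exact fun hh => hxQ (subset_closure hh)
    · exact absurd hxK (hWK x hxQ)
  -- the holomorphic extension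
  set p : ℂ → ℂ := fun x => k x + (1 - X x) * P x with hpdef
  have hpK : ∀ x ∈ K ∩ Q, p =ᶠ[𝓝 x] k := by
    intro x hx
    have hxU : x ∈ U := hKU ⟨hx.1, hKQ hx⟩
    filter_upwards [hUo.mem_nhds hxU] with y hy
    simp [hpdef, hXdef, hχ1 y hy]
  have hpd : DifferentiableOn ℂ p Q := by
    intro x hx
    refine DifferentiableAt.differentiableWithinAt ?_
    by_cases hxK : x ∈ K
    · refine (easm_diff hkd (hkV x (hKV hxK))).congr_of_eventuallyEq (hpK x ⟨hxK, hx⟩)
    · have h1 : p = fun y => P y - Mf y := by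
        funext y
        simp only [hpdef, hMdef]
        ring
      rw [h1]
      exact (hPat x hxK).sub (hMd x hxK)
  obtain ⟨c0, hc0⟩ := hCne
  have hc0K : c0 ∈ K := hCK hc0
  have hc0Q : c0 ∈ Q := hGQ (hCG hc0)
  set Q' : Set ℂ := connectedComponentIn Q c0 with hQ'def
  have hQ'o : IsOpen Q' := hQo.connectedComponentIn
  have hQ'c : IsPreconnected Q' := isPreconnected_connectedComponentIn
  have hQ'Q : Q' ⊆ Q := connectedComponentIn_subset _ _
  have hc0Q' : c0 ∈ Q' := mem_connectedComponentIn hc0Q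
  have hQQ'o : IsOpen (Q \ Q') := by
    rw [isOpen_iff_mem_nhds]
    rintro y ⟨hyQ, hyQ'⟩
    have h1 : connectedComponentIn Q y ∈ 𝓝 y :=
      (hQo.connectedComponentIn).mem_nhds (mem_connectedComponentIn hyQ)
    refine mem_of_superset h1 ?_
    intro z hz
    refine ⟨connectedComponentIn_subset _ _ hz, fun hz' => hyQ' ?_⟩
    have h2 := connectedComponentIn_eq hz
    have h3 := connectedComponentIn_eq hz'
    rw [hQ'def, h3, ← h2]
    exact mem_connectedComponentIn hyQ
  obtain ⟨c, hc⟩ := ea_zero2 (E := {x ∈ jumpSet univ u ∩ Q' | fderiv ℝ k x = 0}) hQ'o hQ'c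
    (hpd.mono hQ'Q) (fun x hx => hx.1.2) (hpos Q' hQ'o ⟨c0, hc0K, hc0Q'⟩)
    (fun x hx => by
      have hxK : x ∈ K := hJK hx.1.1
      rw [(hpK x ⟨hxK, hQ'Q hx.1.2⟩).deriv_eq]
      exact hderiv x (hkV x (hKV hxK)) hx.2)
  have hGcc : IsCompact Gᶜ := by
    refine Metric.isCompact_of_isClosed_isBounded hGo.isClosed_compl ?_
    refine (isBounded_closedBall (x := (0 : ℂ)) (r := R)).subset ?_
    intro x hx
    rw [mem_closedBall, dist_zero_right]
    by_contra hh
    exact hx (hR x (not_le.1 hh).le)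
  have hD : IsCompact (Gᶜ ∩ Q') := by
    have : Gᶜ ∩ Q' = Gᶜ \ (Q \ Q') := by
      ext x
      constructor
      · rintro ⟨h1, h2⟩
        exact ⟨h1, fun hh => hh.2 h2⟩
      · rintro ⟨h1, h2⟩
        refine ⟨h1, ?_⟩
        by_contra hh
        exact h2 ⟨hGQ h1, hh⟩
    rw [this]
    exact hGcc.diff hQQ'o
  have hfin := ea_finald h hQ'o hD inter_subset_right (subset_univ _)
    (fun x hx => ⟨hKQ ⟨subset_closure hx.1, hQ'Q hx.2⟩, hx.2⟩) (c := (starRingEnd ℂ) c) (by
      filter_upwards [hgP] with x hx hxQ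
      have hxG : x ∈ G := by
        by_contra hh
        exact hxQ.2 ⟨hh, hxQ.1⟩
      have hxW : x ∈ W := by
        rcases hQ'Q hxQ.1 with h1 | h1
        · exact absurd (subset_closure hxG) h1
        · exact h1
      rw [hx ⟨mem_univ x, hWK x hxW⟩]
      have h1 := hc x hxQ.1
      have h2 := hWM x hxW
      have h3 : P x = p x + Mf x := by
        simp only [hpdef, hMdef]
        ring
      rw [h3, h1, h2, add_zero])
  obtain ⟨δ, hδ, hball⟩ := Metric.isOpen_iff.1 hQ'o c0 hc0Q'
  have h1 := removable h (mem_univ c0) hc0K hδ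
  refine absurd (measure_mono_null ?_ hfin) h1.ne'
  intro y hy
  have hyS := asm_jump_sub h.toSBVData hy.1
  have hyQ' := hball hy.2
  exact ⟨hyS, hKQ ⟨subset_closure hyS, hQ'Q hyQ'⟩, hyQ'⟩

/-- Every connected component of the closure of the discontinuity set of a local minimizer in the
plane is unbounded, and there are at most six of them. -/
theorem unbounded_components {u : ℂ → ℝ} (hu : IsLocalMinimizer univ u) :
    (∀ x ∈ closure (discSet univ u),
      ¬ Bornology.IsBounded (connectedComponentIn (closure (discSet univ u)) x)) ∧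
    {C : Set ℂ | ∃ x ∈ closure (discSet univ u),
      C = connectedComponentIn (closure (discSet univ u)) x}.encard ≤ 6 := by
  obtain ⟨u', g, j, h, _, hS, _⟩ := exists_MSMin isOpen_univ hu
  rw [← hS]
  have h1 : ∀ x ∈ closure (discSet univ u'),
      ¬ Bornology.IsBounded (connectedComponentIn (closure (discSet univ u')) x) := by
    intro x hx
    refine ea_comp isClosed_closure ?_ hx
    intro C hC hCne hCK hcl
    exact easm_main h hC hCne hCK hcl
  refine ⟨h1, ea_count isClosed_closure h1 ?_⟩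
  intro r hr
  have h2 := ea_clos h
  rw [univ_inter] at h2
  have h3 : closure (discSet univ u') ∩ ball 0 r ⊆
      (discSet univ u' ∩ ball 0 r) ∪ (closure (discSet univ u') \ discSet univ u') := by
    rintro x ⟨hx1, hx2⟩
    by_cases hx : x ∈ discSet univ u'
    · exact Or.inl ⟨hx, hx2⟩
    · exact Or.inr ⟨hx1, hx⟩
  calc (μH[1] : Measure ℂ) (closure (discSet univ u') ∩ ball 0 r)
      ≤ (μH[1] : Measure ℂ) (discSet univ u' ∩ ball 0 r) + 0 := by
        rw [← h2]
        exact (measure_mono h3).trans (measure_union_le _ _)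
    _ ≤ (∫⁻ x in ball 0 r, ‖g x‖ₑ ^ 2) + (μH[1] : Measure ℂ) (discSet univ u' ∩ ball 0 r) := by
        rw [add_zero]
        exact le_add_self
    _ ≤ _ := comp_const h (subset_univ _)

end Pool.Agent.MP099f24
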